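import Pool.Agent.TM.Defs
import Pool.Agent.Helper45.RM.Gln
import Pool.Agent.Helper45.RM.Circ

/-!
# Groups of closed 3-manifolds: systems used in the proof
-/

set_option autoImplicit false

open MvPolynomial
open Pool.Agent.Helper81.CP Pool.Agent.Helper81.HG Pool.Agent.Helper45.RM

namespace Pool.Agent.TM

/-! ### Hyperplanes -/

/-- the system `E` for `b` and the equation `∑ z_i f_i (b) = 1` -/
noncomputable def hypS {σ κ : Type} [Fintype κ] (E : Set (MvPolynomial σ ℤ))
    (f : κ → MvPolynomial σ ℤ) : Set (MvPolynomial (σ ⊕ κ) ℤ) :=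
  insert (∑ i, X (Sum.inr i) * rename Sum.inl (f i) - 1) (rename Sum.inl '' E)

lemma pt_hyps {σ κ : Type} [Fintype κ] {E : Set (MvPolynomial σ ℤ)}
    {f : κ → MvPolynomial σ ℤ} {A : Type} [CommRing A] {x : σ ⊕ κ → A} :
    Pt (hypS E f) x ↔ ∑ i, x (Sum.inr i) * ev (fun j => x (Sum.inl j)) (f i) = 1 ∧
      Pt E (fun j => x (Sum.inl j)) := by
  unfold hypS
  rw [Pt.insert_iff, map_sub, map_one, map_sum, sub_eq_zero]
  simp only [map_mul, ev_X, ev_rename]
  refine and_congr_right fun _ => ?_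
  simp only [Pt, Set.forall_mem_image, ev_rename]

lemma pt_union_range {σ κ : Type} {E : Set (MvPolynomial σ ℤ)}
    {f : κ → MvPolynomial σ ℤ} {A : Type} [CommRing A] {x : σ → A} :
    Pt (E ∪ Set.range f) x ↔ Pt E x ∧ ∀ i, ev x (f i) = 0 := by
  unfold Pt
  simp only [Set.mem_union, or_imp, forall_and, Set.forall_mem_range]

/-! ### Cross products -/

/-- the coordinates of the cross product of the vectors with index `v` and `w` -/
noncomputable def crp {V : Type} (v w : V) (p : Fin 3) : MvPolynomial (V × Fin 3) ℤ :=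
  X (v, p) * X (w, p + 1) - X (w, p) * X (v, p + 1)

/-- the values -/
def cr {V R : Type} [CommRing R] (x : V × Fin 3 → R) (v w : V) (p : Fin 3) : R :=
  x (v, p) * x (w, p + 1) - x (w, p) * x (v, p + 1)

lemma ev_crp {V R : Type} [CommRing R] (x : V × Fin 3 → R) (v w : V) (p : Fin 3) :
    ev x (crp v w p) = cr x v w p := by
  unfold crp cr
  simp only [map_sub, map_mul, ev_X]

/-- equal cross products: `P_i × P_j = P_k × P_l` for all `(i, j, k, l)` in `E` -/
noncomputable def ecS3 {V : Type} (E : Set (V × V × V × V)) : Set (MvPolynomial (V × Fin 3) ℤ) :=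
  {f | ∃ e ∈ E, ∃ p : Fin 3, f = crp e.1 e.2.1 p - crp e.2.2.1 e.2.2.2 p}

lemma pt_ecs3 {V R : Type} [CommRing R] {E : Set (V × V × V × V)} {x : V × Fin 3 → R} :
    Pt (ecS3 E) x ↔ ∀ e ∈ E, ∀ p, cr x e.1 e.2.1 p = cr x e.2.2.1 e.2.2.2 p := by
  unfold ecS3 Pt
  constructor
  · intro h e he p
    have h1 := h _ ⟨e, he, p, rfl⟩
    rw [map_sub, ev_crp, ev_crp, sub_eq_zero] at h1
    exact h1
  · rintro h _ ⟨e, he, p, rfl⟩
    rw [map_sub, ev_crp, ev_crp, sub_eq_zero]
    exact h e he p

/-! ### Alternating forms -/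

/-- the alternating form `e_i ∧ e_j ∧ e_k` -/
def el {n : ℕ} (i j k : Fin n) (p q l : Fin n) : ℤ :=
  let d : Fin n → Fin n → ℤ := fun a b => if a = b then 1 else 0
  d p i * d q j * d l k + d p j * d q k * d l i + d p k * d q i * d l j -
    d p j * d q i * d l k - d p i * d q k * d l j - d p k * d q j * d l i

lemma el_swap {n : ℕ} (i j k : Fin n) (p q l : Fin n) : el i j k p q l = -el j i k p q l := by
  unfold el
  ring

lemma el_self {n : ℕ} (i k : Fin n) (p q l : Fin n) : el i i k p q l = 0 := by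
  unfold el
  ring

lemma el_alt {n : ℕ} (i j k : Fin n) (p q l : Fin n) :
    el i j k p q l = -el i j k q p l ∧ el i j k p q l = -el i j k p l q := by
  unfold el
  constructor <;> ring

/-- the alternating form of a system of equal cross products, with one more variable for each
equation -/
def muE {v k : ℕ} (e : Fin k → Fin v × Fin v × Fin v × Fin v) (p q l : Fin (v + k)) : ℤ :=
  ∑ s, (el (Fin.castAdd k (e s).1) (Fin.castAdd k (e s).2.1) (Fin.natAdd v s) p q l -
    el (Fin.castAdd k (e s).2.2.1) (Fin.castAdd k (e s).2.2.2) (Fin.natAdd v s) p q l)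

lemma muE_alt {v k : ℕ} (e : Fin k → Fin v × Fin v × Fin v × Fin v) (p q l : Fin (v + k)) :
    muE e p q l = -muE e q p l ∧ muE e p q l = -muE e p l q := by
  unfold muE
  rw [← Finset.sum_neg_distrib, ← Finset.sum_neg_distrib]
  constructor
  · refine Finset.sum_congr rfl fun s _ => ?_
    rw [(el_alt _ _ _ p q l).1, (el_alt (Fin.castAdd k (e s).2.2.1) _ _ p q l).1]
    ring
  · refine Finset.sum_congr rfl fun s _ => ?_
    rw [(el_alt _ _ _ p q l).2, (el_alt (Fin.castAdd k (e s).2.2.1) _ _ p q l).2]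
    ring

end Pool.Agent.TM
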