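import Pool.Agent.TM.Hyp
import Pool.Agent.TM.Base

/-!
# From three-forms to systems of equal cross products

For an alternating integer form `μ` in three variables let `cupS μ` be the system
`μ (x, y, .) = 0` for two vectors `x, y`. By the hyperplane lemma it is good if and only if the
affine hypersurface `μ (x, y, z) = 1` is good. For the forms
`∑ β_k ∧ s_k` with new coordinates `s_k` this hypersurface is a hyperplane over the space of the
triples of vectors, with the coefficients `β_k (y, z)`, `β_k (z, x)`, `β_k (x, y)`; so, by the same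
lemma, the system of the vanishing of these is good. Every system of equations
`P_i × P_j = P_k × P_l` between vectors of length three has this form.
-/

set_option autoImplicit false

open MvPolynomial
open Pool.Agent.Helper81.CP Pool.Agent.Helper45.RM

namespace Pool.Agent.TM

variable {Q : ∀ (R : Type) [CommRing R], ℤ → Prop}

/-- the system `μ (x, y, .) = 0`, for an arbitrary index set -/
noncomputable def cupI {I : Type} [Fintype I] (μ : I → I → I → ℤ) :
    Set (MvPolynomial (I ⊕ I) ℤ) :=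
  Set.range fun k => ∑ i, ∑ j, C (μ i j k) * (X (Sum.inl i) * X (Sum.inr j))

lemma ev_C' {σ A : Type} [CommRing A] (x : σ → A) (a : ℤ) : ev x (C a) = (a : A) := by
  unfold ev
  simp

lemma pt_cupI {I A : Type} [Fintype I] [CommRing A] {μ : I → I → I → ℤ} {x : I ⊕ I → A} :
    Pt (cupI μ) x ↔ ∀ k, ∑ i, ∑ j, (μ i j k : A) * (x (Sum.inl i) * x (Sum.inr j)) = 0 := by
  unfold cupI Pt
  simp only [Set.forall_mem_range, map_sum, map_mul, ev_X, ev_C']

/-! ### The hyperplane lemma for arbitrary finite families of functions -/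

/-- the scheme `∑ z_i f_i = 1` -/
noncomputable def oneI {σ ι : Type} [Fintype ι] (f : ι → MvPolynomial σ ℤ) :
    Set (MvPolynomial (σ ⊕ ι) ℤ) :=
  {∑ i, X (Sum.inr i) * rename Sum.inl (f i) - 1}

lemma pt_oneI {σ ι A : Type} [Fintype ι] [CommRing A] {f : ι → MvPolynomial σ ℤ}
    {x : σ ⊕ ι → A} :
    Pt (oneI f) x ↔ ∑ i, x (Sum.inr i) * ev (fun i => x (Sum.inl i)) (f i) = 1 := by
  unfold oneI Pt
  simp only [Set.mem_singleton_iff, forall_eq, map_sub, map_sum, map_mul, ev_X, ev_rename,
    map_one, sub_eq_zero]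

lemma pt_range {σ ι A : Type} [CommRing A] {f : ι → MvPolynomial σ ℤ} {x : σ → A} :
    Pt (Set.range f) x ↔ ∀ i, ev x (f i) = 0 := by
  unfold Pt
  simp only [Set.forall_mem_range]

/-- **The hyperplane lemma** over an affine space. -/
theorem good_range_iff (hQ : RingCP Q) {σ ι : Type} [Finite σ] [Fintype ι]
    (h0 : Good Q (∅ : Set (MvPolynomial σ ℤ))) (f : ι → MvPolynomial σ ℤ) :
    Good Q (Set.range f) ↔ Good Q (oneI f) := by
  obtain ⟨n, ⟨e⟩⟩ := Finite.exists_equiv_fin ι
  rcases n with _ | m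
  · have hE : IsEmpty ι := ⟨fun i => (e i).elim0⟩
    have h1 : Good Q (oneI f) := by
      refine good_of_false hQ fun A _ x hx => ?_
      rw [pt_oneI, Finset.univ_eq_empty, Finset.sum_empty] at hx
      exact hx.symm
    have h2 : Set.range f = ∅ := Set.range_eq_empty f
    rw [h2]
    exact ⟨fun _ => h1, fun _ => h0⟩
  · have h1 : Good Q (Set.range f) ↔ Good Q (vanS ∅ (fun j => f (e.symm j))) := by
      refine hQ.good_congr fun A _ x => ?_
      rw [pt_van, pt_range]
      constructor
      · intro h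
        exact ⟨fun p hp => absurd hp (Set.notMem_empty p), fun j => h _⟩
      · rintro ⟨_, h⟩ i
        have := h (e i)
        rwa [Equiv.symm_apply_apply] at this
    have h2 : Good Q (oneI f) ↔ Good Q (oneS ∅ (fun j => f (e.symm j))) := by
      rw [← hQ.good_equiv (Equiv.sumCongr (Equiv.refl σ) e) (oneI f)]
      refine hQ.good_congr fun A _ x => ?_
      rw [pt_one]
      have h3 : Pt (rename (Equiv.sumCongr (Equiv.refl σ) e) '' oneI f) x ↔
          Pt (oneI f) fun i => x (Equiv.sumCongr (Equiv.refl σ) e i) := by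
        simp only [Pt, Set.forall_mem_image, ev_rename]
      rw [h3, pt_oneI]
      have h4 : (∑ i, x (Equiv.sumCongr (Equiv.refl σ) e (Sum.inr i)) *
          ev (fun i => x (Equiv.sumCongr (Equiv.refl σ) e (Sum.inl i))) (f i)) =
          ∑ j, x (Sum.inr j) * ev (fun i => x (Sum.inl i)) (f (e.symm j)) := by
        rw [← Equiv.sum_comp e]
        refine Finset.sum_congr rfl fun i _ => ?_
        rw [Equiv.symm_apply_apply]
        rfl
      rw [h4]
      exact ⟨fun h => ⟨h, fun p hp => absurd hp (Set.notMem_empty p)⟩, fun h => h.1⟩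
    rw [h1, h2]
    exact good_van_iff hQ h0

/-! ### Affine spaces and arbitrary index sets -/

lemma good_empty (hQ : RingCP Q) (h : Good Q (∅ : Set (MvPolynomial Empty ℤ)))
    (σ : Type) [Finite σ] : Good Q (∅ : Set (MvPolynomial σ ℤ)) := by
  have h2 : Function.Injective (fun i => i.elim : Empty → σ) := fun i => i.elim
  have h1 := (hQ.good_emb _ h2 ∅).2 h
  rwa [Set.image_empty] at h1

lemma good_cupI (hQ : RingCP Q) {n : ℕ} (μ : Fin n → Fin n → Fin n → ℤ) {I : Type} [Fintype I]
    (e : I ≃ Fin n) (ν : I → I → I → ℤ) (hν : ∀ i j k, ν i j k = μ (e i) (e j) (e k)) :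
    Good Q (cupI ν) ↔ Good Q (cupS μ) := by
  rw [← hQ.good_equiv (Equiv.sumCongr e e)]
  refine hQ.good_congr fun A _ x => ?_
  have h3 : Pt (rename (Equiv.sumCongr e e) '' cupI ν) x ↔
      Pt (cupI ν) fun i => x (Equiv.sumCongr e e i) := by
    simp only [Pt, Set.forall_mem_image, ev_rename]
  have h5 : Pt (cupS μ) x ↔ Pt (cupI μ) x := Iff.rfl
  rw [h3, h5, pt_cupI, pt_cupI, ← e.forall_congr_right]
  refine forall_congr' fun k => ?_
  rw [← Equiv.sum_comp e]
  have h4 : ∀ i, (∑ j, ((μ (e i) j (e k) : ℤ) : A) * (x (Sum.inl (e i)) * x (Sum.inr j))) =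
      ∑ j, ((ν i j k : ℤ) : A) * (x (Sum.inl (e i)) * x (Sum.inr (e j))) := by
    intro i
    rw [← Equiv.sum_comp e]
    exact Finset.sum_congr rfl fun j _ => by rw [hν]
  simp only [h4]
  rfl

/-! ### The form `∑ β_k ∧ s_k` -/

section
variable {T K : Type} [Fintype T] [Fintype K]

/-- the form `∑ β_k ∧ s_k` -/
def wed (β : K → T → T → ℤ) : T ⊕ K → T ⊕ K → T ⊕ K → ℤ
  | .inl i, .inl j, .inr k => β k i j
  | .inr k, .inl i, .inl j => β k i j
  | .inl j, .inr k, .inl i => β k i j
  | _, _, _ => 0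

/-- the value of a form in two variables -/
def bi {T A : Type} [Fintype T] [CommRing A] (b : T → T → ℤ) (u v : T → A) : A :=
  ∑ i, ∑ j, (b i j : A) * (u i * v j)

lemma tri_wed {A : Type} [CommRing A] (β : K → T → T → ℤ) (x y z : T ⊕ K → A) :
    ∑ c, z c * ∑ a, ∑ b, (wed β a b c : A) * (x a * y b) =
      ∑ k, (x (Sum.inr k) * bi (β k) (fun i => y (Sum.inl i)) (fun i => z (Sum.inl i)) +
        y (Sum.inr k) * bi (β k) (fun i => z (Sum.inl i)) (fun i => x (Sum.inl i)) +
        z (Sum.inr k) * bi (β k) (fun i => x (Sum.inl i)) (fun i => y (Sum.inl i))) := by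
  have h1 : ∀ F : T → T → K → A, (∑ c, ∑ a, ∑ k, F c a k) = ∑ k, ∑ c, ∑ a, F c a k := by
    intro F
    rw [Finset.sum_comm (s := Finset.univ (α := K))]
    exact Finset.sum_congr rfl fun c _ => Finset.sum_comm
  have h2 : ∀ F : T → K → T → A, (∑ c, ∑ k, ∑ i, F c k i) = ∑ k, ∑ i, ∑ c, F c k i := by
    intro F
    rw [Finset.sum_comm]
    exact Finset.sum_congr rfl fun k _ => Finset.sum_comm
  simp only [Fintype.sum_sum_type, wed, Int.cast_zero, zero_mul, Finset.sum_const_zero, add_zero,
    mul_add, Finset.sum_add_distrib, bi, Finset.mul_sum, mul_zero, zero_add]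
  rw [h2, h1]
  have e1 : ∀ F F' : K → T → T → A, (∀ k i j, F k i j = F' k i j) →
      (∑ k, ∑ i, ∑ j, F k i j) = ∑ k, ∑ i, ∑ j, F' k i j := fun F F' h =>
    Finset.sum_congr rfl fun k _ => Finset.sum_congr rfl fun i _ =>
      Finset.sum_congr rfl fun j _ => h k i j
  rw [e1 (fun k i c => z (Sum.inl c) * ((β k i c : A) * (x (Sum.inr k) * y (Sum.inl i))))
      (fun k i c => x (Sum.inr k) * ((β k i c : A) * (y (Sum.inl i) * z (Sum.inl c))))
      (fun k i j => by ring),
    e1 (fun k c a => z (Sum.inl c) * ((β k c a : A) * (x (Sum.inl a) * y (Sum.inr k))))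
      (fun k c a => y (Sum.inr k) * ((β k c a : A) * (z (Sum.inl c) * x (Sum.inl a))))
      (fun k i j => by ring)]
  ring

/-- the values of the forms at the pairs of three vectors -/
noncomputable def cyc (β : K → T → T → ℤ) : K × Fin 3 → MvPolynomial (T × Fin 3) ℤ := fun p =>
  ∑ i, ∑ j, C (β p.1 i j) * (X (i, p.2 + 1) * X (j, p.2 + 2))

omit [Fintype K] in
lemma ev_cyc {A : Type} [CommRing A] (β : K → T → T → ℤ) (x : T × Fin 3 → A) (p : K × Fin 3) :
    ev x (cyc β p) = bi (β p.1) (fun i => x (i, p.2 + 1)) (fun i => x (i, p.2 + 2)) := by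
  unfold cyc bi
  simp only [map_sum, map_mul, ev_X, ev_C']

/-- the coordinates -/
def eqv (T K : Type) : ((T ⊕ K) ⊕ (T ⊕ K)) ⊕ (T ⊕ K) ≃ (T × Fin 3) ⊕ (K × Fin 3) where
  toFun
    | .inl (.inl (.inl t)) => .inl (t, 0)
    | .inl (.inl (.inr k)) => .inr (k, 0)
    | .inl (.inr (.inl t)) => .inl (t, 1)
    | .inl (.inr (.inr k)) => .inr (k, 1)
    | .inr (.inl t) => .inl (t, 2)
    | .inr (.inr k) => .inr (k, 2)
  invFun
    | .inl (t, 0) => .inl (.inl (.inl t))
    | .inr (k, 0) => .inl (.inl (.inr k))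
    | .inl (t, 1) => .inl (.inr (.inl t))
    | .inr (k, 1) => .inl (.inr (.inr k))
    | .inl (t, 2) => .inr (.inl t)
    | .inr (k, 2) => .inr (.inr k)
  left_inv := by rintro (((t | k) | (t | k)) | (t | k)) <;> rfl
  right_inv := by rintro (⟨t, c⟩ | ⟨k, c⟩) <;> fin_cases c <;> rfl

/-- the hypersurface `μ (x, y, z) = 1` is a hyperplane over the triples of vectors -/
lemma good_wed_iff (hQ : RingCP Q) (β : K → T → T → ℤ) :
    Good Q (oneI (fun c => ∑ a, ∑ b, C (wed β a b c) *
      (X (Sum.inl a) * X (Sum.inr b)) : T ⊕ K → MvPolynomial ((T ⊕ K) ⊕ (T ⊕ K)) ℤ)) ↔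
    Good Q (oneI (cyc β)) := by
  rw [← hQ.good_equiv (eqv T K)]
  refine hQ.good_congr fun A _ x => ?_
  have h3 : Pt (rename (eqv T K) '' oneI (fun c => ∑ a, ∑ b, C (wed β a b c) *
      (X (Sum.inl a) * X (Sum.inr b)) : T ⊕ K → MvPolynomial ((T ⊕ K) ⊕ (T ⊕ K)) ℤ)) x ↔
      Pt (oneI (fun c => ∑ a, ∑ b, C (wed β a b c) *
      (X (Sum.inl a) * X (Sum.inr b)) : T ⊕ K → MvPolynomial ((T ⊕ K) ⊕ (T ⊕ K)) ℤ))
        fun i => x (eqv T K i) := by
    simp only [Pt, Set.forall_mem_image, ev_rename]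
  rw [h3, pt_oneI, pt_oneI]
  have h4 := tri_wed β (fun a => x (eqv T K (.inl (.inl a)))) (fun a => x (eqv T K (.inl (.inr a))))
    (fun a => x (eqv T K (.inr a)))
  simp only [map_sum, map_mul, ev_X, ev_C']
  rw [h4]
  simp only [Fintype.sum_prod_type, Fin.sum_univ_three, ev_cyc]
  exact Iff.rfl

/-- **Systems of alternating forms in triples of vectors.** -/
theorem good_cyc (hQ : RingCP Q) (h0 : Good Q (∅ : Set (MvPolynomial Empty ℤ)))
    (β : K → T → T → ℤ) (h : Good Q (cupI (wed β))) : Good Q (Set.range (cyc β)) := by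
  rw [good_range_iff hQ (good_empty hQ h0 _), ← good_wed_iff hQ,
    ← good_range_iff hQ (good_empty hQ h0 _)]
  exact h

end

/-! ### Equal cross products -/

/-- the form of an equation between cross products -/
def crB {V : Type} [DecidableEq V] (e : V × V × V × V) (a b : V) : ℤ :=
  (if a = e.1 then 1 else 0) * (if b = e.2.1 then 1 else 0) -
  (if a = e.2.1 then 1 else 0) * (if b = e.1 then 1 else 0) -
  ((if a = e.2.2.1 then 1 else 0) * (if b = e.2.2.2 then 1 else 0) -
  (if a = e.2.2.2 then 1 else 0) * (if b = e.2.2.1 then 1 else 0))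

lemma bi_crb {V A : Type} [DecidableEq V] [Fintype V] [CommRing A] (e : V × V × V × V)
    (u v : V → A) : bi (crB e) u v = (u e.1 * v e.2.1 - u e.2.1 * v e.1) -
      (u e.2.2.1 * v e.2.2.2 - u e.2.2.2 * v e.2.2.1) := by
  have h : ∀ i j : V, ∑ a, ∑ b, (((if a = i then 1 else 0) * (if b = j then 1 else 0) : ℤ) : A) *
      (u a * v b) = u i * v j := by
    intro i j
    rw [Finset.sum_eq_single i, Finset.sum_eq_single j]
    · simp
    · intro b _ hb
      simp [hb]
    · intro hj
      exact absurd (Finset.mem_univ j) hj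
    · intro a _ ha
      simp [ha]
    · intro hi
      exact absurd (Finset.mem_univ i) hi
  unfold bi crB
  rw [← h e.1 e.2.1, ← h e.2.1 e.1, ← h e.2.2.1 e.2.2.2, ← h e.2.2.2 e.2.2.1]
  simp only [← Finset.sum_sub_distrib]
  refine Finset.sum_congr rfl fun a _ => Finset.sum_congr rfl fun b _ => ?_
  push_cast
  ring

lemma el_iff {n : ℕ} {I : Type} [DecidableEq I] (f : I ≃ Fin n) (i j k p q l : I) :
    el (f i) (f j) (f k) (f p) (f q) (f l) =
      (if p = i then 1 else 0) * (if q = j then 1 else 0) * (if l = k then 1 else 0) +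
      (if p = j then 1 else 0) * (if q = k then 1 else 0) * (if l = i then 1 else 0) +
      (if p = k then 1 else 0) * (if q = i then 1 else 0) * (if l = j then 1 else 0) -
      (if p = j then 1 else 0) * (if q = i then 1 else 0) * (if l = k then 1 else 0) -
      (if p = i then 1 else 0) * (if q = k then 1 else 0) * (if l = j then 1 else 0) -
      (if p = k then 1 else 0) * (if q = j then 1 else 0) * (if l = i then 1 else 0) := by
  simp only [el, f.injective.eq_iff]

lemma wed_muE {v k : ℕ} (e : Fin k → Fin v × Fin v × Fin v × Fin v) (a b c : Fin v ⊕ Fin k) :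
    wed (fun s => crB (e s)) a b c =
      muE e (finSumFinEquiv a) (finSumFinEquiv b) (finSumFinEquiv c) := by
  have h : ∀ i : Fin v, Fin.castAdd k i = finSumFinEquiv (Sum.inl i) := fun i =>
    (finSumFinEquiv_apply_left i).symm
  have h' : ∀ s : Fin k, Fin.natAdd v s = finSumFinEquiv (Sum.inr s) := fun s =>
    (finSumFinEquiv_apply_right s).symm
  unfold muE
  simp only [h, h', el_iff]
  rcases a with a | a <;> rcases b with b | b <;> rcases c with c | c
  · simp [wed]
  · rw [Finset.sum_eq_single c (fun s _ hs => by simp [Ne.symm hs])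
      (fun hc => absurd (Finset.mem_univ c) hc)]
    simp [wed, crB]
  · rw [Finset.sum_eq_single b (fun s _ hs => by simp [Ne.symm hs])
      (fun hb => absurd (Finset.mem_univ b) hb)]
    simp only [wed, crB, Sum.inl.injEq, reduceCtorEq, if_false, mul_zero, zero_mul, if_true]
    ring
  · simp [wed]
  · rw [Finset.sum_eq_single a (fun s _ hs => by simp [Ne.symm hs])
      (fun ha => absurd (Finset.mem_univ a) ha)]
    simp only [wed, crB, Sum.inl.injEq, reduceCtorEq, if_false, mul_zero, zero_mul, if_true]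
    ring
  · simp [wed]
  · simp [wed]
  · simp [wed]

/-- **Systems of equal cross products.** -/
theorem good_ec_of_cup (hQ : RingCP Q) {v k : ℕ}
    (e : Fin k → Fin v × Fin v × Fin v × Fin v)
    (h0 : Good Q (∅ : Set (MvPolynomial Empty ℤ))) (h : Good Q (cupS (muE e))) :
    Good Q (ecS3 (Set.range e)) := by
  have h1 : Good Q (cupI (wed fun s => crB (e s))) :=
    (good_cupI hQ (muE e) finSumFinEquiv _ (wed_muE e)).2 h
  refine (hQ.good_congr fun A _ x => ?_).1 (good_cyc hQ h0 (fun s => crB (e s)) h1)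
  rw [pt_range, pt_ecs3]
  simp only [ev_cyc, bi_crb, sub_eq_zero, Prod.forall, Set.forall_mem_range]
  refine forall_congr' fun s => ?_
  have f1 : ∀ c : Fin 3, c + 2 + 1 = c := by decide
  have f2 : ∀ c : Fin 3, c + 2 + 2 = c + 1 := by decide
  have f3 : ∀ c : Fin 3, c + 1 + 1 = c + 2 := by decide
  constructor
  · intro h3 c
    have h4 := h3 (c + 2)
    rw [f1, f2] at h4
    exact h4
  · intro h3 c
    have h4 := h3 (c + 1)
    rw [cr, cr, f3] at h4
    exact h4

end Pool.Agent.TM
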