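import Pool.Agent.TM.Hyp
import Pool.Agent.TM.Base

/-!
# The hyperplane lemma, third direction

Let `P` be the scheme of solutions of `∑ z_i f_i = 1` over the base `B`, and `V` the zero scheme
of the functions `f_i`.  If `V` and `P` are good then `B` is good.
-/

set_option autoImplicit false

open MvPolynomial
open Pool.Agent.Helper81.CP Pool.Agent.Helper45.RM

namespace Pool.Agent.TM

variable {Q : ∀ (R : Type) [CommRing R], ℤ → Prop}

section
variable (hQ : RingCP Q) {σ : Type} [Finite σ] {m : ℕ} {B : Set (MvPolynomial σ ℤ)}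
  {f : Fin (m + 1) → MvPolynomial σ ℤ}

include hQ

/-- the zero scheme of the vector on the product of the base with the general linear group -/
lemma good_fw_iff : Good Q (FW (glS (m + 1) B) (wf m f) (m + 1)) ↔
    Good Q (glS (m + 1) (vanS B f)) := by
  refine hQ.good_congr fun A _ x => ?_
  rw [pt_fw, pt_gls, pt_gls, pt_van]
  simp only [ev_wf]
  constructor
  · rintro ⟨⟨h1, h2⟩, h3⟩
    refine ⟨⟨h1, fun j => ?_⟩, h2⟩
    have h4 : ∑ a, (∑ i, ev (fun i => x (Sum.inl i)) (f i) * x (Sum.inr (Sum.inl (i, a)))) *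
        x (Sum.inr (Sum.inr (j, a))) = ev (fun i => x (Sum.inl i)) (f j) := by
      simp only [Finset.sum_mul]
      rw [Finset.sum_comm]
      have h5 : ∀ i, ∑ a, ev (fun i => x (Sum.inl i)) (f i) * x (Sum.inr (Sum.inl (i, a))) *
          x (Sum.inr (Sum.inr (j, a))) = ev (fun i => x (Sum.inl i)) (f i) *
            if i = j then 1 else 0 := by
        intro i
        rw [← h2, Finset.mul_sum]
        exact Finset.sum_congr rfl fun a _ => mul_assoc _ _ _
      simp only [h5, mul_ite, mul_one, mul_zero, Finset.sum_ite_eq', Finset.mem_univ, if_true]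
    rw [← h4]
    exact Finset.sum_eq_zero fun a _ => by rw [h3 a a.2, zero_mul]
  · rintro ⟨⟨h1, h3⟩, h2⟩
    refine ⟨⟨h1, h2⟩, fun a _ => ?_⟩
    exact Finset.sum_eq_zero fun i _ => by rw [h3 i, zero_mul]

/-- the scheme `∑ z_i f_i = 1` and the slice -/
lemma good_one_iff : Good Q (oneS B f) ↔ Good Q (UW (glS (m + 1) B) (wf m f)) := by
  have h0 : Good Q (FW (glS (m + 1) (oneS B f)) (wf m (fz f)) (m + 1)) := by
    refine good_of_false hQ fun A _ x hx => ?_
    rw [pt_fw, pt_gls, pt_one] at hx
    obtain ⟨⟨⟨h1, _⟩, h2⟩, h3⟩ := hx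
    rw [← h1]
    refine Finset.sum_eq_zero fun j _ => ?_
    have h4 : ∑ a, (∑ i, ev (fun i => x (Sum.inl i)) (fz f i) * x (Sum.inr (Sum.inl (i, a)))) *
        x (Sum.inr (Sum.inr (j, a))) = ev (fun i => x (Sum.inl i)) (fz f j) := by
      simp only [Finset.sum_mul]
      rw [Finset.sum_comm]
      have h5 : ∀ i, ∑ a, ev (fun i => x (Sum.inl i)) (fz f i) * x (Sum.inr (Sum.inl (i, a))) *
          x (Sum.inr (Sum.inr (j, a))) = ev (fun i => x (Sum.inl i)) (fz f i) *
            if i = j then 1 else 0 := by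
        intro i
        rw [← h2, Finset.mul_sum]
        exact Finset.sum_congr rfl fun a _ => mul_assoc _ _ _
      simp only [h5, mul_ite, mul_one, mul_zero, Finset.sum_ite_eq', Finset.mem_univ, if_true]
    have h5 : ev (fun i => x (Sum.inl i)) (fz f j) = 0 := by
      rw [← h4]
      refine Finset.sum_eq_zero fun a _ => ?_
      have h6 := h3 a a.2
      rw [ev_wf] at h6
      rw [h6, zero_mul]
    rw [fz, ev_rename] at h5
    rw [h5, mul_zero]
  have hP : Good Q (oneS B f) ↔ Good Q (UW (glS (m + 1) (oneS B f)) (wf m (fz f))) := by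
    constructor
    · intro h
      exact good_reduce hQ _ (actF _ (fz f)) (good_gl hQ _ _ _ h) h0
    · intro h
      exact good_gln hQ _ _ _ (good_of_slice hQ _ (actF _ (fz f)) h h0)
  have hS : Good Q (UW (glS (m + 1) (oneS B f)) (wf m (fz f))) ↔
      Good Q (UW (glS (m + 1) B) (wf m f)) :=
    (forall_congr' fun s => qs_slice hQ s).trans (hQ.good_sum (τ := Fin m) _)
  rw [hP, hS]

/-- the third direction of the hyperplane lemma -/
theorem good_of_van_one (hV : Good Q (vanS B f)) (h1 : Good Q (oneS B f)) : Good Q B :=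
  good_gln hQ _ _ _ (good_of_slice hQ _ (actF B f) ((good_one_iff hQ).1 h1)
    ((good_fw_iff hQ).2 (good_gl hQ _ _ _ hV)))

end

/-- **The hyperplane lemma** for arbitrary finite families of functions: two of the three schemes
`B`, `f_i = 0` in `B`, and `∑ z_i f_i = 1` over `B` being good, so is the third. -/
theorem good_hyp2 (hQ : RingCP Q) {σ κ : Type} [Finite σ] [Fintype κ]
    (E : Set (MvPolynomial σ ℤ)) (f : κ → MvPolynomial σ ℤ) :
    (Good Q E → (Good Q (E ∪ Set.range f) ↔ Good Q (hypS E f))) ∧
    (Good Q (E ∪ Set.range f) → Good Q (hypS E f) → Good Q E) := by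
  obtain ⟨n, ⟨e⟩⟩ := Finite.exists_equiv_fin κ
  rcases n with _ | m
  · have hE : IsEmpty κ := ⟨fun i => (e i).elim0⟩
    have h1 : Good Q (hypS E f) := by
      refine good_of_false hQ fun A _ x hx => ?_
      rw [pt_hyps, Finset.univ_eq_empty, Finset.sum_empty] at hx
      exact hx.1.symm
    have h2 : E ∪ Set.range f = E := by
      rw [Set.range_eq_empty f, Set.union_empty]
    rw [h2]
    exact ⟨fun h => ⟨fun _ => h1, fun _ => h⟩, fun h _ => h⟩
  · have h1 : Good Q (E ∪ Set.range f) ↔ Good Q (vanS E (fun j => f (e.symm j))) := by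
      refine hQ.good_congr fun A _ x => ?_
      rw [pt_van, pt_union_range]
      refine and_congr_right fun _ => ?_
      constructor
      · intro h j
        exact h _
      · intro h i
        have := h (e i)
        rwa [Equiv.symm_apply_apply] at this
    have h2 : Good Q (hypS E f) ↔ Good Q (oneS E (fun j => f (e.symm j))) := by
      rw [← hQ.good_equiv (Equiv.sumCongr (Equiv.refl σ) e) (hypS E f)]
      refine hQ.good_congr fun A _ x => ?_
      rw [pt_one]
      have h3 : Pt (rename (Equiv.sumCongr (Equiv.refl σ) e) '' hypS E f) x ↔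
          Pt (hypS E f) fun i => x (Equiv.sumCongr (Equiv.refl σ) e i) := by
        simp only [Pt, Set.forall_mem_image, ev_rename]
      rw [h3, pt_hyps]
      have h4 : (∑ i, x (Equiv.sumCongr (Equiv.refl σ) e (Sum.inr i)) *
          ev (fun i => x (Equiv.sumCongr (Equiv.refl σ) e (Sum.inl i))) (f i)) =
          ∑ j, x (Sum.inr j) * ev (fun i => x (Sum.inl i)) (f (e.symm j)) := by
        rw [← Equiv.sum_comp e]
        refine Finset.sum_congr rfl fun i _ => ?_
        rw [Equiv.symm_apply_apply]
        rfl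
      rw [h4]
      exact Iff.rfl
    rw [h1, h2]
    exact ⟨fun h => good_van_iff hQ h, fun h h' => good_of_van_one hQ h h'⟩

end Pool.Agent.TM
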