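import Pool.Agent.TM.Cup
import Pool.Agent.TM.Hyp2

/-!
# From surface bundles to three-forms

For an alternating integer form `μ` in three variables let `bunS μ` be the system
`∑ a_i ∧ b_i = 0`, `c ∧ a_i = 0`, `c ∧ b_i = μ (a, a, e_i)` for vectors `a_i, b_i, c` of length
two. The group `GL_2` acts on its solutions, and the slice `c = (1, 0)` is an affine space. So the
system `μ (x, y, .) = 0`, `∑ a_i ∧ b_i = 0` (where `c = 0`) is good. It is a hyperplane over the
solutions of `μ (x, y, .) = 0`, and where the coefficients of the hyperplane generate the unit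
ideal it is the product with an affine space, up to a line.
-/

set_option autoImplicit false

open MvPolynomial
open Pool.Agent.Helper81.CP Pool.Agent.Helper45.RM

namespace Pool.Agent.TM

variable {Q : ∀ (R : Type) [CommRing R], ℤ → Prop}

/-! ### The system -/

/-- the determinant of two vectors of length two -/
def om2 {I A : Type} [CommRing A] (x : I × Fin 2 → A) (u v : I) : A :=
  x (u, 0) * x (v, 1) - x (v, 0) * x (u, 1)

/-- the polynomial -/
noncomputable def omP {I : Type} (u v : I) : MvPolynomial (I × Fin 2) ℤ :=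
  X (u, 0) * X (v, 1) - X (v, 0) * X (u, 1)

lemma ev_omP {I A : Type} [CommRing A] (x : I × Fin 2 → A) (u v : I) :
    ev x (omP u v) = om2 x u v := by
  unfold omP om2
  simp only [map_sub, map_mul, ev_X]

/-- the system for the group of a surface bundle with monodromy in the Torelli group -/
noncomputable def bunS {n : ℕ} (μ : Fin n → Fin n → Fin n → ℤ) :
    Set (MvPolynomial (Option (Fin n × Bool) × Fin 2) ℤ) :=
  insert (∑ i, omP (some (i, false)) (some (i, true)))
    (Set.range (fun i => omP none (some (i, false))) ∪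
      Set.range fun i => omP none (some (i, true)) -
        ∑ p, ∑ q, C (μ p q i) * (X (some (p, false), 0) * X (some (q, false), 1)))

lemma pt_bun {n : ℕ} {μ : Fin n → Fin n → Fin n → ℤ} {A : Type} [CommRing A]
    {x : Option (Fin n × Bool) × Fin 2 → A} : Pt (bunS μ) x ↔
      (∑ i, om2 x (some (i, false)) (some (i, true)) = 0) ∧
      (∀ i, om2 x none (some (i, false)) = 0) ∧
      ∀ i, om2 x none (some (i, true)) =
        ∑ p, ∑ q, (μ p q i : A) * (x (some (p, false), 0) * x (some (q, false), 1)) := by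
  unfold bunS
  rw [Pt.insert_iff]
  simp only [Pt, Set.mem_union, or_imp, forall_and, Set.forall_mem_range, map_sub, map_sum,
    map_mul, ev_X, ev_C', ev_omP, sub_eq_zero]

/-! ### The action of `GL_2` -/

lemma bi_self {T A : Type} [Fintype T] [CommRing A] {b : T → T → ℤ}
    (hb : ∀ i j, b i j = -b j i) (u : T → A) : bi b u u = 0 := by
  unfold bi
  rw [← Fintype.sum_prod_type' (fun i j => (b i j : A) * (u i * u j))]
  refine Finset.sum_involution (fun p _ => p.swap) (fun p _ => ?_) (fun p _ h h' => ?_)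
    (fun _ _ => Finset.mem_univ _) (fun _ _ => rfl)
  · have h1 : (b p.swap.1 p.swap.2 : A) = -(b p.1 p.2 : A) := by
      rw [Prod.fst_swap, Prod.snd_swap, hb]
      push_cast
      rfl
    rw [h1, Prod.fst_swap, Prod.snd_swap]
    ring
  · have h1 : p.1 = p.2 := (congrArg Prod.snd h')
    have h2 : b p.1 p.2 = 0 := by
      have h3 := hb p.1 p.2
      rw [h1] at h3 ⊢
      omega
    rw [h2, Int.cast_zero, zero_mul] at h
    exact h rfl

lemma bi_swap {T A : Type} [Fintype T] [CommRing A] {b : T → T → ℤ}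
    (hb : ∀ i j, b i j = -b j i) (u v : T → A) : bi b v u = -bi b u v := by
  unfold bi
  rw [Finset.sum_comm, ← Finset.sum_neg_distrib]
  refine Finset.sum_congr rfl fun i _ => ?_
  rw [← Finset.sum_neg_distrib]
  refine Finset.sum_congr rfl fun j _ => ?_
  rw [hb j i]
  push_cast
  ring

lemma bi_lin {T A : Type} [Fintype T] [CommRing A] {b : T → T → ℤ}
    (hb : ∀ i j, b i j = -b j i) (u v : T → A) (α β γ δ : A) :
    bi b (fun p => α * u p + β * v p) (fun p => γ * u p + δ * v p) =
      (α * δ - β * γ) * bi b u v := by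
  have h : bi b (fun p => α * u p + β * v p) (fun p => γ * u p + δ * v p) =
      α * γ * bi b u u + α * δ * bi b u v + β * γ * bi b v u + β * δ * bi b v v := by
    unfold bi
    simp only [Finset.mul_sum, ← Finset.sum_add_distrib]
    exact Finset.sum_congr rfl fun i _ => Finset.sum_congr rfl fun j _ => by ring
  rw [h, bi_self hb, bi_self hb, bi_swap hb]
  ring

/-- the vector `c` -/
noncomputable def wB (n : ℕ) : Fin (1 + 1) → MvPolynomial (Option (Fin n × Bool) × Fin 2) ℤ :=
  fun a => X (none, a)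

/-- multiplication of the vectors -/
def mulB {I A : Type} [CommRing A] (g : Matrix (Fin (1 + 1)) (Fin (1 + 1)) A)
    (x : I × Fin 2 → A) : I × Fin 2 → A := fun p => g.mulVec (fun a => x (p.1, a)) p.2

lemma mulB_apply {I A : Type} [CommRing A] (g : Matrix (Fin (1 + 1)) (Fin (1 + 1)) A)
    (x : I × Fin 2 → A) (i : I) (a : Fin 2) :
    mulB g x (i, a) = g a 0 * x (i, 0) + g a 1 * x (i, 1) := by
  unfold mulB Matrix.mulVec dotProduct
  exact Fin.sum_univ_two _

lemma om2_mulB {I A : Type} [CommRing A] (g : Matrix (Fin (1 + 1)) (Fin (1 + 1)) A)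
    (x : I × Fin 2 → A) (u v : I) :
    om2 (mulB g x) u v = (g 0 0 * g 1 1 - g 0 1 * g 1 0) * om2 x u v := by
  unfold om2
  simp only [mulB_apply]
  ring

section
variable {n : ℕ} {μ : Fin n → Fin n → Fin n → ℤ}
  (hμ : ∀ i j k, μ i j k = -μ j i k ∧ μ i j k = -μ i k j)

include hμ in
lemma pt_mulB {A : Type} [CommRing A] (g : Matrix (Fin (1 + 1)) (Fin (1 + 1)) A)
    {x : Option (Fin n × Bool) × Fin 2 → A} (hx : Pt (bunS μ) x) : Pt (bunS μ) (mulB g x) := by
  rw [pt_bun] at hx ⊢
  obtain ⟨h1, h2, h3⟩ := hx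
  refine ⟨?_, fun i => ?_, fun i => ?_⟩
  · simp only [om2_mulB]
    rw [← Finset.mul_sum, h1, mul_zero]
  · rw [om2_mulB, h2, mul_zero]
  · rw [om2_mulB, h3]
    have h4 := bi_lin (A := A) (b := fun p q => μ p q i) (fun p q => (hμ p q i).1)
      (fun p => x (some (p, false), 0)) (fun p => x (some (p, false), 1))
      (g 0 0) (g 0 1) (g 1 0) (g 1 1)
    simp only [mulB_apply]
    exact h4.symm

include hμ in
/-- the action of the general linear group -/
noncomputable def actB : Act (bunS μ) (wB n) where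
  act := fun A _ g _ x => mulB g x
  nat := by
    intro A B _ _ φ g g' x i
    obtain ⟨i, a⟩ := i
    rw [mulB_apply, mulB_apply, map_add, map_mul, map_mul, Matrix.map_apply, Matrix.map_apply]
  pres := fun A _ g _ x _ _ hx => pt_mulB hμ g hx
  inv := by
    intro A _ g g' x _ hg'
    funext i
    show g'.mulVec (g.mulVec (fun a => x (i.1, a))) i.2 = x i
    rw [Matrix.mulVec_mulVec, hg', Matrix.one_mulVec]
  equiv := by
    intro A _ g g' x
    unfold wB
    simp only [ev_X]
    rfl

end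

/-! ### The slice -/

section
variable (hQ : RingCP Q) {n : ℕ} (μ : Fin n → Fin n → Fin n → ℤ)
  (h0 : Good Q (∅ : Set (MvPolynomial Empty ℤ)))

include hQ h0 in
lemma good_slice_bun : Good Q (UW (bunS μ) (wB n)) := by
  have key : ∀ {A : Type} [CommRing A] {x : Option (Fin n × Bool) × Fin 2 → A},
      Pt (UW (bunS μ) (wB n)) x ↔ (x (none, 0) = 1 ∧ x (none, 1) = 0) ∧
        ∀ p, x (some p, 1) = 0 := by
    intro A _ x
    rw [pt_uw, pt_bun]
    unfold wB
    simp only [ev_X]
    constructor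
    · rintro ⟨⟨_, h2, h3⟩, h4⟩
      have h5 : x (none, 0) = 1 := congrFun h4 0
      have h6 : x (none, 1) = 0 := congrFun h4 1
      refine ⟨⟨h5, h6⟩, ?_⟩
      have h7 : ∀ i, x (some (i, false), 1) = 0 := by
        intro i
        have h8 := h2 i
        rw [om2, h5, h6, one_mul, mul_zero, sub_zero] at h8
        exact h8
      rintro ⟨i, c⟩
      rcases c with _ | _
      · exact h7 i
      · have h8 := h3 i
        rw [om2, h5, h6, one_mul, mul_zero, sub_zero] at h8
        rw [h8]
        refine Finset.sum_eq_zero fun p _ => Finset.sum_eq_zero fun q _ => ?_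
        rw [h7, mul_zero, mul_zero]
    · rintro ⟨⟨h5, h6⟩, h7⟩
      refine ⟨⟨?_, fun i => ?_, fun i => ?_⟩, ?_⟩
      · refine Finset.sum_eq_zero fun i _ => ?_
        rw [om2, h7, h7, mul_zero, mul_zero, sub_zero]
      · rw [om2, h7, h6, mul_zero, mul_zero, sub_zero]
      · rw [om2, h7, h6, mul_zero, mul_zero, sub_zero]
        symm
        refine Finset.sum_eq_zero fun p _ => Finset.sum_eq_zero fun q _ => ?_
        rw [h7, mul_zero, mul_zero]
      · funext a
        fin_cases a
        · exact h5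
        · exact h6
  have h1 := good_empty hQ h0 (Fin n × Bool)
  intro s
  refine (hQ.qs_iso (fun A _ x p => x (some p, 0))
    (fun A _ y q => if q.2 = 0 then q.1.elim 1 y else 0) ?_ ?_ ?_ ?_ ?_ ?_ s).2 (h1 s)
  · intro A B _ _ φ x _ j; rfl
  · rintro A B _ _ φ y _ ⟨o, a⟩
    dsimp only
    split_ifs
    · rcases o with _ | p
      · exact map_one φ
      · rfl
    · exact map_zero φ
  · intro A _ x _ p hp
    exact absurd hp (Set.notMem_empty p)
  · intro A _ y _
    rw [key]
    exact ⟨⟨rfl, rfl⟩, fun p => rfl⟩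
  · intro A _ x hx
    rw [key] at hx
    obtain ⟨⟨h5, h6⟩, h7⟩ := hx
    funext ⟨o, a⟩
    fin_cases a
    · rcases o with _ | p
      · exact h5.symm
      · rfl
    · rcases o with _ | p
      · exact h6.symm
      · exact (h7 p).symm
  · intro A _ y _
    rfl

/-! ### The zero scheme of `c` -/

/-- the coordinates of the vectors `a_i` -/
abbrev Ki (n : ℕ) : Type := Fin n ⊕ Fin n

/-- the system for `c = 0` -/
noncomputable def bun0 {n : ℕ} (μ : Fin n → Fin n → Fin n → ℤ) :
    Set (MvPolynomial (Ki n ⊕ Ki n) ℤ) :=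
  insert (∑ j, X (Sum.inr j) * X (Sum.inl j)) (rename Sum.inl '' cupS μ)

lemma pt_bun0 {n : ℕ} {μ : Fin n → Fin n → Fin n → ℤ} {A : Type} [CommRing A]
    {x : Ki n ⊕ Ki n → A} : Pt (bun0 μ) x ↔ ∑ j, x (Sum.inr j) * x (Sum.inl j) = 0 ∧
      Pt (cupS μ) (fun j => x (Sum.inl j)) := by
  unfold bun0
  rw [Pt.insert_iff]
  simp only [map_sum, map_mul, ev_X]
  refine and_congr_right fun _ => ?_
  simp only [Pt, Set.forall_mem_image, ev_rename]

lemma pt_cupS {n : ℕ} {μ : Fin n → Fin n → Fin n → ℤ} {A : Type} [CommRing A]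
    {x : Ki n → A} : Pt (cupS μ) x ↔
      ∀ k, ∑ i, ∑ j, (μ i j k : A) * (x (Sum.inl i) * x (Sum.inr j)) = 0 :=
  pt_cupI (μ := μ)

variable (hμ : ∀ i j k, μ i j k = -μ j i k ∧ μ i j k = -μ i k j)

include hQ h0 hμ in
lemma good_bun0 (h : Good Q (bunS μ)) : Good Q (bun0 μ) := by
  have h1 : Good Q (FW (bunS μ) (wB n) (1 + 1)) :=
    good_fw_of_slice hQ _ (actB hμ) h (good_slice_bun hQ μ h0)
  have key : ∀ {A : Type} [CommRing A] {x : Option (Fin n × Bool) × Fin 2 → A},
      Pt (FW (bunS μ) (wB n) (1 + 1)) x ↔ ((∑ i, om2 x (some (i, false)) (some (i, true)) = 0) ∧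
        ∀ k, ∑ p, ∑ q, (μ p q k : A) * (x (some (p, false), 0) * x (some (q, false), 1)) = 0) ∧
        ∀ a, x (none, a) = 0 := by
    intro A _ x
    rw [pt_fw, pt_bun]
    unfold wB
    simp only [ev_X]
    constructor
    · rintro ⟨⟨h1, _, h3⟩, h4⟩
      have h5 : ∀ a, x (none, a) = 0 := fun a => h4 a a.2
      refine ⟨⟨h1, fun k => ?_⟩, h5⟩
      rw [← h3, om2, h5, h5, zero_mul, mul_zero, sub_zero]
    · rintro ⟨⟨h1, h3⟩, h5⟩
      refine ⟨⟨h1, fun i => ?_, fun i => ?_⟩, fun a _ => h5 a⟩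
      · rw [om2, h5, h5, zero_mul, mul_zero, sub_zero]
      · rw [om2, h5, h5, zero_mul, mul_zero, sub_zero, h3]
  intro s
  refine (hQ.qs_iso
    (fun A _ x => Sum.elim (Sum.elim (fun i => x (some (i, false), 0))
        (fun i => x (some (i, false), 1)))
      (Sum.elim (fun i => x (some (i, true), 1)) (fun i => -x (some (i, true), 0))))
    (fun A _ y q => q.1.elim 0 (fun p =>
      if p.2 then (if q.2 = 0 then -y (Sum.inr (Sum.inr p.1)) else y (Sum.inr (Sum.inl p.1)))
      else (if q.2 = 0 then y (Sum.inl (Sum.inl p.1)) else y (Sum.inl (Sum.inr p.1)))))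
    ?_ ?_ ?_ ?_ ?_ ?_ s).1 (h1 s)
  · intro A B _ _ φ x _ j
    rcases j with (j | j) | (j | j)
    · rfl
    · rfl
    · rfl
    · exact map_neg φ _
  · rintro A B _ _ φ y _ ⟨o, a⟩
    rcases o with _ | ⟨i, c⟩
    · exact map_zero φ
    · rcases c with _ | _
      · fin_cases a <;> rfl
      · fin_cases a
        · exact map_neg φ _
        · rfl
  · intro A _ x hx
    rw [key] at hx
    rw [pt_bun0, pt_cupS]
    refine ⟨?_, hx.1.2⟩
    rw [← hx.1.1, Fintype.sum_sum_type, ← Finset.sum_add_distrib]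
    refine Finset.sum_congr rfl fun i _ => ?_
    simp only [Sum.elim_inl, Sum.elim_inr, om2]
    ring
  · intro A _ y hy
    rw [pt_bun0, pt_cupS] at hy
    rw [key]
    refine ⟨⟨?_, hy.2⟩, fun a => rfl⟩
    rw [← hy.1, Fintype.sum_sum_type, ← Finset.sum_add_distrib]
    refine Finset.sum_congr rfl fun i _ => ?_
    show y (Sum.inl (Sum.inl i)) * y (Sum.inr (Sum.inl i)) -
      -y (Sum.inr (Sum.inr i)) * y (Sum.inl (Sum.inr i)) = _
    ring
  · intro A _ x hx
    rw [key] at hx
    funext ⟨o, a⟩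
    rcases o with _ | ⟨i, c⟩
    · exact (hx.2 a).symm
    · rcases c with _ | _
      · fin_cases a <;> rfl
      · fin_cases a
        · exact neg_neg _
        · rfl
  · intro A _ y hy
    funext j
    rcases j with (j | j) | (j | j)
    · rfl
    · rfl
    · rfl
    · exact neg_neg _

/-! ### The hyperplane -/

include hQ h0 in
lemma good_point : Good Q (cupS μ ∪ Set.range fun j : Ki n => X j) := by
  have h1 : ∀ {A : Type} [CommRing A] {x : Ki n → A},
      Pt (cupS μ ∪ Set.range fun j : Ki n => X j) x ↔ ∀ j, x j = 0 := by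
    intro A _ x
    rw [pt_union_range, pt_cupS]
    simp only [ev_X]
    refine ⟨fun h => h.2, fun h => ⟨fun k => ?_, h⟩⟩
    refine Finset.sum_eq_zero fun p _ => Finset.sum_eq_zero fun q _ => ?_
    rw [h, zero_mul, mul_zero]
  intro s
  refine (hQ.qs_iso (fun A _ _ p => p.elim) (fun A _ _ _ => 0) ?_ ?_ ?_ ?_ ?_ ?_ s).2 (h0 s)
  · intro A B _ _ φ x _ j
    exact j.elim
  · intro A B _ _ φ y _ j
    exact map_zero φ
  · intro A _ x _ p hp
    exact absurd hp (Set.notMem_empty p)
  · intro A _ y _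
    exact h1.2 fun j => rfl
  · intro A _ x hx
    funext j
    exact (h1.1 hx j).symm
  · intro A _ y _
    funext j
    exact j.elim

include hQ h0 in
lemma good_point0 : Good Q (bun0 μ ∪ Set.range fun j : Ki n => X (Sum.inl j)) := by
  have h1 : ∀ {A : Type} [CommRing A] {x : Ki n ⊕ Ki n → A},
      Pt (bun0 μ ∪ Set.range fun j : Ki n => X (Sum.inl j)) x ↔ ∀ j, x (Sum.inl j) = 0 := by
    intro A _ x
    rw [pt_union_range, pt_bun0, pt_cupS]
    simp only [ev_X]
    refine ⟨fun h => h.2, fun h => ⟨⟨?_, fun k => ?_⟩, h⟩⟩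
    · exact Finset.sum_eq_zero fun p _ => by rw [h, mul_zero]
    · refine Finset.sum_eq_zero fun p _ => Finset.sum_eq_zero fun q _ => ?_
      rw [h, zero_mul, mul_zero]
  intro s
  refine (hQ.qs_iso (fun A _ x j => x (Sum.inr j)) (fun A _ y => Sum.elim (fun _ => 0) y)
    ?_ ?_ ?_ ?_ ?_ ?_ s).2 (good_empty hQ h0 (Ki n) s)
  · intro A B _ _ φ x _ j; rfl
  · intro A B _ _ φ y _ j
    rcases j with j | j
    · exact map_zero φ
    · rfl
  · intro A _ x _ p hp
    exact absurd hp (Set.notMem_empty p)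
  · intro A _ y _
    exact h1.2 fun j => rfl
  · intro A _ x hx
    funext j
    rcases j with j | j
    · exact (h1.1 hx j).symm
    · rfl
  · intro A _ y _
    rfl

include hQ in
/-- a hyperplane through the origin is a factor of the vector space -/
lemma good_hyp_bun (h : Good Q (hypS (bun0 μ) fun j : Ki n => X (Sum.inl j))) :
    Good Q (hypS (cupS μ) fun j : Ki n => X j) := by
  rw [← hQ.good_sum (τ := Ki n)]
  rw [← hQ.good_sum (τ := Unit)] at h
  have k1 : ∀ {A : Type} [CommRing A] {x : ((Ki n ⊕ Ki n) ⊕ Ki n) ⊕ Unit → A},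
      Pt (rename Sum.inl '' hypS (bun0 μ) fun j : Ki n => X (Sum.inl j)) x ↔
      ∑ j, x (Sum.inl (Sum.inr j)) * x (Sum.inl (Sum.inl (Sum.inl j))) = 1 ∧
      ∑ j, x (Sum.inl (Sum.inl (Sum.inr j))) * x (Sum.inl (Sum.inl (Sum.inl j))) = 0 ∧
      Pt (cupS μ) (fun j => x (Sum.inl (Sum.inl (Sum.inl j)))) := by
    intro A _ x
    rw [pt_ren, pt_hyps, pt_bun0]
    simp only [ev_X]
  have k2 : ∀ {A : Type} [CommRing A] {x : (Ki n ⊕ Ki n) ⊕ Ki n → A},
      Pt (rename Sum.inl '' hypS (cupS μ) fun j : Ki n => X j) x ↔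
      ∑ j, x (Sum.inl (Sum.inr j)) * x (Sum.inl (Sum.inl j)) = 1 ∧
      Pt (cupS μ) (fun j => x (Sum.inl (Sum.inl j))) := by
    intro A _ x
    rw [pt_ren, pt_hyps]
    simp only [ev_X]
  intro s
  refine (hQ.qs_iso
    (fun A _ x => Sum.elim (Sum.elim (fun j => x (Sum.inl (Sum.inl (Sum.inl j))))
        (fun j => x (Sum.inl (Sum.inr j))))
      (fun j => x (Sum.inl (Sum.inl (Sum.inr j))) + x (Sum.inr ()) * x (Sum.inl (Sum.inr j))))
    (fun A _ y => Sum.elim (Sum.elim (Sum.elim (fun j => y (Sum.inl (Sum.inl j)))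
        (fun j => y (Sum.inr j) -
          (∑ k, y (Sum.inr k) * y (Sum.inl (Sum.inl k))) * y (Sum.inl (Sum.inr j))))
        (fun j => y (Sum.inl (Sum.inr j))))
      (fun _ => ∑ k, y (Sum.inr k) * y (Sum.inl (Sum.inl k))))
    ?_ ?_ ?_ ?_ ?_ ?_ s).1 (h s)
  · intro A B _ _ φ x _ j
    rcases j with (j | j) | j
    · rfl
    · rfl
    · simp only [Sum.elim_inr, map_add, map_mul]
  · intro A B _ _ φ y _ j
    rcases j with ((j | j) | j) | j
    · rfl
    · simp only [Sum.elim_inl, Sum.elim_inr, map_sub, map_mul, map_sum]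
    · rfl
    · simp only [Sum.elim_inr, map_mul, map_sum]
  · intro A _ x hx
    rw [k1] at hx
    rw [k2]
    exact ⟨hx.1, hx.2.2⟩
  · intro A _ y hy
    rw [k2] at hy
    rw [k1]
    refine ⟨hy.1, ?_, hy.2⟩
    simp only [Sum.elim_inl, Sum.elim_inr, sub_mul, Finset.sum_sub_distrib, mul_assoc]
    rw [← Finset.mul_sum, hy.1, mul_one, sub_self]
  · intro A _ x hx
    rw [k1] at hx
    obtain ⟨h1, h2, h3⟩ := hx
    have h4 : ∑ k, (x (Sum.inl (Sum.inl (Sum.inr k))) + x (Sum.inr ()) *
        x (Sum.inl (Sum.inr k))) * x (Sum.inl (Sum.inl (Sum.inl k))) = x (Sum.inr ()) := by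
      simp only [add_mul, Finset.sum_add_distrib, mul_assoc]
      rw [← Finset.mul_sum, h1, h2, mul_one, zero_add]
    funext j
    rcases j with ((j | j) | j) | j
    · rfl
    · simp only [Sum.elim_inl, Sum.elim_inr, h4]
      ring
    · rfl
    · simp only [Sum.elim_inl, Sum.elim_inr, h4]
  · intro A _ y hy
    funext j
    rcases j with (j | j) | j
    · rfl
    · rfl
    · simp only [Sum.elim_inl, Sum.elim_inr]
      ring

include hQ h0 hμ in
/-- **From surface bundles to three-forms.** -/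
theorem good_cup_of_bun (h : Good Q (bunS μ)) : Good Q (cupS μ) := by
  have h1 := good_bun0 hQ μ h0 hμ h
  have h2 := ((good_hyp2 hQ (bun0 μ) fun j : Ki n => X (Sum.inl j)).1 h1).1
    (good_point0 hQ μ h0)
  exact (good_hyp2 hQ (cupS μ) fun j : Ki n => X j).2 (good_point hQ μ h0)
    (good_hyp_bun hQ μ h2)

end

end Pool.Agent.TM
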