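import Pool.Agent.TM.Red2

/-!
# The hyperplane lemma
-/

set_option autoImplicit false

open MvPolynomial
open Pool.Agent.Helper81.CP Pool.Agent.Helper45.RM

namespace Pool.Agent.TM

variable {Q : ∀ (R : Type) [CommRing R], ℤ → Prop}

/-- the zero scheme of the functions `f_i` -/
def vanS {σ : Type} {m : ℕ} (B : Set (MvPolynomial σ ℤ)) (f : Fin (m + 1) → MvPolynomial σ ℤ) :
    Set (MvPolynomial σ ℤ) := B ∪ Set.range f

/-- the scheme `∑ z_i f_i = 1` -/
noncomputable def oneS {σ : Type} {m : ℕ} (B : Set (MvPolynomial σ ℤ))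
    (f : Fin (m + 1) → MvPolynomial σ ℤ) : Set (MvPolynomial (σ ⊕ Fin (m + 1)) ℤ) :=
  insert (∑ i, X (Sum.inr i) * rename Sum.inl (f i) - 1) (rename Sum.inl '' B)

section
variable {σ : Type} {m : ℕ} {B : Set (MvPolynomial σ ℤ)} {f : Fin (m + 1) → MvPolynomial σ ℤ}

lemma pt_van {A : Type} [CommRing A] {x : σ → A} :
    Pt (vanS B f) x ↔ Pt B x ∧ ∀ i, ev x (f i) = 0 := by
  unfold vanS Pt
  simp only [Set.mem_union, or_imp, forall_and, Set.forall_mem_range]

lemma pt_ren {τ : Type} {A : Type} [CommRing A] {x : σ ⊕ τ → A} :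
    Pt (rename Sum.inl '' B) x ↔ Pt B fun i => x (Sum.inl i) := by
  unfold Pt
  simp only [Set.forall_mem_image, ev_rename]

lemma pt_one {A : Type} [CommRing A] {x : σ ⊕ Fin (m + 1) → A} :
    Pt (oneS B f) x ↔ ∑ i, x (Sum.inr i) * ev (fun i => x (Sum.inl i)) (f i) = 1 ∧
      Pt B fun i => x (Sum.inl i) := by
  unfold oneS
  rw [Pt.insert_iff, pt_ren]
  simp only [map_sub, map_sum, map_mul, ev_X, ev_rename, map_one, sub_eq_zero]

/-- the vector `∑ f_i p_i` -/
noncomputable def wf {τ : Type} (n : ℕ) (g : Fin (n + 1) → MvPolynomial τ ℤ) :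
    Fin (n + 1) → MvPolynomial (GV (n + 1) τ) ℤ :=
  fun a => ∑ i, rename Sum.inl (g i) * X (Sum.inr (Sum.inl (i, a)))

lemma ev_wf {τ : Type} {n : ℕ} (g : Fin (n + 1) → MvPolynomial τ ℤ) {A : Type} [CommRing A]
    (x : GV (n + 1) τ → A) (a : Fin (n + 1)) : ev x (wf n g a) =
      ∑ i, ev (fun i => x (Sum.inl i)) (g i) * x (Sum.inr (Sum.inl (i, a))) := by
  unfold wf
  simp only [map_sum, map_mul, ev_X, ev_rename]

/-- multiplication by elements of the general linear group -/
noncomputable def actF {τ : Type} (U : Set (MvPolynomial τ ℤ)) {n : ℕ}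
    (g : Fin (n + 1) → MvPolynomial τ ℤ) : Act (glS (n + 1) U) (wf n g) where
  act := (actGl U (n := n)).act
  nat := (actGl U (n := n)).nat
  pres := (actGl U (n := n)).pres
  inv := (actGl U (n := n)).inv
  equiv := by
    intro A _ h h' x
    funext a
    rw [ev_wf]
    show ∑ i, ev (fun i => x (Sum.inl i)) (g i) *
      h.mulVec (fun a => x (Sum.inr (Sum.inl (i, a)))) a = _
    simp only [Matrix.mulVec, dotProduct, ev_wf, Finset.mul_sum]
    rw [Finset.sum_comm]
    refine Finset.sum_congr rfl fun i _ => Finset.sum_congr rfl fun j _ => ?_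
    ring

/-- the matrices are inverse to each other on both sides -/
lemma gl_inv {n : ℕ} {A : Type} [CommRing A] (p l : Fin n × Fin n → A)
    (h : ∀ i j, ∑ a, p (i, a) * l (j, a) = if i = j then 1 else 0) (a b : Fin n) :
    ∑ i, p (i, a) * l (i, b) = if a = b then 1 else 0 := by
  have h1 : (Matrix.of fun i a => p (i, a)) * (Matrix.of fun a j => l (j, a)) = 1 := by
    ext i j
    rw [Matrix.mul_apply, Matrix.one_apply]
    exact h i j
  have h2 := mul_eq_one_comm.1 h1
  have h3 := congrFun (congrFun h2 b) a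
  rw [Matrix.mul_apply, Matrix.one_apply] at h3
  simp only [Matrix.of_apply] at h3
  rw [show (if a = b then (1 : A) else 0) = if b = a then 1 else 0 by simp only [eq_comm], ← h3]
  exact Finset.sum_congr rfl fun i _ => mul_comm _ _

/-- the slice: `f_i = l_i(e_0)` -/
lemma slice_iff {n : ℕ} {A : Type} [CommRing A] (p l : Fin (n + 1) × Fin (n + 1) → A)
    (h : ∀ i j, ∑ a, p (i, a) * l (j, a) = if i = j then 1 else 0) (c : Fin (n + 1) → A) :
    ((fun a => ∑ i, c i * p (i, a)) = e0 n A) ↔ ∀ i, c i = l (i, 0) := by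
  constructor
  · intro h1 j
    have h2 : ∑ a, (∑ i, c i * p (i, a)) * l (j, a) = c j := by
      simp only [Finset.sum_mul]
      rw [Finset.sum_comm]
      have h3 : ∀ i, ∑ a, c i * p (i, a) * l (j, a) = c i * if i = j then 1 else 0 := by
        intro i
        rw [← h, Finset.mul_sum]
        exact Finset.sum_congr rfl fun a _ => mul_assoc _ _ _
      simp only [h3, mul_ite, mul_one, mul_zero, Finset.sum_ite_eq', Finset.mem_univ, if_true]
    rw [← h2]
    have h4 : ∀ a, (∑ i, c i * p (i, a)) = e0 n A a := fun a => congrFun h1 a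
    simp only [h4, e0, Pi.single_apply, ite_mul, one_mul, zero_mul, Finset.sum_ite_eq',
      Finset.mem_univ, if_true]
  · intro h1
    funext a
    simp only [h1]
    have h2 := gl_inv p l h a 0
    rw [e0, Pi.single_apply, ← h2]
    exact Finset.sum_congr rfl fun i _ => mul_comm _ _

end

section
variable (hQ : RingCP Q) {σ : Type} [Finite σ] {m : ℕ} {B : Set (MvPolynomial σ ℤ)}
  {f : Fin (m + 1) → MvPolynomial σ ℤ}

/-- the system on the product with the affine space of the `z_i` -/
noncomputable def fz (f : Fin (m + 1) → MvPolynomial σ ℤ) :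
    Fin (m + 1) → MvPolynomial (σ ⊕ Fin (m + 1)) ℤ := fun i => rename Sum.inl (f i)

include hQ

/-- the slices -/
lemma qs_slice (s : ℤ) : QS Q (UW (glS (m + 1) (oneS B f)) (wf m (fz f))) s ↔
    QS Q (rename (Sum.inl : GV (m + 1) σ → GV (m + 1) σ ⊕ Fin m) ''
      UW (glS (m + 1) B) (wf m f)) s := by
  have key : ∀ {A : Type} [CommRing A] {x : GV (m + 1) (σ ⊕ Fin (m + 1)) → A},
      Pt (UW (glS (m + 1) (oneS B f)) (wf m (fz f))) x ↔
      ((∑ i, x (Sum.inl (Sum.inr i)) * ev (fun i => x (Sum.inl (Sum.inl i))) (f i) = 1 ∧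
        Pt B fun i => x (Sum.inl (Sum.inl i))) ∧
        ∀ i j, ∑ a, x (Sum.inr (Sum.inl (i, a))) * x (Sum.inr (Sum.inr (j, a))) =
        if i = j then 1 else 0) ∧ ∀ i, ev (fun i => x (Sum.inl (Sum.inl i))) (f i) =
          x (Sum.inr (Sum.inr (i, 0))) := by
    intro A _ x
    rw [pt_uw, pt_gls, pt_one]
    refine and_congr_right fun h => ?_
    simp only [ev_wf]
    refine (slice_iff (fun q => x (Sum.inr (Sum.inl q))) (fun q => x (Sum.inr (Sum.inr q))) h.2
      _).trans ?_
    simp only [fz, ev_rename]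
  have key' : ∀ {A : Type} [CommRing A] {x : GV (m + 1) σ → A},
      Pt (UW (glS (m + 1) B) (wf m f)) x ↔
      ((Pt B fun i => x (Sum.inl i)) ∧
        ∀ i j, ∑ a, x (Sum.inr (Sum.inl (i, a))) * x (Sum.inr (Sum.inr (j, a))) =
        if i = j then 1 else 0) ∧ ∀ i, ev (fun i => x (Sum.inl i)) (f i) =
          x (Sum.inr (Sum.inr (i, 0))) := by
    intro A _ x
    rw [pt_uw, pt_gls]
    refine and_congr_right fun h => ?_
    simp only [ev_wf]
    exact slice_iff (fun q => x (Sum.inr (Sum.inl q))) (fun q => x (Sum.inr (Sum.inr q))) h.2 _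
  refine hQ.qs_iso
    (fun A _ x => Sum.elim (Sum.elim (fun i => x (Sum.inl (Sum.inl i))) (fun p => x (Sum.inr p)))
      (fun k => ∑ i, x (Sum.inl (Sum.inr i)) * x (Sum.inr (Sum.inr (i, k.succ)))))
    (fun A _ y => Sum.elim (Sum.elim (fun i => y (Sum.inl (Sum.inl i)))
      (fun i => y (Sum.inl (Sum.inr (Sum.inl (i, 0)))) +
        ∑ k : Fin m, y (Sum.inr k) * y (Sum.inl (Sum.inr (Sum.inl (i, k.succ))))))
      (fun p => y (Sum.inl (Sum.inr p))))
    ?_ ?_ ?_ ?_ ?_ ?_ s
  · intro A B' _ _ φ x _ j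
    rcases j with (j | j) | k
    · rfl
    · rfl
    · simp only [Sum.elim_inr, map_sum, map_mul]
  · intro A B' _ _ φ y _ j
    rcases j with (j | j) | k
    · rfl
    · simp only [Sum.elim_inl, Sum.elim_inr, map_add, map_sum, map_mul]
    · rfl
  · intro A _ x hx
    rw [key] at hx
    rw [pt_ren, key']
    exact ⟨⟨hx.1.1.2, hx.1.2⟩, hx.2⟩
  · intro A _ y hy
    rw [pt_ren, key'] at hy
    rw [key]
    refine ⟨⟨⟨?_, hy.1.1⟩, hy.1.2⟩, hy.2⟩
    simp only [Sum.elim_inl, Sum.elim_inr]
    have h1 := fun i => hy.2 i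
    simp only [h1, add_mul, Finset.sum_add_distrib, Finset.sum_mul]
    have h2 := gl_inv (fun q => y (Sum.inl (Sum.inr (Sum.inl q)))) (fun q => y (Sum.inl (Sum.inr (Sum.inr q))))
      hy.1.2 0 0
    rw [if_pos rfl] at h2
    rw [h2, Finset.sum_comm]
    have h3 : ∀ k : Fin m, ∑ i, y (Sum.inr k) * y (Sum.inl (Sum.inr (Sum.inl (i, k.succ)))) *
        y (Sum.inl (Sum.inr (Sum.inr (i, 0)))) = 0 := by
      intro k
      have h4 := gl_inv (fun q => y (Sum.inl (Sum.inr (Sum.inl q))))
        (fun q => y (Sum.inl (Sum.inr (Sum.inr q)))) hy.1.2 k.succ 0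
      rw [if_neg (Fin.succ_ne_zero k)] at h4
      simp only [mul_assoc]
      rw [← Finset.mul_sum, h4, mul_zero]
    simp only [h3, Finset.sum_const_zero, add_zero]
  · intro A _ x hx
    rw [key] at hx
    obtain ⟨⟨⟨h0, h1⟩, h2⟩, h3⟩ := hx
    funext j
    rcases j with (j | j) | k
    · rfl
    · simp only [Sum.elim_inl, Sum.elim_inr]
      simp only [h3] at h0
      -- `∑_a (∑_i z_i l(i, a)) p(j, a) = z_j`
      have h4 : ∑ a, (∑ i, x (Sum.inl (Sum.inr i)) * x (Sum.inr (Sum.inr (i, a)))) *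
          x (Sum.inr (Sum.inl (j, a))) = x (Sum.inl (Sum.inr j)) := by
        simp only [Finset.sum_mul]
        rw [Finset.sum_comm]
        have h5 : ∀ i, ∑ a, x (Sum.inl (Sum.inr i)) * x (Sum.inr (Sum.inr (i, a))) *
            x (Sum.inr (Sum.inl (j, a))) = x (Sum.inl (Sum.inr i)) * if j = i then 1 else 0 := by
          intro i
          rw [← h2, Finset.mul_sum]
          exact Finset.sum_congr rfl fun a _ => by ring
        simp only [h5, mul_ite, mul_one, mul_zero, Finset.sum_ite_eq, Finset.mem_univ, if_true]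
      rw [Fin.sum_univ_succ, h0, one_mul] at h4
      exact h4
    · rfl
  · intro A _ y hy
    rw [pt_ren, key'] at hy
    obtain ⟨⟨h1, h2⟩, h3⟩ := hy
    funext j
    rcases j with (j | j) | k
    · rfl
    · rfl
    · simp only [Sum.elim_inl, Sum.elim_inr, add_mul, Finset.sum_add_distrib, Finset.sum_mul]
      have h4 := gl_inv (fun q => y (Sum.inl (Sum.inr (Sum.inl q))))
        (fun q => y (Sum.inl (Sum.inr (Sum.inr q)))) h2 0 k.succ
      rw [if_neg (Fin.succ_ne_zero k).symm] at h4
      rw [h4, zero_add, Finset.sum_comm]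
      have h5 : ∀ b : Fin m, ∑ i, y (Sum.inr b) * y (Sum.inl (Sum.inr (Sum.inl (i, b.succ)))) *
          y (Sum.inl (Sum.inr (Sum.inr (i, k.succ)))) =
          y (Sum.inr b) * if b = k then 1 else 0 := by
        intro b
        have h6 := gl_inv (fun q => y (Sum.inl (Sum.inr (Sum.inl q))))
          (fun q => y (Sum.inl (Sum.inr (Sum.inr q)))) h2 b.succ k.succ
        simp only [Fin.succ_inj] at h6
        rw [← h6, Finset.mul_sum]
        exact Finset.sum_congr rfl fun i _ => by ring
      simp only [h5, mul_ite, mul_one, mul_zero, Finset.sum_ite_eq', Finset.mem_univ, if_true]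

/-- **The hyperplane lemma.** If the base is good then the zero scheme of the functions `f_i` is
good if and only if the scheme of solutions of `∑ z_i f_i = 1` over the base is good. -/
theorem good_van_iff (hB : Good Q B) : Good Q (vanS B f) ↔ Good Q (oneS B f) := by
  -- the zero scheme of the vector on the product of the base with the general linear group
  have hfw : Good Q (FW (glS (m + 1) B) (wf m f) (m + 1)) ↔ Good Q (glS (m + 1) (vanS B f)) := by
    refine hQ.good_congr fun A _ x => ?_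
    rw [pt_fw, pt_gls, pt_gls, pt_van]
    simp only [ev_wf]
    constructor
    · rintro ⟨⟨h1, h2⟩, h3⟩
      refine ⟨⟨h1, fun j => ?_⟩, h2⟩
      have h4 : ∑ a, (∑ i, ev (fun i => x (Sum.inl i)) (f i) * x (Sum.inr (Sum.inl (i, a)))) *
          x (Sum.inr (Sum.inr (j, a))) = ev (fun i => x (Sum.inl i)) (f j) := by
        simp only [Finset.sum_mul]
        rw [Finset.sum_comm]
        have h5 : ∀ i, ∑ a, ev (fun i => x (Sum.inl i)) (f i) * x (Sum.inr (Sum.inl (i, a))) *
            x (Sum.inr (Sum.inr (j, a))) = ev (fun i => x (Sum.inl i)) (f i) *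
              if i = j then 1 else 0 := by
          intro i
          rw [← h2, Finset.mul_sum]
          exact Finset.sum_congr rfl fun a _ => mul_assoc _ _ _
        simp only [h5, mul_ite, mul_one, mul_zero, Finset.sum_ite_eq', Finset.mem_univ, if_true]
      rw [← h4]
      exact Finset.sum_eq_zero fun a _ => by rw [h3 a a.2, zero_mul]
    · rintro ⟨⟨h1, h3⟩, h2⟩
      refine ⟨⟨h1, h2⟩, fun a _ => ?_⟩
      exact Finset.sum_eq_zero fun i _ => by rw [h3 i, zero_mul]
  have hV : Good Q (vanS B f) ↔ Good Q (UW (glS (m + 1) B) (wf m f)) := by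
    constructor
    · intro h
      exact good_reduce hQ _ (actF B f) (good_gl hQ _ _ _ hB) (hfw.2 (good_gl hQ _ _ _ h))
    · intro h
      exact good_gln hQ _ _ _
        (hfw.1 (good_fw_of_slice hQ _ (actF B f) (good_gl hQ _ _ _ hB) h))
  have h0 : Good Q (FW (glS (m + 1) (oneS B f)) (wf m (fz f)) (m + 1)) := by
    refine good_of_false hQ fun A _ x hx => ?_
    rw [pt_fw, pt_gls, pt_one] at hx
    obtain ⟨⟨⟨h1, _⟩, h2⟩, h3⟩ := hx
    rw [← h1]
    refine Finset.sum_eq_zero fun j _ => ?_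
    have h4 : ∑ a, (∑ i, ev (fun i => x (Sum.inl i)) (fz f i) * x (Sum.inr (Sum.inl (i, a)))) *
        x (Sum.inr (Sum.inr (j, a))) = ev (fun i => x (Sum.inl i)) (fz f j) := by
      simp only [Finset.sum_mul]
      rw [Finset.sum_comm]
      have h5 : ∀ i, ∑ a, ev (fun i => x (Sum.inl i)) (fz f i) * x (Sum.inr (Sum.inl (i, a))) *
          x (Sum.inr (Sum.inr (j, a))) = ev (fun i => x (Sum.inl i)) (fz f i) *
            if i = j then 1 else 0 := by
        intro i
        rw [← h2, Finset.mul_sum]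
        exact Finset.sum_congr rfl fun a _ => mul_assoc _ _ _
      simp only [h5, mul_ite, mul_one, mul_zero, Finset.sum_ite_eq', Finset.mem_univ, if_true]
    have h5 : ev (fun i => x (Sum.inl i)) (fz f j) = 0 := by
      rw [← h4]
      refine Finset.sum_eq_zero fun a _ => ?_
      have h6 := h3 a a.2
      rw [ev_wf] at h6
      rw [h6, zero_mul]
    rw [fz, ev_rename] at h5
    rw [h5, mul_zero]
  have hP : Good Q (oneS B f) ↔ Good Q (UW (glS (m + 1) (oneS B f)) (wf m (fz f))) := by
    constructor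
    · intro h
      exact good_reduce hQ _ (actF _ (fz f)) (good_gl hQ _ _ _ h) h0
    · intro h
      exact good_gln hQ _ _ _ (good_of_slice hQ _ (actF _ (fz f)) h h0)
  have hS : Good Q (UW (glS (m + 1) (oneS B f)) (wf m (fz f))) ↔
      Good Q (UW (glS (m + 1) B) (wf m f)) :=
    (forall_congr' fun s => qs_slice hQ s).trans (hQ.good_sum (τ := Fin m) _)
  rw [hV, hP, hS]

end

end Pool.Agent.TM
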