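import Pool.Agent.Helper45.RM.Eqc
import Pool.Agent.Helper45.RM.Gln
import Pool.Agent.Helper45.RM.Cls
import Pool.Agent.TM.Hyp
import Pool.Agent.TM.Base

/-!
# Families of vectors in space with equal cross products
-/

set_option autoImplicit false

open MvPolynomial
open Pool.Agent.Helper81.CP Pool.Agent.Helper81.HG Pool.Agent.Helper45.RM

namespace Pool.Agent.TM.E3

/-! ### Cross products -/

section
variable {R : Type} [CommRing R]

/-- the cross product -/
def cr (a b : Fin 3 → R) : Fin 3 → R :=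
  ![a 1 * b 2 - a 2 * b 1, a 2 * b 0 - a 0 * b 2, a 0 * b 1 - a 1 * b 0]

lemma cr_0 (a b : Fin 3 → R) : cr a b 0 = a 1 * b 2 - a 2 * b 1 := rfl
lemma cr_1 (a b : Fin 3 → R) : cr a b 1 = a 2 * b 0 - a 0 * b 2 := rfl
lemma cr_2 (a b : Fin 3 → R) : cr a b 2 = a 0 * b 1 - a 1 * b 0 := rfl

lemma cr_self (a : Fin 3 → R) : cr a a = 0 := by
  funext i
  fin_cases i
  · show a 1 * a 2 - a 2 * a 1 = 0
    ring
  · show a 2 * a 0 - a 0 * a 2 = 0
    ring
  · show a 0 * a 1 - a 1 * a 0 = 0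
    ring

lemma map_cr {S : Type} [CommRing S] (φ : R →+* S) (a b : Fin 3 → R) (i : Fin 3) :
    φ (cr a b i) = cr (fun i => φ (a i)) (fun i => φ (b i)) i := by
  fin_cases i
  · show φ (a 1 * b 2 - a 2 * b 1) = φ (a 1) * φ (b 2) - φ (a 2) * φ (b 1)
    simp only [map_sub, map_mul]
  · show φ (a 2 * b 0 - a 0 * b 2) = φ (a 2) * φ (b 0) - φ (a 0) * φ (b 2)
    simp only [map_sub, map_mul]
  · show φ (a 0 * b 1 - a 1 * b 0) = φ (a 0) * φ (b 1) - φ (a 1) * φ (b 0)
    simp only [map_sub, map_mul]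

/-- the determinant -/
def d3 (a b c : Fin 3 → R) : R := ∑ i, c i * cr a b i

lemma d3_eq (a b c : Fin 3 → R) : d3 a b c = c 0 * (a 1 * b 2 - a 2 * b 1) +
    c 1 * (a 2 * b 0 - a 0 * b 2) + c 2 * (a 0 * b 1 - a 1 * b 0) := by
  unfold d3
  rw [Fin.sum_univ_three, cr_0, cr_1, cr_2]

lemma map_d3 {S : Type} [CommRing S] (φ : R →+* S) (a b c : Fin 3 → R) :
    φ (d3 a b c) = d3 (fun i => φ (a i)) (fun i => φ (b i)) (fun i => φ (c i)) := by
  unfold d3
  simp only [map_sum, map_mul, map_cr]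

lemma d3_left (a b : Fin 3 → R) : d3 a b a = 0 := by
  rw [d3_eq]
  ring

lemma d3_right (a b : Fin 3 → R) : d3 a b b = 0 := by
  rw [d3_eq]
  ring

/-- the rule of Cramer -/
lemma cramer3 (a b c v : Fin 3 → R) (i : Fin 3) :
    d3 a b c * v i = d3 v b c * a i + d3 a v c * b i + d3 a b v * c i := by
  simp only [d3_eq]
  fin_cases i
  · simp only [Fin.zero_eta]
    ring
  · simp only [Fin.mk_one]
    ring
  · simp only [Fin.reduceFinMk]
    ring

/-- the relation of Plücker for the determinants with the third vector `c` -/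
lemma pluecker3 (a b c v w : Fin 3 → R) :
    d3 v b c * d3 a w c - d3 w b c * d3 a v c = d3 a b c * d3 v w c := by
  simp only [d3_eq]
  ring

/-- the rule of Cramer for the dual basis -/
lemma cramer_dual (a b c l : Fin 3 → R) (i : Fin 3) :
    d3 a b c * l i = (∑ j, a j * l j) * cr b c i + (∑ j, b j * l j) * cr c a i +
      (∑ j, c j * l j) * cr a b i := by
  simp only [d3_eq, Fin.sum_univ_three]
  fin_cases i
  · simp only [Fin.zero_eta, cr_0]
    ring
  · simp only [Fin.mk_one, cr_1]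
    ring
  · simp only [Fin.reduceFinMk, cr_2]
    ring

lemma d3_mul (a b c : Fin 3 → R) (t : R) : d3 a b (fun i => t * c i) = t * d3 a b c := by
  rw [d3_eq, d3_eq]
  ring

lemma d3_mul_left (a b c : Fin 3 → R) (t : R) :
    d3 (fun i => t * a i) b c = t * d3 a b c := by
  rw [d3_eq, d3_eq]
  ring

lemma cr_mul_right (a b : Fin 3 → R) (t : R) (i : Fin 3) :
    cr a (fun i => t * b i) i = t * cr a b i := by
  fin_cases i
  · show a 1 * (t * b 2) - a 2 * (t * b 1) = t * (a 1 * b 2 - a 2 * b 1)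
    ring
  · show a 2 * (t * b 0) - a 0 * (t * b 2) = t * (a 2 * b 0 - a 0 * b 2)
    ring
  · show a 0 * (t * b 1) - a 1 * (t * b 0) = t * (a 0 * b 1 - a 1 * b 0)
    ring

lemma cr_mul_left (a b : Fin 3 → R) (t : R) (i : Fin 3) :
    cr (fun i => t * a i) b i = t * cr a b i := by
  fin_cases i
  · show t * a 1 * b 2 - t * a 2 * b 1 = t * (a 1 * b 2 - a 2 * b 1)
    ring
  · show t * a 2 * b 0 - t * a 0 * b 2 = t * (a 2 * b 0 - a 0 * b 2)
    ring
  · show t * a 0 * b 1 - t * a 1 * b 0 = t * (a 0 * b 1 - a 1 * b 0)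
    ring

/-- a frame -/
def frm (a b c : Fin 3 → R) (t : R) : Fin 3 → Fin 3 → R := ![a, b, fun i => t * c i]

/-- the dual frame -/
def frd (a b c : Fin 3 → R) (t : R) : Fin 3 → Fin 3 → R :=
  ![cr b c, cr c a, fun i => t * cr a b i]

lemma frm_frd {a b c : Fin 3 → R} {t t' : R} (ht : t' * t = 1) (h : d3 a b c = 1)
    (i j : Fin 3) : ∑ k, frm a b c t i k * frd a b c t' j k = if i = j then 1 else 0 := by
  rw [d3_eq] at h
  rw [Fin.sum_univ_three]
  fin_cases i <;> fin_cases j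
  · show a 0 * (b 1 * c 2 - b 2 * c 1) + a 1 * (b 2 * c 0 - b 0 * c 2) +
      a 2 * (b 0 * c 1 - b 1 * c 0) = 1
    linear_combination h
  · show a 0 * (c 1 * a 2 - c 2 * a 1) + a 1 * (c 2 * a 0 - c 0 * a 2) +
      a 2 * (c 0 * a 1 - c 1 * a 0) = 0
    ring
  · show a 0 * (t' * (a 1 * b 2 - a 2 * b 1)) + a 1 * (t' * (a 2 * b 0 - a 0 * b 2)) +
      a 2 * (t' * (a 0 * b 1 - a 1 * b 0)) = 0
    ring
  · show b 0 * (b 1 * c 2 - b 2 * c 1) + b 1 * (b 2 * c 0 - b 0 * c 2) +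
      b 2 * (b 0 * c 1 - b 1 * c 0) = 0
    ring
  · show b 0 * (c 1 * a 2 - c 2 * a 1) + b 1 * (c 2 * a 0 - c 0 * a 2) +
      b 2 * (c 0 * a 1 - c 1 * a 0) = 1
    linear_combination h
  · show b 0 * (t' * (a 1 * b 2 - a 2 * b 1)) + b 1 * (t' * (a 2 * b 0 - a 0 * b 2)) +
      b 2 * (t' * (a 0 * b 1 - a 1 * b 0)) = 0
    ring
  · show t * c 0 * (b 1 * c 2 - b 2 * c 1) + t * c 1 * (b 2 * c 0 - b 0 * c 2) +
      t * c 2 * (b 0 * c 1 - b 1 * c 0) = 0
    ring
  · show t * c 0 * (c 1 * a 2 - c 2 * a 1) + t * c 1 * (c 2 * a 0 - c 0 * a 2) +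
      t * c 2 * (c 0 * a 1 - c 1 * a 0) = 0
    ring
  · show t * c 0 * (t' * (a 1 * b 2 - a 2 * b 1)) + t * c 1 * (t' * (a 2 * b 0 - a 0 * b 2)) +
      t * c 2 * (t' * (a 0 * b 1 - a 1 * b 0)) = 1
    linear_combination t' * t * h + ht

lemma map_frm {S : Type} [CommRing S] (φ : R →+* S) (a b c : Fin 3 → R) (t : R) (i j : Fin 3) :
    φ (frm a b c t i j) =
      frm (fun i => φ (a i)) (fun i => φ (b i)) (fun i => φ (c i)) (φ t) i j := by
  fin_cases i
  · rfl
  · rfl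
  · exact map_mul φ _ _

lemma map_frd {S : Type} [CommRing S] (φ : R →+* S) (a b c : Fin 3 → R) (t : R) (i j : Fin 3) :
    φ (frd a b c t i j) =
      frd (fun i => φ (a i)) (fun i => φ (b i)) (fun i => φ (c i)) (φ t) i j := by
  fin_cases i
  · exact map_cr φ _ _ _
  · exact map_cr φ _ _ _
  · exact (map_mul φ _ _).trans (congrArg _ (map_cr φ _ _ _))

lemma d3_frm {a b c : Fin 3 → R} (t : R) (h : d3 a b c = 1) :
    d3 (frm a b c t 0) (frm a b c t 1) (frm a b c t 2) = t := by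
  have h1 : d3 (frm a b c t 0) (frm a b c t 1) (frm a b c t 2) = t * d3 a b c := by
    show ∑ i, t * c i * cr a b i = t * ∑ i, c i * cr a b i
    rw [Finset.mul_sum]
    exact Finset.sum_congr rfl fun i _ => by ring
  rw [h1, h, mul_one]

lemma d3_frd {a b c : Fin 3 → R} (t : R) (h : d3 a b c = 1) :
    d3 (frd a b c t 0) (frd a b c t 1) (frd a b c t 2) = t := by
  have h1 : d3 (frd a b c t 0) (frd a b c t 1) (frd a b c t 2) = t * (d3 a b c * d3 a b c) := by
    rw [d3_eq, d3_eq]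
    show t * cr a b 0 * (cr b c 1 * cr c a 2 - cr b c 2 * cr c a 1) +
      t * cr a b 1 * (cr b c 2 * cr c a 0 - cr b c 0 * cr c a 2) +
      t * cr a b 2 * (cr b c 0 * cr c a 1 - cr b c 1 * cr c a 0) = _
    simp only [cr_0, cr_1, cr_2]
    ring
  rw [h1, h]
  ring

/-- the determinant of the products -/
lemma gram3 (a b c l m n : Fin 3 → R) : d3 a b c * d3 l m n =
    (∑ j, a j * l j) * ((∑ j, b j * m j) * (∑ j, c j * n j) - (∑ j, b j * n j) * ∑ j, c j * m j) -
    (∑ j, a j * m j) * ((∑ j, b j * l j) * (∑ j, c j * n j) - (∑ j, b j * n j) * ∑ j, c j * l j) +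
    (∑ j, a j * n j) * ((∑ j, b j * l j) * (∑ j, c j * m j) - (∑ j, b j * m j) * ∑ j, c j * l j) := by
  simp only [d3_eq, Fin.sum_univ_three]
  ring

end

/-! ### The system -/

/-- the cross product of the vectors `v` and `w` of the family `x` -/
def crs {V R : Type} [CommRing R] (x : V × Fin 3 → R) (v w : V) : Fin 3 → R :=
  cr (fun i => x (v, i)) (fun i => x (w, i))

/-- the polynomials of the cross product -/
noncomputable def crp {V : Type} (v w : V) : Fin 3 → MvPolynomial (V × Fin 3) ℤ :=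
  crs X v w

lemma ev_crp {V R : Type} [CommRing R] (x : V × Fin 3 → R) (v w : V) (i : Fin 3) :
    ev x (crp v w i) = crs x v w i := by
  unfold crp crs
  rw [map_cr]
  simp only [ev_X]

/-- the system of equal cross products -/
noncomputable def crS {V : Type} (E : Set (V × V × V × V)) : Set (MvPolynomial (V × Fin 3) ℤ) :=
  {f | ∃ e ∈ E, ∃ i, f = crp e.1 e.2.1 i - crp e.2.2.1 e.2.2.2 i}

lemma pt_crs {V R : Type} [CommRing R] {E : Set (V × V × V × V)} {x : V × Fin 3 → R} :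
    Pt (crS E) x ↔ ∀ e ∈ E, crs x e.1 e.2.1 = crs x e.2.2.1 e.2.2.2 := by
  constructor
  · intro h e he
    funext i
    have h1 := h _ ⟨e, he, i, rfl⟩
    rw [map_sub, ev_crp, ev_crp, sub_eq_zero] at h1
    exact h1
  · rintro h _ ⟨e, he, i, rfl⟩
    rw [map_sub, ev_crp, ev_crp, sub_eq_zero, h e he]

section

variable {Y K R : Type} [CommRing R] {o : Y} {S : Set Y} {cs : K → Con Y}

/-- the coordinates in the plane -/
def pl (x : Gn Y K × Fin 3 → R) (z : Fin 3 → R) (p : Gn Y K × Fin 2) : R :=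
  (![d3 (fun i => x (p.1, i)) (fun i => x (.e1, i)) z,
    d3 (fun i => x (.e0, i)) (fun i => x (p.1, i)) z] : Fin 2 → R) p.2

lemma omg_pl (x : Gn Y K × Fin 3 → R) (z : Fin 3 → R)
    (hz : d3 (fun i => x (.e0, i)) (fun i => x (.e1, i)) z = 1) (p q : Gn Y K) :
    omg (pl x z) p q = d3 (fun i => x (p, i)) (fun i => x (q, i)) z := by
  have h1 := pluecker3 (fun i => x (.e0, i)) (fun i => x (.e1, i)) z (fun i => x (p, i))
    (fun i => x (q, i))
  rw [hz, one_mul] at h1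
  exact h1

/-- the vectors are in the plane of the first two -/
lemma d3_gn {x : Gn Y K × Fin 3 → R} (hx : ∀ e ∈ eqE o S cs,
    crs x e.1 e.2.1 = crs x e.2.2.1 e.2.2.2) (p : Gn Y K) :
    d3 (fun i => x (.e0, i)) (fun i => x (.e1, i)) (fun i => x (p, i)) = 0 := by
  have h0 : crs x .e0 .e0 = 0 := cr_self _
  have hd0 : ∀ a b c : Fin 3 → R, d3 a b c = - d3 a c b := by
    intro a b c
    rw [d3_eq, d3_eq]
    ring
  have hd1 : ∀ a b c : Fin 3 → R, d3 a b c = - d3 c b a := by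
    intro a b c
    rw [d3_eq, d3_eq]
    ring
  have key0 : ∀ q : Gn Y K, crs x .e0 q = crs x .e0 .e0 →
      d3 (fun i => x (.e0, i)) (fun i => x (.e1, i)) (fun i => x (q, i)) = 0 := by
    intro q h
    rw [hd0]
    unfold d3
    have h2 : cr (fun i => x (Gn.e0, i)) (fun i => x (q, i)) = 0 := h.trans h0
    rw [h2]
    simp
  have key1 : ∀ q : Gn Y K, crs x q .e1 = crs x .e0 .e0 →
      d3 (fun i => x (.e0, i)) (fun i => x (.e1, i)) (fun i => x (q, i)) = 0 := by
    intro q h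
    rw [hd1]
    unfold d3
    have h2 : cr (fun i => x (q, i)) (fun i => x (Gn.e1, i)) = 0 := h.trans h0
    rw [h2]
    simp
  have key2 : ∀ q : Gn Y K, crs x .e0 q = crs x .e0 .e1 →
      d3 (fun i => x (.e0, i)) (fun i => x (.e1, i)) (fun i => x (q, i)) = 0 := by
    intro q h
    rw [hd0]
    have h2 : cr (fun i => x (Gn.e0, i)) (fun i => x (q, i)) =
      cr (fun i => x (Gn.e0, i)) (fun i => x (Gn.e1, i)) := h
    have h3 := d3_right (fun i => x (Gn.e0, i)) (fun i => x (Gn.e1, i))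
    unfold d3 at h3 ⊢
    rw [h2, h3, neg_zero]
  rcases p with _ | _ | v | v | k | k
  · exact d3_left _ _
  · exact d3_right _ _
  · exact key0 _ (hx (.e0, .x v, .e0, .e0) (Or.inr (Or.inr (Or.inl ⟨v, Or.inl rfl⟩))))
  · exact key1 _ (hx (.y v, .e1, .e0, .e0) (Or.inr (Or.inr (Or.inl ⟨v, Or.inr (Or.inl rfl)⟩))))
  · exact key2 _ (hx (.e0, .u k, .e0, .e1)
      (Or.inr (Or.inr (Or.inr ⟨k, Or.inr (Or.inl rfl)⟩))))
  · exact key2 _ (hx (.e0, .w k, .e0, .e1)
      (Or.inr (Or.inr (Or.inr ⟨k, Or.inr (Or.inr (Or.inr (Or.inl rfl)))⟩))))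

section
variable {x : Gn Y K × Fin 3 → R} {z : Fin 3 → R}

/-- the values of the variables -/
def tv (x : Gn Y K × Fin 3 → R) (z : Fin 3 → R) (v : Y) : R :=
  d3 (fun i => x (.x v, i)) (fun i => x (.e1, i)) z

lemma pl_eqs (hx : ∀ e ∈ eqE o S cs, crs x e.1 e.2.1 = crs x e.2.2.1 e.2.2.2)
    (hz : d3 (fun i => x (.e0, i)) (fun i => x (.e1, i)) z = 1) :
    ∀ e ∈ eqE o S cs, omg (pl x z) e.1 e.2.1 = omg (pl x z) e.2.2.1 e.2.2.2 := by
  intro e he
  rw [omg_pl x z hz, omg_pl x z hz]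
  have h1 : cr (fun i => x (e.1, i)) (fun i => x (e.2.1, i)) =
    cr (fun i => x (e.2.2.1, i)) (fun i => x (e.2.2.2, i)) := hx e he
  unfold d3
  rw [h1]

lemma pl_one (hz : d3 (fun i => x (.e0, i)) (fun i => x (.e1, i)) z = 1) :
    omg (pl x z) .e0 .e1 * 1 = 1 := by
  rw [omg_pl x z hz, hz, one_mul]

lemma pl_tv (hz : d3 (fun i => x (.e0, i)) (fun i => x (.e1, i)) z = 1) :
    (fun v => omg (pl x z) (.x v) .e1 * 1) = tv x z := by
  funext v
  rw [omg_pl x z hz, mul_one]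
  rfl

lemma xs_of_crs (hx : ∀ e ∈ eqE o S cs, crs x e.1 e.2.1 = crs x e.2.2.1 e.2.2.2)
    (hz : d3 (fun i => x (.e0, i)) (fun i => x (.e1, i)) z = 1) : Pt (xS o S cs) (tv x z) := by
  have h1 := xs_of_eq (pl_eqs hx hz) (pl_one hz)
  rwa [pl_tv hz] at h1

lemma expand3 (hx : ∀ e ∈ eqE o S cs, crs x e.1 e.2.1 = crs x e.2.2.1 e.2.2.2)
    (hz : d3 (fun i => x (.e0, i)) (fun i => x (.e1, i)) z = 1) (p : Gn Y K) (i : Fin 3) :
    gnv cs (tv x z) p 0 * x (.e0, i) + gnv cs (tv x z) p 1 * x (.e1, i) = x (p, i) := by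
  have h1 := gnv_eq (pl_eqs hx hz) (pl_one hz) p
  rw [pl_tv hz, omg_pl x z hz, omg_pl x z hz, mul_one, mul_one] at h1
  have h2 := cramer3 (fun i => x (.e0, i)) (fun i => x (.e1, i)) z (fun i => x (p, i)) i
  rw [hz, one_mul, d3_gn hx p, zero_mul, add_zero, h1.1, h1.2] at h2
  exact h2.symm

end

/-- the families of combinations of two vectors -/
def gnu3 (cs : K → Con Y) (t : Y → R) (a b : Fin 3 → R) : Gn Y K × Fin 3 → R := fun p =>
  gnv cs t p.1 0 * a p.2 + gnv cs t p.1 1 * b p.2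

lemma crs_gnu3 (cs : K → Con Y) (t : Y → R) (a b : Fin 3 → R) (p q : Gn Y K) (i : Fin 3) :
    crs (gnu3 cs t a b) p q i =
      (gnv cs t p 0 * gnv cs t q 1 - gnv cs t q 0 * gnv cs t p 1) * cr a b i := by
  unfold crs gnu3
  fin_cases i
  · simp only [Fin.zero_eta, cr_0]
    ring
  · simp only [Fin.mk_one, cr_1]
    ring
  · simp only [Fin.reduceFinMk, cr_2]
    ring

lemma crs_of_xs {t : Y → R} (ht : Pt (xS o S cs) t) (a b : Fin 3 → R) :
    ∀ e ∈ eqE o S cs, crs (gnu3 cs t a b) e.1 e.2.1 = crs (gnu3 cs t a b) e.2.2.1 e.2.2.2 := by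
  intro e he
  have h1 := eq_of_xs (o := o) (S := S) (cs := cs) (y := Sum.elim t (![1, 0, 0, 1] : Fin 4 → R))
    ht e he
  rw [omg_gnu, omg_gnu] at h1
  simp only [Sum.elim_inl, Sum.elim_inr, Matrix.cons_val_zero, Matrix.cons_val_one,
    Matrix.cons_val] at h1
  funext i
  rw [crs_gnu3, crs_gnu3]
  linear_combination cr a b i * h1

end

/-! ### Normalization -/

section
variable {Y K : Type}

/-- the normal form -/
def nf3 {A : Type} [CommRing A] (x : Option (Option ((Gn Y K × Fin 3) ⊕ Fin 3)) → A) :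
    GV 3 Y → A :=
  Sum.elim (tv (fun p => x (some (some (Sum.inl p)))) (fun a => x (some (some (Sum.inr a)))))
    (Sum.elim
      (fun p => frm (fun a => x (some (some (Sum.inl (.e0, a)))))
        (fun a => x (some (some (Sum.inl (.e1, a))))) (fun a => x (some (some (Sum.inr a))))
        (x (some none)) p.1 p.2)
      (fun p => frd (fun a => x (some (some (Sum.inl (.e0, a)))))
        (fun a => x (some (some (Sum.inl (.e1, a))))) (fun a => x (some (some (Sum.inr a))))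
        (x none) p.1 p.2))

section
variable {A : Type} [CommRing A] (x : Option (Option ((Gn Y K × Fin 3) ⊕ Fin 3)) → A)

/-- the family -/
abbrev sx (p : Gn Y K × Fin 3) : A := x (some (some (Sum.inl p)))

/-- the vector `z` -/
abbrev sz (a : Fin 3) : A := x (some (some (Sum.inr a)))

lemma nf3_t (v : Y) : nf3 x (Sum.inl v) = tv (sx x) (sz x) v := rfl

lemma nf3_p (i a : Fin 3) : nf3 x (Sum.inr (Sum.inl (i, a))) =
    frm (fun a => sx x (.e0, a)) (fun a => sx x (.e1, a)) (sz x) (x (some none)) i a := rfl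

lemma nf3_l (i a : Fin 3) : nf3 x (Sum.inr (Sum.inr (i, a))) =
    frd (fun a => sx x (.e0, a)) (fun a => sx x (.e1, a)) (sz x) (x none) i a := rfl

end

/-- the vectors of a normal form -/
abbrev vp {A : Type} (y : GV 3 Y → A) (i : Fin 3) : Fin 3 → A :=
  fun a => y (Sum.inr (Sum.inl (i, a)))

/-- the linear forms of a normal form -/
abbrev vl {A : Type} (y : GV 3 Y → A) (i : Fin 3) : Fin 3 → A :=
  fun a => y (Sum.inr (Sum.inr (i, a)))

lemma vp_nf3 {A : Type} [CommRing A] (x : Option (Option ((Gn Y K × Fin 3) ⊕ Fin 3)) → A)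
    (i : Fin 3) : vp (nf3 x) i =
      frm (fun a => sx x (.e0, a)) (fun a => sx x (.e1, a)) (sz x) (x (some none)) i := rfl

lemma vl_nf3 {A : Type} [CommRing A] (x : Option (Option ((Gn Y K × Fin 3) ⊕ Fin 3)) → A)
    (i : Fin 3) : vl (nf3 x) i =
      frd (fun a => sx x (.e0, a)) (fun a => sx x (.e1, a)) (sz x) (x none) i := rfl

/-- the family of a normal form -/
def fn3 {A : Type} [CommRing A] (cs : K → Con Y) (y : GV 3 Y → A) :
    Option (Option ((Gn Y K × Fin 3) ⊕ Fin 3)) → A := fun o =>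
  o.elim (d3 (vl y 0) (vl y 1) (vl y 2))
    (fun o => o.elim (d3 (vp y 0) (vp y 1) (vp y 2))
      (Sum.elim
        (gnu3 cs (fun v => y (Sum.inl v)) (vp y 0) (vp y 1))
        (fun a => d3 (vl y 0) (vl y 1) (vl y 2) * vp y 2 a)))

lemma nf3_map {A B : Type} [CommRing A] [CommRing B] (φ : A →+* B)
    (x : Option (Option ((Gn Y K × Fin 3) ⊕ Fin 3)) → A) (j : GV 3 Y) :
    φ (nf3 x j) = nf3 (fun i => φ (x i)) j := by
  rcases j with v | ⟨i, a⟩ | ⟨i, a⟩
  · simp only [nf3, Sum.elim_inl, tv, map_d3]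
  · simp only [nf3, Sum.elim_inr, Sum.elim_inl, map_frm]
  · simp only [nf3, Sum.elim_inr, map_frd]

lemma fn3_e0 {A : Type} [CommRing A] (cs : K → Con Y) (y : GV 3 Y → A) :
    (fun i => sx (fn3 cs y) (.e0, i)) = vp y 0 := by
  funext i
  simp [fn3, gnu3, gnv]

lemma fn3_e1 {A : Type} [CommRing A] (cs : K → Con Y) (y : GV 3 Y → A) :
    (fun i => sx (fn3 cs y) (.e1, i)) = vp y 1 := by
  funext i
  simp [fn3, gnu3, gnv]

lemma fn3_xv {A : Type} [CommRing A] (cs : K → Con Y) (y : GV 3 Y → A) (v : Y) :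
    (fun i => sx (fn3 cs y) (.x v, i)) = fun i => y (Sum.inl v) * vp y 0 i := by
  funext i
  simp [fn3, gnu3, gnv]

lemma fn3_map {A B : Type} [CommRing A] [CommRing B] (φ : A →+* B) (cs : K → Con Y)
    (y : GV 3 Y → A) (o : Option (Option ((Gn Y K × Fin 3) ⊕ Fin 3))) :
    φ (fn3 cs y o) = fn3 cs (fun i => φ (y i)) o := by
  rcases o with _ | _ | p | a
  · simp only [fn3, Option.elim, map_d3]
  · simp only [fn3, Option.elim, map_d3]
  · simp only [fn3, Option.elim, Sum.elim_inl, gnu3, map_add, map_mul, gnv_map]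
  · simp only [fn3, Option.elim, Sum.elim_inr, map_mul, map_d3]

lemma pt_src {A : Type} [CommRing A] {o : Y} {S : Set Y} {cs : K → Con Y}
    {x : Option (Option ((Gn Y K × Fin 3) ⊕ Fin 3)) → A} :
    Pt (dop (X none) (lft (oneS (crS (eqE o S cs)) (crp .e0 .e1)))) x ↔
      x none * x (some none) = 1 ∧
      d3 (fun i => x (some (some (Sum.inl (.e0, i))))) (fun i => x (some (some (Sum.inl (.e1, i)))))
        (fun i => x (some (some (Sum.inr i)))) = 1 ∧
      ∀ e ∈ eqE o S cs, crs (fun p => x (some (some (Sum.inl p)))) e.1 e.2.1 =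
        crs (fun p => x (some (some (Sum.inl p)))) e.2.2.1 e.2.2.2 := by
  rw [Pt.dop_iff, Pt.lft_iff, pt_one, pt_crs, ev_X]
  simp only [ev_crp]
  rfl

lemma dets_one {A : Type} [CommRing A] {y : GV 3 Y → A}
    (h : ∀ i j, ∑ a, vp y i a * vl y j a = if i = j then 1 else 0) :
    d3 (vl y 0) (vl y 1) (vl y 2) * d3 (vp y 0) (vp y 1) (vp y 2) = 1 := by
  rw [mul_comm, gram3, h 0 0, h 0 1, h 0 2, h 1 0, h 1 1, h 1 2, h 2 0, h 2 1, h 2 2]
  simp

variable [Finite Y] [Finite K] {Q : ∀ (R : Type) [CommRing R], ℤ → Prop} (hQ : RingCP Q)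

include hQ

/-- the systems are isomorphic -/
lemma qs_nf3 (o : Y) (S : Set Y) (cs : K → Con Y) (s : ℤ) :
    QS Q (dop (X none) (lft (oneS (crS (eqE o S cs)) (crp .e0 .e1)))) s ↔
      QS Q (glS 3 (xS o S cs)) s := by
  refine hQ.qs_iso (fun A _ x => nf3 x) (fun A _ y => fn3 cs y) ?_ ?_ ?_ ?_ ?_ ?_ s
  · intro A B _ _ φ x _ j
    exact nf3_map φ x j
  · intro A B _ _ φ y _ i
    exact fn3_map φ cs y i
  · intro A _ x hx
    rw [pt_src] at hx
    obtain ⟨h1, h2, h3⟩ := hx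
    rw [pt_gls]
    have h4 : Pt (xS o S cs) (tv (sx x) (sz x)) := xs_of_crs (x := sx x) (z := sz x) h3 h2
    refine ⟨h4, fun i j => ?_⟩
    simp only [nf3_p, nf3_l]
    exact frm_frd h1 h2 i j
  · intro A _ y hy
    rw [pt_gls] at hy
    obtain ⟨h1, h2⟩ := hy
    have h3 := dets_one h2
    rw [pt_src]
    refine ⟨h3, ?_, crs_of_xs h1 _ _⟩
    have h5 : d3 (fun i => sx (fn3 cs y) (.e0, i)) (fun i => sx (fn3 cs y) (.e1, i))
        (sz (fn3 cs y)) = 1 := by
      rw [fn3_e0, fn3_e1]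
      exact (d3_mul _ _ _ _).trans h3
    exact h5
  · intro A _ x hx
    rw [pt_src] at hx
    obtain ⟨h1, h2, h3⟩ := hx
    have g1 : d3 (vp (nf3 x) 0) (vp (nf3 x) 1) (vp (nf3 x) 2) = x (some none) := by
      rw [vp_nf3, vp_nf3, vp_nf3]
      exact d3_frm _ h2
    have g2 : d3 (vl (nf3 x) 0) (vl (nf3 x) 1) (vl (nf3 x) 2) = x none := by
      rw [vl_nf3, vl_nf3, vl_nf3]
      exact d3_frd _ h2
    funext i
    rcases i with _ | _ | p | a
    · exact g2
    · exact g1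
    · exact expand3 h3 h2 p.1 p.2
    · show d3 (vl (nf3 x) 0) (vl (nf3 x) 1) (vl (nf3 x) 2) *
        (x (some none) * x (some (some (Sum.inr a)))) = x (some (some (Sum.inr a)))
      rw [g2, ← mul_assoc, h1, one_mul]
  · intro A _ y hy
    rw [pt_gls] at hy
    obtain ⟨h1, h2⟩ := hy
    have h3 := dets_one h2
    have e0 := fn3_e0 cs y
    have e1 := fn3_e1 cs y
    have ez : sz (fn3 cs y) = fun a => d3 (vl y 0) (vl y 1) (vl y 2) * vp y 2 a := rfl
    have h5 : ∀ (l : Fin 3 → A) (i : Fin 3), l i = d3 (vl y 0) (vl y 1) (vl y 2) *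
        ((∑ j, vp y 0 j * l j) * cr (vp y 1) (vp y 2) i +
        (∑ j, vp y 1 j * l j) * cr (vp y 2) (vp y 0) i +
        (∑ j, vp y 2 j * l j) * cr (vp y 0) (vp y 1) i) := by
      intro l i
      rw [← cramer_dual, ← mul_assoc, h3, one_mul]
    funext j
    rcases j with v | ⟨i, a⟩ | ⟨i, a⟩
    · rw [nf3_t]
      unfold tv
      rw [fn3_xv, e1, ez, d3_mul, d3_mul_left]
      linear_combination y (Sum.inl v) * h3
    · rw [nf3_p, e0, e1, ez]
      fin_cases i
      · rfl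
      · rfl
      · show d3 (vp y 0) (vp y 1) (vp y 2) * (d3 (vl y 0) (vl y 1) (vl y 2) * vp y 2 a) = vp y 2 a
        rw [← mul_assoc, mul_comm (d3 (vp y 0) (vp y 1) (vp y 2)), h3, one_mul]
    · rw [nf3_l, e0, e1, ez]
      fin_cases i
      · show cr (vp y 1) (fun a => d3 (vl y 0) (vl y 1) (vl y 2) * vp y 2 a) a = vl y 0 a
        rw [h5 (vl y 0) a, h2 0 0, h2 1 0, h2 2 0, cr_mul_right]
        simp
      · show cr (fun a => d3 (vl y 0) (vl y 1) (vl y 2) * vp y 2 a) (vp y 0) a = vl y 1 a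
        rw [h5 (vl y 1) a, h2 0 1, h2 1 1, h2 2 1, cr_mul_left]
        simp
      · show d3 (vl y 0) (vl y 1) (vl y 2) * cr (vp y 0) (vp y 1) a = vl y 2 a
        rw [h5 (vl y 2) a, h2 0 2, h2 1 2, h2 2 2]
        simp

/-- the constraints from the families with a vector `z` -/
theorem good_xs_of_one (o : Y) (S : Set Y) (cs : K → Con Y)
    (h : Good Q (oneS (crS (eqE o S cs)) (crp .e0 .e1))) : Good Q (xS o S cs) := by
  refine good_gln hQ 3 Y _ fun s => (qs_nf3 hQ o S cs s).1 ?_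
  refine (hQ.good_free_opn (lft (oneS (crS (eqE o S cs)) (crp .e0 .e1))) none ?_).1
    ((hQ.good_line _).2 h) s
  intro A _ x y hxy hx
  rw [Pt.lft_iff] at hx ⊢
  have h1 : (fun i => y (some i)) = fun i => x (some i) :=
    funext fun i => hxy (some i) (by simp)
  rw [h1]
  exact hx

/-- **Constraints are good when two systems of equal cross products are.** -/
theorem good_xs_of_crs (o : Y) (S : Set Y) (cs : K → Con Y)
    (h1 : Good Q (crS (eqE o S cs)))
    (h2 : Good Q (crS (insert (.e0, .e1, .e0, .e0) (eqE o S cs)))) : Good Q (xS o S cs) := by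
  refine good_xs_of_one hQ o S cs ((good_van_iff hQ h1).1 ((hQ.good_congr fun A _ x => ?_).1 h2))
  rw [pt_van, pt_crs, pt_crs, Set.forall_mem_insert]
  have h0 : crs x Gn.e0 Gn.e0 = 0 := cr_self _
  simp only [h0, ev_crp, funext_iff, Pi.zero_apply]
  tauto

end

end Pool.Agent.TM.E3

namespace Pool.Agent.TM

lemma pt_ecs3_iff {V A : Type} [CommRing A] {E : Set (V × V × V × V)} {x : V × Fin 3 → A} :
    Pt (ecS3 E) x ↔ Pt (E3.crS E) x := by
  rw [pt_ecs3, E3.pt_crs]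
  refine forall_congr' fun e => forall_congr' fun _ => ?_
  have h0 : ∀ v w : V, E3.crs x v w 0 = cr x v w 1 := by
    intro v w
    show x (v, 1) * x (w, 2) - x (v, 2) * x (w, 1) = x (v, 1) * x (w, 1 + 1) - x (w, 1) * x (v, 1 + 1)
    rw [show (1 : Fin 3) + 1 = 2 from rfl]
    ring
  have h1 : ∀ v w : V, E3.crs x v w 1 = cr x v w 2 := by
    intro v w
    show x (v, 2) * x (w, 0) - x (v, 0) * x (w, 2) = x (v, 2) * x (w, 2 + 1) - x (w, 2) * x (v, 2 + 1)
    rw [show (2 : Fin 3) + 1 = 0 from rfl]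
    ring
  have h2 : ∀ v w : V, E3.crs x v w 2 = cr x v w 0 := by
    intro v w
    show x (v, 0) * x (w, 1) - x (v, 1) * x (w, 0) = x (v, 0) * x (w, 0 + 1) - x (w, 0) * x (v, 0 + 1)
    rw [show (0 : Fin 3) + 1 = 1 from rfl]
    ring
  rw [funext_iff, Fin.forall_fin_succ, Fin.forall_fin_two, Fin.forall_fin_succ, Fin.forall_fin_two]
  simp only [Fin.succ_zero_eq_one, Fin.succ_one_eq_two, h0, h1, h2]
  tauto

/-- **Constraints are good when two systems of equal cross products are.** -/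
theorem good_xs_of_eqc3 {Q : ∀ (R : Type) [CommRing R], ℤ → Prop} (hQ : RingCP Q) {Y K : Type}
    [Finite Y] [Finite K] (o : Y) (S : Set Y) (cs : K → Con Y)
    (h1 : Good Q (ecS3 (eqE o S cs)))
    (h2 : Good Q (ecS3 (insert (Gn.e0, Gn.e1, Gn.e0, Gn.e0) (eqE o S cs)))) :
    Good Q (xS o S cs) :=
  E3.good_xs_of_crs hQ o S cs ((hQ.good_congr fun _ _ _ => pt_ecs3_iff).1 h1)
    ((hQ.good_congr fun _ _ _ => pt_ecs3_iff).1 h2)

/-- constraints in classes which contain all systems of equal cross products -/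
lemma gs_xs_of_ecs3 {G : ∀ (R : Type) [CommRing R], Prop} (hS : Sem G)
    (h : ∀ (V : Type) [Finite V] (E : Set (V × V × V × V)), GS G (ecS3 E))
    {Y K : Type} [Finite Y] [Finite K] (o : Y) (S : Set Y) (cs : K → Con Y) :
    GS G (xS o S cs) := by
  have h1 := h (Gn Y K) (eqE o S cs)
  have h2 := h (Gn Y K) (insert (.e0, .e1, .e0, .e0) (eqE o S cs))
  exact hS _ _ _ _ _ _ (fun Q hQ g1 g2 => good_xs_of_eqc3 hQ o S cs g1 g2) h1 h2

/-- **Universality of equal cross products.** -/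
theorem hyp_of_ecs3 {G : ∀ (R : Type) [CommRing R], Prop} (hG : RG G) (hS : Sem G)
    (h : ∀ (V : Type) [Finite V] (E : Set (V × V × V × V)), GS G (ecS3 E))
    {σ : Type} [Finite σ] (f : MvPolynomial σ ℤ) : GS G {f} := by
  obtain ⟨Y, K, _, _, o, S, cs, hf⟩ := gs_circ hG f
  exact hf.1 (gs_xs_of_ecs3 hS h o S cs)

end Pool.Agent.TM
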