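import Pool.Agent.TM.Base

/-!
# Artin presentations with a given alternating form
-/

set_option autoImplicit false

namespace Pool.Agent.TM

open FreeGroup (of)

section
variable {n : ℕ}

/-! ### The monoid of Artin presentations -/

/-- the endomorphism `x_i ↦ r_i⁻¹ x_i r_i` -/
def phi (r : Fin n → FreeGroup (Fin n)) : FreeGroup (Fin n) →* FreeGroup (Fin n) :=
  FreeGroup.lift fun i => (r i)⁻¹ * of i * r i

lemma phi_of (r : Fin n → FreeGroup (Fin n)) (i : Fin n) :
    phi r (of i) = (r i)⁻¹ * of i * r i := by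
  unfold phi
  rw [FreeGroup.lift_apply_of]

lemma isArtin_iff (r : Fin n → FreeGroup (Fin n)) : IsArtin r ↔
    phi r (List.ofFn fun i => (of i : FreeGroup (Fin n))).prod =
      (List.ofFn fun i => (of i : FreeGroup (Fin n))).prod := by
  unfold IsArtin
  rw [map_list_prod, List.map_ofFn]
  have h : (fun i => (r i)⁻¹ * of i * r i) =
      (⇑(phi r) ∘ fun i => (of i : FreeGroup (Fin n))) := by
    funext i
    exact (phi_of r i).symm
  rw [h]

/-- the composition -/
def comp (r s : Fin n → FreeGroup (Fin n)) : Fin n → FreeGroup (Fin n) :=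
  fun i => r i * phi r (s i)

lemma phi_comp (r s : Fin n → FreeGroup (Fin n)) : phi (comp r s) = (phi r).comp (phi s) := by
  ext i
  rw [phi_of, MonoidHom.comp_apply, phi_of, map_mul, map_mul, map_inv, phi_of]
  unfold comp
  group

lemma isArtin_comp {r s : Fin n → FreeGroup (Fin n)} (hr : IsArtin r) (hs : IsArtin s) :
    IsArtin (comp r s) := by
  rw [isArtin_iff] at hr hs ⊢
  rw [phi_comp, MonoidHom.comp_apply, hs, hr]

lemma isArtin_one : IsArtin (fun _ : Fin n => (1 : FreeGroup (Fin n))) := by
  unfold IsArtin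
  simp

lemma prod_defect {G : Type} [Group G] : ∀ (n : ℕ) (x y : Fin n → G) (u : ℕ → G),
    (∀ l : Fin n, u l * y l = x l * u (l + 1)) →
    u 0 * (List.ofFn y).prod = (List.ofFn x).prod * u n := by
  intro n
  induction n with
  | zero =>
    intro x y u _
    simp
  | succ n ih =>
    intro x y u h
    rw [List.ofFn_succ, List.ofFn_succ, List.prod_cons, List.prod_cons, ← mul_assoc]
    have h0 := h 0
    rw [Fin.val_zero] at h0
    rw [h0]
    have h1 := ih (fun i => x i.succ) (fun i => y i.succ) (fun j => u (j + 1)) (fun l => by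
      have := h l.succ
      rw [Fin.val_succ] at this
      exact this)
    rw [mul_assoc, mul_assoc, h1]

/-- the pure braid in which the strand `k` goes around the strand `i` -/
def aR (i k : Fin n) : Fin n → FreeGroup (Fin n) := fun l =>
  if l = i then of i * (of k)⁻¹ * (of i)⁻¹ else if l = k then (of i)⁻¹ else
    if i < l ∧ l < k then of k * of i * (of k)⁻¹ * (of i)⁻¹ else 1

/-- the inverse -/
def bR (i k : Fin n) : Fin n → FreeGroup (Fin n) := fun l =>
  if l = i then of k else if l = k then (of k)⁻¹ * of i * of k else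
    if i < l ∧ l < k then (of i)⁻¹ * (of k)⁻¹ * of i * of k else 1

lemma isArtin_aR {i k : Fin n} (h : i < k) : IsArtin (aR i k) := by
  have hik : k ≠ i := (ne_of_lt h).symm
  have h1 := prod_defect n (fun l => (of l : FreeGroup (Fin n)))
    (fun l => (aR i k l)⁻¹ * of l * aR i k l)
    (fun j => if (i : ℕ) < j ∧ j ≤ k then of k * of i * (of k)⁻¹ * (of i)⁻¹ else 1) ?_
  · have h0 : ¬ ((i : ℕ) < 0 ∧ 0 ≤ (k : ℕ)) := by omega
    have h2 : ¬ ((i : ℕ) < n ∧ n ≤ (k : ℕ)) := by omega
    rw [if_neg h0, if_neg h2, one_mul, mul_one] at h1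
    exact h1
  · intro l
    unfold aR
    by_cases hl : l = i
    · subst hl
      have h3 : ¬ ((l : ℕ) < l ∧ (l : ℕ) ≤ k) := by omega
      have h4 : (l : ℕ) < l + 1 ∧ (l : ℕ) + 1 ≤ k := by omega
      rw [if_neg h3, if_pos h4, if_pos rfl]
      group
    · rw [if_neg hl]
      by_cases hk : l = k
      · subst hk
        have h3 : (i : ℕ) < l ∧ (l : ℕ) ≤ l := by omega
        have h4 : ¬ ((i : ℕ) < l + 1 ∧ (l : ℕ) + 1 ≤ l) := by omega
        rw [if_pos h3, if_neg h4, if_pos rfl]
        group
      · rw [if_neg hk]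
        by_cases hm : i < l ∧ l < k
        · have h3 : (i : ℕ) < l ∧ (l : ℕ) ≤ k := by omega
          have h4 : (i : ℕ) < l + 1 ∧ (l : ℕ) + 1 ≤ k := by omega
          rw [if_pos hm, if_pos h3, if_pos h4]
          group
        · have h3 : ¬ ((i : ℕ) < l ∧ (l : ℕ) ≤ k) := by omega
          have h4 : ¬ ((i : ℕ) < l + 1 ∧ (l : ℕ) + 1 ≤ k) := by omega
          rw [if_neg hm, if_neg h3, if_neg h4]
          group

lemma isArtin_bR {i k : Fin n} (h : i < k) : IsArtin (bR i k) := by
  have hik : k ≠ i := (ne_of_lt h).symm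
  have h1 := prod_defect n (fun l => (of l : FreeGroup (Fin n)))
    (fun l => (bR i k l)⁻¹ * of l * bR i k l)
    (fun j => if (i : ℕ) < j ∧ j ≤ k then (of i)⁻¹ * (of k)⁻¹ * of i * of k else 1) ?_
  · have h0 : ¬ ((i : ℕ) < 0 ∧ 0 ≤ (k : ℕ)) := by omega
    have h2 : ¬ ((i : ℕ) < n ∧ n ≤ (k : ℕ)) := by omega
    rw [if_neg h0, if_neg h2, one_mul, mul_one] at h1
    exact h1
  · intro l
    unfold bR
    by_cases hl : l = i
    · subst hl
      have h3 : ¬ ((l : ℕ) < l ∧ (l : ℕ) ≤ k) := by omega
      have h4 : (l : ℕ) < l + 1 ∧ (l : ℕ) + 1 ≤ k := by omega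
      rw [if_neg h3, if_pos h4, if_pos rfl]
      group
    · rw [if_neg hl]
      by_cases hk : l = k
      · subst hk
        have h3 : (i : ℕ) < l ∧ (l : ℕ) ≤ l := by omega
        have h4 : ¬ ((i : ℕ) < l + 1 ∧ (l : ℕ) + 1 ≤ l) := by omega
        rw [if_pos h3, if_neg h4, if_pos rfl]
        group
      · rw [if_neg hk]
        by_cases hm : i < l ∧ l < k
        · have h3 : (i : ℕ) < l ∧ (l : ℕ) ≤ k := by omega
          have h4 : (i : ℕ) < l + 1 ∧ (l : ℕ) + 1 ≤ k := by omega
          rw [if_pos hm, if_pos h3, if_pos h4]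
          group
        · have h3 : ¬ ((i : ℕ) < l ∧ (l : ℕ) ≤ k) := by omega
          have h4 : ¬ ((i : ℕ) < l + 1 ∧ (l : ℕ) + 1 ≤ k) := by omega
          rw [if_neg hm, if_neg h3, if_neg h4]
          group

/-! ### Unitriangular matrices -/

section
variable {R : Type} [CommRing R]

lemma uni_mul (a b c a' b' c' : R) :
    uni a b c * uni a' b' c' = uni (a + a') (b + b') (c + c' + a * b') := by
  ext i j
  fin_cases i <;> fin_cases j <;> simp [uni, Matrix.mul_apply, Fin.sum_univ_three] <;> ring

lemma uni_one : (uni 0 0 0 : (Matrix (Fin 3) (Fin 3) R)ˣ) = 1 := by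
  ext i j
  fin_cases i <;> fin_cases j <;> simp [uni]

lemma uni_inv (a b c : R) : (uni a b c)⁻¹ = uni (-a) (-b) (a * b - c) := by
  rw [inv_eq_iff_mul_eq_one, uni_mul, ← uni_one]
  congr 1 <;> ring

/-- the matrix of a generator -/
def gn (x : Fin n × Fin 3 → R) (i : Fin n) : (Matrix (Fin 3) (Fin 3) R)ˣ :=
  uni (x (i, 0)) (x (i, 1)) (x (i, 2))

lemma hom_of (x : Fin n × Fin 3 → R) (i : Fin n) : hom x (of i) = gn x i := by
  unfold hom gn
  rw [FreeGroup.lift_apply_of]

/-- the determinant of the coordinates beside the diagonal -/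
def om (x : Fin n × Fin 3 → R) (i j : Fin n) : R := x (i, 0) * x (j, 1) - x (j, 0) * x (i, 1)

/-- changing the corners of two matrices -/
def sh (x : Fin n × Fin 3 → R) (i k : Fin n) (t : R) : Fin n × Fin 3 → R := fun p =>
  x p + (if p = (i, 2) then -t else 0) + (if p = (k, 2) then t else 0)

lemma sh_zero (x : Fin n × Fin 3 → R) (i k l : Fin n) (t : R) : sh x i k t (l, 0) = x (l, 0) := by
  unfold sh
  simp

lemma sh_one (x : Fin n × Fin 3 → R) (i k l : Fin n) (t : R) : sh x i k t (l, 1) = x (l, 1) := by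
  unfold sh
  simp

lemma sh_two (x : Fin n × Fin 3 → R) (i k l : Fin n) (t : R) : sh x i k t (l, 2) =
    x (l, 2) + (if l = i then -t else 0) + (if l = k then t else 0) := by
  unfold sh
  simp

lemma om_sh (x : Fin n × Fin 3 → R) (i k a b : Fin n) (t : R) : om (sh x i k t) a b = om x a b := by
  unfold om
  rw [sh_zero, sh_zero, sh_one, sh_one]

/-- evaluation after an endomorphism -/
lemma hom_phi {x y : Fin n × Fin 3 → R} {r : Fin n → FreeGroup (Fin n)}
    (h : ∀ l, (hom x (r l))⁻¹ * gn x l * hom x (r l) = gn y l) (u : FreeGroup (Fin n)) :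
    hom x (phi r u) = hom y u := by
  have h1 : (hom x).comp (phi r) = hom y := by
    ext1 l
    rw [MonoidHom.comp_apply, phi_of, map_mul, map_mul, map_inv, hom_of, hom_of]
    exact h l
  exact DFunLike.congr_fun h1 u

lemma conj_uni (a b c α β γ : R) : (uni α β γ)⁻¹ * uni a b c * uni α β γ =
    uni a b (c + (a * β - α * b)) := by
  rw [uni_inv, uni_mul, uni_mul]
  congr 1 <;> ring

/-- the values of the first pure braid -/
lemma hom_aR (x : Fin n × Fin 3 → R) (i k l : Fin n) : hom x (aR i k l) =
    if l = i then uni (-x (k, 0)) (-x (k, 1)) (x (k, 0) * x (k, 1) - x (k, 2) - om x i k) else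
    if l = k then uni (-x (i, 0)) (-x (i, 1)) (x (i, 0) * x (i, 1) - x (i, 2)) else
    if i < l ∧ l < k then uni 0 0 (-om x i k) else uni 0 0 0 := by
  unfold aR
  split_ifs
  · simp only [map_mul, map_inv, hom_of, gn, uni_inv, uni_mul, om]
    congr 1 <;> ring
  · simp only [map_inv, hom_of, gn, uni_inv]
  · simp only [map_mul, map_inv, hom_of, gn, uni_inv, uni_mul, om]
    congr 1 <;> ring
  · rw [map_one, uni_one]

/-- the values of the second pure braid -/
lemma hom_bR (x : Fin n × Fin 3 → R) (i k l : Fin n) : hom x (bR i k l) =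
    if l = i then uni (x (k, 0)) (x (k, 1)) (x (k, 2)) else
    if l = k then uni (x (i, 0)) (x (i, 1)) (x (i, 2) + om x i k) else
    if i < l ∧ l < k then uni 0 0 (om x i k) else uni 0 0 0 := by
  unfold bR
  split_ifs
  · rw [hom_of]; rfl
  · simp only [map_mul, map_inv, hom_of, gn, uni_inv, uni_mul, om]
    congr 1 <;> ring
  · simp only [map_mul, map_inv, hom_of, gn, uni_inv, uni_mul, om]
    congr 1 <;> ring
  · rw [map_one, uni_one]

lemma hom_phi_aR (x : Fin n × Fin 3 → R) {i k : Fin n} (h : i < k) (u : FreeGroup (Fin n)) :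
    hom x (phi (aR i k) u) = hom (sh x i k (om x i k)) u := by
  have hik : k ≠ i := (ne_of_lt h).symm
  refine hom_phi (fun l => ?_) u
  rw [hom_aR]
  unfold gn
  rw [sh_zero, sh_one, sh_two]
  by_cases hl : l = i
  · subst hl
    rw [if_pos rfl, if_pos rfl, if_neg hik.symm, conj_uni]
    congr 1
    unfold om
    ring
  · rw [if_neg hl, if_neg hl]
    by_cases hk : l = k
    · subst hk
      rw [if_pos rfl, if_pos rfl, conj_uni]
      congr 1
      unfold om
      ring
    · rw [if_neg hk, if_neg hk]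
      split_ifs <;> rw [conj_uni] <;> congr 1 <;> ring

lemma hom_phi_bR (x : Fin n × Fin 3 → R) {i k : Fin n} (h : i < k) (u : FreeGroup (Fin n)) :
    hom x (phi (bR i k) u) = hom (sh x i k (-om x i k)) u := by
  have hik : k ≠ i := (ne_of_lt h).symm
  refine hom_phi (fun l => ?_) u
  rw [hom_bR]
  unfold gn
  rw [sh_zero, sh_one, sh_two]
  by_cases hl : l = i
  · subst hl
    rw [if_pos rfl, if_pos rfl, if_neg hik.symm, conj_uni]
    congr 1
    unfold om
    ring
  · rw [if_neg hl, if_neg hl]
    by_cases hk : l = k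
    · subst hk
      rw [if_pos rfl, if_pos rfl, conj_uni]
      congr 1
      unfold om
      ring
    · rw [if_neg hk, if_neg hk]
      split_ifs <;> rw [conj_uni] <;> congr 1 <;> ring

end

/-! ### Presentations with a given form -/

/-- there is an Artin presentation with the alternating form `μ` -/
def Real (μ : Fin n → Fin n → Fin n → ℤ) : Prop :=
  ∃ r : Fin n → FreeGroup (Fin n), IsArtin r ∧
    ∀ (R : Type) [CommRing R] (x : Fin n × Fin 3 → R) (l : Fin n),
      hom x (r l) = uni 0 0 (∑ p, ∑ q, (μ p q l : R) * (x (p, 0) * x (q, 1)))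

lemma real_zero : Real (n := n) (fun _ _ _ => 0) :=
  ⟨_, isArtin_one, fun R _ x l => by simp [uni_one]⟩

lemma Real.add {μ ν : Fin n → Fin n → Fin n → ℤ} (hμ : Real μ) (hν : Real ν) :
    Real (fun p q l => μ p q l + ν p q l) := by
  obtain ⟨r, hr, hr'⟩ := hμ
  obtain ⟨s, hs, hs'⟩ := hν
  refine ⟨comp r s, isArtin_comp hr hs, fun R _ x l => ?_⟩
  have h1 : ∀ u, hom x (phi r u) = hom x u := hom_phi fun l => by
    rw [hr']
    unfold gn
    rw [conj_uni]
    congr 1
    ring
  unfold comp
  rw [map_mul, h1, hr', hs', uni_mul]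
  congr 1
  · ring
  · ring
  · simp only [Int.cast_add, add_mul, Finset.sum_add_distrib]
    ring

lemma sum_el {R : Type} [CommRing R] (i j k l : Fin n) (a b : Fin n → R) :
    ∑ p, ∑ q, (el i j k p q l : R) * (a p * b q) =
      (if l = k then a i * b j - a j * b i else 0) + (if l = i then a j * b k - a k * b j else 0) +
      (if l = j then a k * b i - a i * b k else 0) := by
  unfold el
  simp only [Int.cast_sub, Int.cast_add, Int.cast_mul, Int.cast_ite, Int.cast_one, Int.cast_zero,
    sub_mul, add_mul, Finset.sum_sub_distrib, Finset.sum_add_distrib]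
  have h : ∀ (u v : Fin n) (c : R), ∑ p, ∑ q, (if p = u then (1 : R) else 0) *
      (if q = v then (1 : R) else 0) * c * (a p * b q) = c * (a u * b v) := by
    intro u v c
    rw [Finset.sum_eq_single u, Finset.sum_eq_single v]
    · simp
    · intro q _ hq
      simp [hq]
    · intro hv
      exact absurd (Finset.mem_univ v) hv
    · intro p _ hp
      simp [hp]
    · intro hu
      exact absurd (Finset.mem_univ u) hu
  simp only [h]
  split_ifs <;> ring

/-- the commutator of two pure braids -/
lemma real_el {i j k : Fin n} (hij : i ≠ j) (hi : i < k) (hj : j < k) : Real (el i j k) := by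
  have hki : k ≠ i := (ne_of_lt hi).symm
  have hkj : k ≠ j := (ne_of_lt hj).symm
  refine ⟨comp (comp (comp (aR i k) (aR j k)) (bR i k)) (bR j k),
    isArtin_comp (isArtin_comp (isArtin_comp (isArtin_aR hi) (isArtin_aR hj)) (isArtin_bR hi))
      (isArtin_bR hj), fun R _ x l => ?_⟩
  have h1 : hom x (comp (comp (comp (aR i k) (aR j k)) (bR i k)) (bR j k) l) =
      hom x (aR i k l) * hom (sh x i k (om x i k)) (aR j k l) *
      hom (sh (sh x i k (om x i k)) j k (om x j k)) (bR i k l) *
      hom (sh (sh (sh x i k (om x i k)) j k (om x j k)) i k (-om x i k)) (bR j k l) := by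
    have e1 : comp (comp (comp (aR i k) (aR j k)) (bR i k)) (bR j k) l =
        aR i k l * phi (aR i k) (aR j k l) * phi (aR i k) (phi (aR j k) (bR i k l)) *
        phi (aR i k) (phi (aR j k) (phi (bR i k) (bR j k l))) := by
      show (comp (comp (aR i k) (aR j k)) (bR i k)) l *
        phi (comp (comp (aR i k) (aR j k)) (bR i k)) (bR j k l) = _
      rw [phi_comp, phi_comp]
      show (comp (aR i k) (aR j k)) l * phi (comp (aR i k) (aR j k)) (bR i k l) * _ = _
      rw [phi_comp]
      rfl
    rw [e1, map_mul, map_mul, map_mul, hom_phi_aR x hi, hom_phi_aR x hi, hom_phi_aR x hi,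
      hom_phi_aR _ hj, hom_phi_aR _ hj, hom_phi_bR _ hi, om_sh, om_sh, om_sh]
  rw [h1, sum_el, hom_aR, hom_aR, hom_bR, hom_bR]
  simp only [om_sh, sh_zero, sh_one, sh_two]
  by_cases hl : l = i
  · subst hl
    have e1 : ¬ l = k := hki.symm
    simp only [if_true, if_neg hij, if_neg e1, if_neg hki, if_neg hkj]
    split_ifs <;> simp only [uni_mul] <;> congr 1 <;> (try unfold om) <;> ring
  · by_cases hl' : l = j
    · subst hl'
      have e1 : ¬ l = k := hkj.symm
      simp only [if_true, if_neg hl, if_neg hij, if_neg e1, if_neg hki, if_neg hkj]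
      split_ifs <;> simp only [uni_mul] <;> congr 1 <;> (try unfold om) <;> ring
    · by_cases hk : l = k
      · subst hk
        simp only [if_true, if_neg hl, if_neg hl', if_neg hij, if_neg hij.symm, if_neg hki.symm,
          if_neg hkj.symm, uni_mul]
        congr 1 <;> (try unfold om) <;> ring
      · simp only [if_neg hl, if_neg hl', if_neg hk]
        split_ifs <;> simp only [uni_mul] <;> congr 1 <;> (try unfold om) <;> ring

lemma real_el' {i j k : Fin n} (hi : i < k) (hj : j < k) : Real (el i j k) := by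
  by_cases h : i = j
  · subst h
    have : el i i k = fun _ _ _ => 0 := by
      funext p q l
      exact el_self i k p q l
    rw [this]
    exact real_zero
  · exact real_el h hi hj

lemma real_sum {S : Type} (T : Finset S) (μ : S → Fin n → Fin n → Fin n → ℤ)
    (h : ∀ s, Real (μ s)) : Real (fun p q l => ∑ s ∈ T, μ s p q l) := by
  classical
  induction T using Finset.induction_on with
  | empty =>
    simp only [Finset.sum_empty]
    exact real_zero
  | insert s T hs ih =>
    simp only [Finset.sum_insert hs]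
    exact (h s).add ih

end

/-- **Artin presentations with given alternating forms.** -/
theorem exists_artin {v k : ℕ} (e : Fin k → Fin v × Fin v × Fin v × Fin v) :
    ∃ r : Fin (v + k) → FreeGroup (Fin (v + k)), IsArtin r ∧
      ∀ (R : Type) [CommRing R] (x : Fin (v + k) × Fin 3 → R) (l : Fin (v + k)),
        hom x (r l) = uni 0 0 (∑ p, ∑ q, (muE e p q l : R) * (x (p, 0) * x (q, 1))) := by
  refine real_sum Finset.univ (fun s p q l =>
    el (Fin.castAdd k (e s).1) (Fin.castAdd k (e s).2.1) (Fin.natAdd v s) p q l -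
      el (Fin.castAdd k (e s).2.2.1) (Fin.castAdd k (e s).2.2.2) (Fin.natAdd v s) p q l)
    fun s => ?_
  have hlt : ∀ i : Fin v, Fin.castAdd k i < Fin.natAdd v s := fun i => by
    rw [Fin.lt_def, Fin.val_castAdd, Fin.val_natAdd]
    omega
  have h1 := (real_el' (hlt (e s).1) (hlt (e s).2.1)).add
    (real_el' (hlt (e s).2.2.2) (hlt (e s).2.2.1))
  have h2 : (fun p q l => el (Fin.castAdd k (e s).1) (Fin.castAdd k (e s).2.1)
      (Fin.natAdd v s) p q l + el (Fin.castAdd k (e s).2.2.2) (Fin.castAdd k (e s).2.2.1)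
      (Fin.natAdd v s) p q l) = fun p q l =>
      el (Fin.castAdd k (e s).1) (Fin.castAdd k (e s).2.1) (Fin.natAdd v s) p q l -
      el (Fin.castAdd k (e s).2.2.1) (Fin.castAdd k (e s).2.2.2) (Fin.natAdd v s) p q l := by
    funext p q l
    rw [el_swap (Fin.castAdd k (e s).2.2.2)]
    ring
  rw [h2] at h1
  exact h1

end Pool.Agent.TM
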