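import Pool.Agent.TM.Hom
import Pool.Agent.TM.Artin

/-!
# Homomorphisms from the group of a mapping torus to the unitriangular group
-/

set_option autoImplicit false

open MvPolynomial
open Pool.Agent.Helper81.CP Pool.Agent.Helper81.HG Pool.Agent.Helper45.RM

namespace Pool.Agent.TM

open FreeGroup (of)

section
variable {R : Type} [CommRing R]

lemma hom_of' {I : Type} (x : I × Fin 3 → R) (i : I) :
    hom x (of i) = uni (x (i, 0)) (x (i, 1)) (x (i, 2)) := by
  unfold hom
  rw [FreeGroup.lift_apply_of]

/-- substitution of generators -/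
lemma hom_map' {I I' : Type} (x : I' × Fin 3 → R) (f : I → I') (w : FreeGroup I) :
    hom x (FreeGroup.map f w) = hom (fun p => x (f p.1, p.2)) w := by
  have h : (hom x).comp (FreeGroup.map f) = hom (fun p => x (f p.1, p.2)) := by
    ext1 i
    rw [MonoidHom.comp_apply, FreeGroup.map.of, hom_of', hom_of']
  rw [← h]
  rfl

/-- commutators -/
lemma uni_comm (a b c a' b' c' : R) :
    uni a b c * uni a' b' c' * (uni a b c)⁻¹ * (uni a' b' c')⁻¹ = uni 0 0 (a * b' - a' * b) := by
  rw [uni_inv, uni_inv, uni_mul, uni_mul, uni_mul]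
  congr 1 <;> ring

/-- products of central matrices -/
lemma prod_uni : ∀ (n : ℕ) (c : Fin n → R),
    (List.ofFn fun i => (uni 0 0 (c i) : (Matrix (Fin 3) (Fin 3) R)ˣ)).prod = uni 0 0 (∑ i, c i)
  | 0, c => by
    rw [List.ofFn_zero, List.prod_nil, Finset.univ_eq_empty, Finset.sum_empty, uni_one]
  | n + 1, c => by
    rw [List.ofFn_succ, List.prod_cons, prod_uni n, Fin.sum_univ_succ, uni_mul]
    congr 1 <;> ring

/-- the determinant of the coordinates beside the diagonal -/
def om' {I : Type} {k : ℕ} (x : I × Fin (k + 2) → R) (i j : I) : R :=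
  x (i, 0) * x (j, 1) - x (j, 0) * x (i, 1)

/-- the word of the surface -/
lemma hom_surf {n : ℕ} (x : (Fin n × Bool) × Fin 3 → R) :
    hom x (surf n) = uni 0 0 (∑ i, om' x (i, false) (i, true)) := by
  unfold surf
  rw [map_list_prod, List.map_ofFn, ← prod_uni]
  congr 2
  funext i
  show hom x (of (i, false) * of (i, true) * (of (i, false))⁻¹ * (of (i, true))⁻¹) = _
  rw [map_mul, map_mul, map_mul, map_inv, map_inv, hom_of', hom_of', uni_comm]
  rfl

lemma uni_eq_uni {c c' : R} : (uni 0 0 c : (Matrix (Fin 3) (Fin 3) R)ˣ) = uni 0 0 c' ↔ c = c' := by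
  constructor
  · intro h
    have h1 : (uni 0 0 c).val 0 2 = (uni 0 0 c').val 0 2 := by rw [h]
    simpa [uni] using h1
  · rintro rfl
    rfl

/-- The homomorphisms to the unitriangular group. -/
theorem pt_torus {n : ℕ} {r : Fin n → FreeGroup (Fin n)} {μ : Fin n → Fin n → Fin n → ℤ}
    (hr : ∀ (R : Type) [CommRing R] (x : Fin n × Fin 3 → R) (l : Fin n),
      hom x (r l) = uni 0 0 (∑ p, ∑ q, (μ p q l : R) * (x (p, 0) * x (q, 1))))
    {φ : FreeGroup (Fin n × Bool) ≃* FreeGroup (Fin n × Bool)}
    (h1 : ∀ i, φ (of (i, false)) = (FreeGroup.map (fun j => (j, false)) (r i))⁻¹ *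
      of (i, false) * FreeGroup.map (fun j => (j, false)) (r i))
    (h2 : ∀ i, ∃ d, (∀ (G : Type) [Group G] (h : FreeGroup (Fin n × Bool) →* G),
      (∀ j, h ((FreeGroup.map (fun j => (j, false)) (r j))⁻¹ *
      of (j, false) * FreeGroup.map (fun j => (j, false)) (r j)) = h (of (j, false))) → h d = 1) ∧
      φ (of (i, true)) = d * of (i, true) * FreeGroup.map (fun j => (j, false)) (r i))
    (x : Option (Fin n × Bool) × Fin 3 → R) :
    Pt (homS (torus φ)) x ↔ ∑ i, om' x (some (i, false)) (some (i, true)) = 0 ∧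
      (∀ i, om' x none (some (i, false)) = 0) ∧ ∀ i, om' x none (some (i, true)) =
        ∑ p, ∑ q, (μ p q i : R) * (x (some (p, false), 0) * x (some (q, false), 1)) := by
  -- the values of the words `r_i`
  have hR : ∀ i, hom x (FreeGroup.map some (FreeGroup.map (fun j => (j, false)) (r i))) =
      uni 0 0 (∑ p, ∑ q, (μ p q i : R) *
        (x (some (p, false), 0) * x (some (q, false), 1))) := by
    intro i
    rw [hom_map', hom_map', hr]
  have hc : ∀ (a b c d : R), (uni 0 0 d)⁻¹ * uni a b c * uni 0 0 d = uni a b c := by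
    intro a b c d
    rw [conj_uni]
    congr 1
    ring
  have hc' : ∀ (j : Fin n), ((hom x).comp (FreeGroup.map some))
      ((FreeGroup.map (fun j => (j, false)) (r j))⁻¹ *
      of (j, false) * FreeGroup.map (fun j => (j, false)) (r j)) =
      ((hom x).comp (FreeGroup.map some)) (of (j, false)) := by
    intro j
    rw [map_mul, map_mul, map_inv]
    simp only [MonoidHom.comp_apply]
    rw [hR, FreeGroup.map.of, hom_of', hc]
  rw [pt_homs]
  have e0 : hom x (torus φ none) = uni 0 0 (∑ i, om' x (some (i, false)) (some (i, true))) := by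
    show hom x (FreeGroup.map some (surf n)) = _
    rw [hom_map', hom_surf]
    rfl
  have e1 : ∀ i, hom x (torus φ (some (i, false))) = uni 0 0 (om' x none (some (i, false))) := by
    intro i
    show hom x (of none * of (some (i, false)) * (of none)⁻¹ *
      (FreeGroup.map some (φ (of (i, false))))⁻¹) = _
    have h3 : hom x (FreeGroup.map some (φ (of (i, false)))) = hom x (of (some (i, false))) := by
      rw [h1 i]
      exact hc' i
    rw [map_mul, map_mul, map_mul, map_inv, map_inv, h3, hom_of', hom_of', uni_comm]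
    rfl
  have e2 : ∀ i, hom x (torus φ (some (i, true))) = uni 0 0 (om' x none (some (i, true)) -
      ∑ p, ∑ q, (μ p q i : R) * (x (some (p, false), 0) * x (some (q, false), 1))) := by
    intro i
    show hom x (of none * of (some (i, true)) * (of none)⁻¹ *
      (FreeGroup.map some (φ (of (i, true))))⁻¹) = _
    obtain ⟨d, hd, h3⟩ := h2 i
    have h4 : hom x (FreeGroup.map some d) = 1 := hd _ ((hom x).comp (FreeGroup.map some)) hc'
    rw [h3, map_mul, map_mul, map_mul, map_inv, map_inv, map_mul, map_mul, map_mul, map_mul, h4,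
      hR, FreeGroup.map.of, hom_of', hom_of', one_mul, mul_inv_rev, uni_inv, uni_inv, uni_inv,
      uni_mul, uni_mul, uni_mul, uni_mul]
    congr 1
    · ring
    · ring
    · unfold om'
      ring
  constructor
  · intro h
    refine ⟨?_, fun i => ?_, fun i => ?_⟩
    · exact (uni_eq_one.1 (e0.symm.trans (h none))).2.2
    · exact (uni_eq_one.1 ((e1 i).symm.trans (h (some (i, false))))).2.2
    · exact sub_eq_zero.1 (uni_eq_one.1 ((e2 i).symm.trans (h (some (i, true))))).2.2
  · rintro ⟨h3, h4, h5⟩ (_ | ⟨i, _ | _⟩)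
    · rw [e0, h3, uni_one]
    · rw [e1, h4, uni_one]
    · rw [e2, h5, sub_self, uni_one]

end

end Pool.Agent.TM
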