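import Pool.Agent.TM.GrD

/-!
# Idempotent matrices of rank three and size three
-/

set_option autoImplicit false

open MvPolynomial
open Pool.Agent.Helper81.CP Pool.Agent.Helper45.RM

namespace Pool.Agent.TM

variable {Q : ∀ (R : Type) [CommRing R], ℤ → Prop}

lemma R3.eq_one {A : Type} [CommRing A] {e : Matrix (Fin 3) (Fin 3) A} (h : R3 e) : e = 1 := by
  rcases subsingleton_or_nontrivial A with hA | hA
  · exact Subsingleton.elim _ _
  have h1 : e.charpolyRev.coeff 3 = -1 := by
    rw [h.2]
    have h2 : ((1 : Polynomial A) - Polynomial.X) ^ 3 =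
        1 - 3 * Polynomial.X + 3 * Polynomial.X ^ 2 - Polynomial.X ^ 3 := by ring
    rw [h2]
    simp [Polynomial.coeff_X, Polynomial.coeff_one, Polynomial.coeff_X_pow,
      Polynomial.coeff_ofNat_mul]
  have h3 : e.charpoly.coeff 0 = -1 := by
    rw [← h1, ← Matrix.reverse_charpoly, Polynomial.coeff_reverse,
      Matrix.charpoly_natDegree_eq_dim, Fintype.card_fin]
    rfl
  have h4 : e.det = 1 := by
    rw [Matrix.det_eq_sign_charpoly_coeff, h3, Fintype.card_fin]
    ring
  have h5 : IsUnit e := by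
    rw [Matrix.isUnit_iff_isUnit_det, h4]
    exact isUnit_one
  exact h5.mul_left_cancel (h.1.trans (mul_one e).symm)

lemma R3.one {A : Type} [CommRing A] : R3 (1 : Matrix (Fin 3) (Fin 3) A) := by
  refine ⟨mul_one 1, ?_⟩
  unfold Matrix.charpolyRev
  rw [Matrix.map_one _ (map_zero _) (map_one _)]
  have h : (1 : Matrix (Fin 3) (Fin 3) (Polynomial A)) - (Polynomial.X : Polynomial A) • 1 =
      (1 - Polynomial.X : Polynomial A) • 1 := by
    rw [sub_smul, one_smul]
  rw [h, Matrix.det_smul, Matrix.det_one, mul_one, Fintype.card_fin]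

/-- the Grassmannian of planes in three-space is the point -/
theorem good_pt_of_gr3 (hQ : RingCP Q) (h : Good Q (grI (fun _ _ _ : Fin 3 => 0))) :
    Good Q (∅ : Set (MvPolynomial Empty ℤ)) := by
  refine fun s => (hQ.qs_iso (fun A _ x t => t.elim)
    (fun A _ y q => (1 : Matrix (Fin 3) (Fin 3) A) q.1 q.2) ?_ ?_ ?_ ?_ ?_ ?_ s).1 (h s)
  · intro A B _ _ φ x _ j
    exact j.elim
  · intro A B _ _ φ y _ i
    simp only [Matrix.one_apply]
    split_ifs <;> simp
  · intro A _ x _ p hp
    exact absurd hp (Set.notMem_empty p)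
  · intro A _ y _
    rw [pt_gr]
    refine ⟨R3.one, fun a b c => ?_⟩
    unfold tri
    simp
  · intro A _ x hx
    rw [pt_gr] at hx
    have h1 := hx.1.eq_one
    funext q
    show (1 : Matrix (Fin 3) (Fin 3) A) q.1 q.2 = x q
    rw [← h1]
    rfl
  · intro A _ y _
    funext j
    exact j.elim

end Pool.Agent.TM
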