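import Pool.Agent.TM.GrT

/-!
# Idempotent matrices of rank three

Over a local ring the image of an idempotent matrix `e` is free, so `e = x ξ` with `ξ x = 1`, and
`det (1 - T e) = (1 - T)³` says that there are three columns in `x`.
-/

set_option autoImplicit false

namespace Pool.Agent.TM

section
variable {I A B : Type} [Fintype I] [DecidableEq I] [CommRing A] [CommRing B]

lemma eq_of_local (r s : A)
    (h : ∀ (P : Ideal A) [P.IsMaximal], algebraMap A (Localization.AtPrime P) r =
      algebraMap A (Localization.AtPrime P) s) : r = s :=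
  Module.eq_of_localization_maximal (fun P _ => Localization.AtPrime P)
    (fun P _ => Algebra.linearMap A (Localization.AtPrime P)) r s fun P _ => h P

lemma R3.map {e : Matrix I I A} (h : R3 e) (φ : A →+* B) : R3 (e.map φ) := by
  refine ⟨?_, ?_⟩
  · rw [← Matrix.map_mul, h.1]
  · rw [← map_charpolyRev, h.2]
    simp

/-- an idempotent matrix over a local ring has a frame -/
lemma exists_frame [IsLocalRing A] {e : Matrix I I A} (h : e * e = e) :
    ∃ (k : ℕ) (x : Matrix I (Fin k) A) (ξ : Matrix (Fin k) I A), e = x * ξ ∧ ξ * x = 1 := by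
  classical
  set g : (I → A) →ₗ[A] (I → A) := Matrix.toLin' e with hg
  have hgg : ∀ v, g (g v) = g v := by
    intro v
    rw [hg, Matrix.toLin'_apply, Matrix.toLin'_apply, Matrix.mulVec_mulVec, h]
  let N := LinearMap.range g
  let p : (I → A) →ₗ[A] N := g.rangeRestrict
  have hp : ∀ v : N, p v = v := by
    rintro ⟨v, w, rfl⟩
    exact Subtype.ext (hgg w)
  have : Module.Projective A N :=
    Module.Projective.of_split N.subtype p (LinearMap.ext hp)
  have : Module.Finite A N := Module.Finite.of_surjective p g.surjective_rangeRestrict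
  have : Module.Free A N := Module.free_of_flat_of_isLocalRing
  let b := Module.finBasis A N
  refine ⟨Module.finrank A N, Matrix.of fun i q => (b q : I → A) i,
    Matrix.of fun q j => b.repr (p (Pi.single j 1)) q, ?_, ?_⟩
  · ext i j
    rw [Matrix.mul_apply]
    simp only [Matrix.of_apply]
    have h1 : (p (Pi.single j 1) : I → A) i = e i j := by
      show g (Pi.single j 1) i = e i j
      rw [hg, Matrix.toLin'_apply, Matrix.mulVec_single_one]
      rfl
    rw [← h1]
    conv_lhs => rw [← b.sum_repr (p (Pi.single j 1))]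
    simp only [Submodule.coe_sum, Submodule.coe_smul, Finset.sum_apply, Pi.smul_apply, smul_eq_mul]
    exact Finset.sum_congr rfl fun q _ => mul_comm _ _
  · ext q r
    rw [Matrix.mul_apply]
    simp only [Matrix.of_apply]
    have h1 : ∑ j, b.repr (p (Pi.single j 1)) q * (b r : I → A) j =
        b.repr (p (∑ j, (b r : I → A) j • Pi.single j 1)) q := by
      simp only [map_sum, map_smul, Finsupp.coe_finsetSum, Finset.sum_apply, Finsupp.coe_smul,
        Pi.smul_apply, smul_eq_mul]
      exact Finset.sum_congr rfl fun j _ => mul_comm _ _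
    have h2 : ∑ j, (b r : I → A) j • (Pi.single j 1 : I → A) = (b r : I → A) := by
      ext i
      simp [Finset.sum_apply, Pi.single_apply]
    rw [h1, h2, hp, Module.Basis.repr_self, Matrix.one_apply, Finsupp.single_apply]
    simp only [eq_comm]

lemma charpolyRev_frame {k : ℕ} (x : Matrix I (Fin k) A) (ξ : Matrix (Fin k) I A)
    (h : ξ * x = 1) : (x * ξ).charpolyRev = (1 - Polynomial.X) ^ k := by
  unfold Matrix.charpolyRev
  have h1 : (Polynomial.X : Polynomial A) • (x * ξ).map Polynomial.C =
      ((Polynomial.X : Polynomial A) • x.map Polynomial.C) * ξ.map Polynomial.C := by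
    rw [Matrix.map_mul, Matrix.smul_mul]
  rw [h1, Matrix.det_one_sub_mul_comm, Matrix.mul_smul, ← Matrix.map_mul, h,
    Matrix.map_one _ (map_zero _) (map_one _)]
  have h2 : (1 : Matrix (Fin k) (Fin k) (Polynomial A)) - (Polynomial.X : Polynomial A) • 1 =
      (1 - Polynomial.X : Polynomial A) • 1 := by
    rw [sub_smul, one_smul]
  rw [h2, Matrix.det_smul, Matrix.det_one, mul_one, Fintype.card_fin]

lemma natDegree_one_sub [Nontrivial A] (k : ℕ) :
    ((1 - Polynomial.X : Polynomial A) ^ k).natDegree = k := by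
  have h1 : (1 - Polynomial.X : Polynomial A) ^ k = (-1) ^ k * (Polynomial.X - 1) ^ k := by
    rw [← mul_pow]
    congr 1
    ring
  have h2 : ((Polynomial.X - 1 : Polynomial A) ^ k).natDegree = k := by
    have := Polynomial.natDegree_pow_X_add_C (R := A) k (-1)
    rwa [map_neg, map_one, ← sub_eq_add_neg] at this
  rw [h1]
  rcases neg_one_pow_eq_or (Polynomial A) k with h3 | h3
  · rw [h3, one_mul, h2]
  · rw [h3, neg_one_mul, Polynomial.natDegree_neg, h2]

/-- an idempotent matrix of rank three over a local ring has a frame of three vectors -/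
lemma R3.frame [IsLocalRing A] {e : Matrix I I A} (h : R3 e) :
    ∃ (x : Matrix I (Fin 3) A) (ξ : Matrix (Fin 3) I A), e = x * ξ ∧ ξ * x = 1 := by
  obtain ⟨k, x, ξ, rfl, h1⟩ := exists_frame h.1
  have h2 := h.2
  rw [charpolyRev_frame x ξ h1] at h2
  have h3 : k = 3 := by
    rw [← natDegree_one_sub (A := A) k, h2, natDegree_one_sub]
  subst h3
  exact ⟨x, ξ, rfl, h1⟩

theorem R3.right {e : Matrix I I A} (h : R3 e) (P : Matrix (Fin 3) I A) (r : Matrix I (Fin 3) A)
    (hr : P * e * r = 1) : e * r * (P * e) = e := by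
  ext i j
  refine eq_of_local _ _ fun M _ => ?_
  set φ := algebraMap A (Localization.AtPrime M)
  obtain ⟨x, ξ, h1, h2⟩ := (h.map φ).frame
  have h3 : (e * r * (P * e)).map φ = e.map φ := by
    have h4 : P.map φ * (x * ξ) * r.map φ = 1 := by
      rw [← h1, ← Matrix.map_mul, ← Matrix.map_mul, hr, Matrix.map_one _ (map_zero _) (map_one _)]
    have h5 : (P.map φ * x) * (ξ * r.map φ) = 1 := by
      rw [← h4]
      simp only [Matrix.mul_assoc]
    have h6 := mul_eq_one_comm.1 h5
    rw [Matrix.map_mul, Matrix.map_mul, Matrix.map_mul, h1]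
    calc x * ξ * r.map φ * (P.map φ * (x * ξ)) = x * ((ξ * r.map φ) * (P.map φ * x)) * ξ := by
          simp only [Matrix.mul_assoc]
      _ = x * ξ := by rw [h6, Matrix.mul_one]
  exact congrFun (congrFun h3 i) j

theorem R3.cross {e : Matrix I I A} (h : R3 e) {μ ν : I → I → I → ℤ} (hμ : Alt3 μ) (hν : Alt3 ν)
    (a b c a' b' c' : I) :
    tri μ (fun i => e i a) (fun i => e i b) (fun i => e i c) *
      tri ν (fun i => e i a') (fun i => e i b') (fun i => e i c') =
    tri μ (fun i => e i a') (fun i => e i b') (fun i => e i c') *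
      tri ν (fun i => e i a) (fun i => e i b) (fun i => e i c) := by
  refine eq_of_local _ _ fun M _ => ?_
  set φ := algebraMap A (Localization.AtPrime M)
  obtain ⟨x, ξ, h1, -⟩ := (h.map φ).frame
  have h2 : ∀ i j, φ (e i j) = (x * ξ) i j := fun i j => by
    rw [← h1]
    rfl
  simp only [map_mul, map_tri, h2]
  rw [tri_mul hμ, tri_mul hμ, tri_mul hν, tri_mul hν]
  ring

end

end Pool.Agent.TM
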