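import Pool.Agent.TM.GrT
import Pool.Agent.TM.Idem

/-!
# The open cell of the Grassmannian, with a unimodular row of coordinates
-/

set_option autoImplicit false

open MvPolynomial
open Pool.Agent.Helper81.CP Pool.Agent.Helper45.RM

namespace Pool.Agent.TM

variable {Q : ∀ (R : Type) [CommRing R], ℤ → Prop}

/-! ### A right inverse from the minors -/

section
variable {I A B : Type} [Fintype I] [DecidableEq I] [CommRing A] [CommRing B]

/-- the three columns -/
def sel (q : I × I × I) : Fin 3 → I := ![q.1, q.2.1, q.2.2]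

/-- the submatrix of three columns -/
def sb (r : Matrix (Fin 3) I A) (q : I × I × I) : Matrix (Fin 3) (Fin 3) A :=
  Matrix.of fun p t => r p (sel q t)

/-- the right inverse given by the coefficients `z` -/
def rr (r : Matrix (Fin 3) I A) (z : I × I × I → A) : Matrix I (Fin 3) A :=
  Matrix.of fun i p => ∑ q, z q * ∑ t, (if i = sel q t then 1 else 0) * (sb r q).adjugate t p

lemma mul_rr (r : Matrix (Fin 3) I A) (z : I × I × I → A)
    (h : ∑ q, z q * d3 r q.1 q.2.1 q.2.2 = 1) : r * rr r z = 1 := by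
  ext p p'
  rw [Matrix.mul_apply]
  have h1 : ∀ q : I × I × I, ∑ i, r p i * (z q * ∑ t, (if i = sel q t then 1 else 0) *
      (sb r q).adjugate t p') = z q * (d3 r q.1 q.2.1 q.2.2 * (1 : Matrix (Fin 3) (Fin 3) A) p p') := by
    intro q
    have h2 := congrFun (congrFun (Matrix.mul_adjugate (sb r q)) p) p'
    rw [Matrix.mul_apply, Matrix.smul_apply, smul_eq_mul] at h2
    have h3 : (sb r q).det = d3 r q.1 q.2.1 q.2.2 := (d3_eq_det r q.1 q.2.1 q.2.2).symm
    rw [← h3, ← h2, Finset.mul_sum]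
    have h4 : ∀ i, r p i * (z q * ∑ t, (if i = sel q t then 1 else 0) *
        (sb r q).adjugate t p') = ∑ t, (if i = sel q t then z q * (r p i *
        (sb r q).adjugate t p') else 0) := by
      intro i
      rw [Finset.mul_sum, Finset.mul_sum]
      refine Finset.sum_congr rfl fun t _ => ?_
      split_ifs <;> ring
    simp only [h4]
    rw [Finset.sum_comm]
    refine Finset.sum_congr rfl fun t _ => ?_
    rw [Finset.sum_ite_eq' Finset.univ (sel q t), if_pos (Finset.mem_univ _)]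
    rfl
  have h2 : ∑ i, r p i * rr r z i p' = ∑ q : I × I × I, ∑ i, r p i * (z q * ∑ t,
      (if i = sel q t then 1 else 0) * (sb r q).adjugate t p') := by
    rw [Finset.sum_comm]
    refine Finset.sum_congr rfl fun i _ => ?_
    show r p i * (∑ q, z q * ∑ t, (if i = sel q t then 1 else 0) * (sb r q).adjugate t p') = _
    rw [Finset.mul_sum]
  rw [h2]
  simp only [h1]
  have h3 : ∀ q : I × I × I, z q * (d3 r q.1 q.2.1 q.2.2 * (1 : Matrix (Fin 3) (Fin 3) A) p p') =
      z q * d3 r q.1 q.2.1 q.2.2 * (1 : Matrix (Fin 3) (Fin 3) A) p p' := fun q => by ring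
  simp only [h3]
  rw [← Finset.sum_mul, h, one_mul]

lemma map_rr (φ : A →+* B) (r : Matrix (Fin 3) I A) (z : I × I × I → A) (i : I) (p : Fin 3) :
    φ (rr r z i p) = rr (r.map φ) (fun q => φ (z q)) i p := by
  show φ (∑ q, z q * ∑ t, (if i = sel q t then 1 else 0) * (sb r q).adjugate t p) =
    ∑ q, φ (z q) * ∑ t, (if i = sel q t then 1 else 0) * (sb (r.map φ) q).adjugate t p
  rw [map_sum]
  refine Finset.sum_congr rfl fun q _ => ?_
  rw [map_mul, map_sum]
  congr 1
  refine Finset.sum_congr rfl fun t _ => ?_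
  have h := congrFun (congrFun (RingHom.map_adjugate φ (sb r q)) t) p
  have h' : φ ((sb r q).adjugate t p) = (sb (r.map φ) q).adjugate t p := h
  rw [map_mul, h']
  congr 1
  split_ifs <;> simp

end

/-! ### The cell -/

section
variable {n : ℕ} {A B : Type} [CommRing A] [CommRing B]

/-- the lower rows -/
def lo (x : (Fin n ⊕ Fin 3) × (Fin n ⊕ Fin 3) → A) : Matrix (Fin 3) (Fin n ⊕ Fin 3) A :=
  Matrix.of fun p i => x (Sum.inr p, i)

lemma prj_mul (e : Matrix (Fin n ⊕ Fin 3) (Fin n ⊕ Fin 3) A) (p : Fin 3) (i : Fin n ⊕ Fin 3) :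
    ((prj : Matrix (Fin 3) (Fin n ⊕ Fin 3) A) * e) p i = e (Sum.inr p) i := by
  rw [Matrix.mul_apply]
  unfold prj
  simp

lemma prj_mul' (e : Matrix (Fin n ⊕ Fin 3) (Fin 3) A) (p : Fin 3) (i : Fin 3) :
    ((prj : Matrix (Fin 3) (Fin n ⊕ Fin 3) A) * e) p i = e (Sum.inr p) i := by
  rw [Matrix.mul_apply]
  unfold prj
  simp

lemma prj_mx (x : (Fin n ⊕ Fin 3) × (Fin n ⊕ Fin 3) → A) : (prj : Matrix (Fin 3) (Fin n ⊕ Fin 3) A) * mx x = lo x := by
  ext p i
  exact prj_mul _ p i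

lemma tri_nu (x y z : Fin n ⊕ Fin 3 → A) : tri nu x y z =
    tri (el (0 : Fin 3) 1 2) (fun p => x (Sum.inr p)) (fun p => y (Sum.inr p))
      fun p => z (Sum.inr p) := by
  unfold tri
  simp only [Fintype.sum_sum_type, nu, Int.cast_zero, zero_mul, Finset.sum_const_zero, zero_add]

lemma tri_mu' (μ : Fin n → Fin n → Fin n → ℤ) (x y z : Fin n ⊕ Fin 3 → A) :
    tri (mu' μ) x y z = tri μ (fun p => x (Sum.inl p)) (fun p => y (Sum.inl p))
      fun p => z (Sum.inl p) := by
  unfold tri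
  simp only [Fintype.sum_sum_type, mu', Int.cast_zero, zero_mul, Finset.sum_const_zero, add_zero]

lemma tri_nu_col (x : (Fin n ⊕ Fin 3) × (Fin n ⊕ Fin 3) → A) (a b c : Fin n ⊕ Fin 3) :
    tri nu (fun i => x (i, a)) (fun i => x (i, b)) (fun i => x (i, c)) = d3 (lo x) a b c :=
  tri_nu _ _ _

lemma rM_mul_sM (x : FH n → A) : rM x * sM x = 1 := by
  ext p q
  rw [Matrix.mul_apply, Fintype.sum_sum_type, Matrix.one_apply]
  show (∑ i, x (Sum.inr (p, i)) * x (Sum.inl (i, q))) +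
    ∑ t, ((if p = t then 1 else 0) - ∑ j, x (Sum.inr (p, j)) * x (Sum.inl (j, t))) *
      (if t = q then 1 else 0) = _
  simp only [mul_ite, mul_one, mul_zero, Finset.sum_ite_eq', Finset.mem_univ, if_true]
  ring

lemma lo_sr (x : FH n → A) (p : Fin 3) (i : Fin n ⊕ Fin 3) :
    (sM x * rM x) (Sum.inr p) i = rM x p i := by
  rw [Matrix.mul_apply]
  show ∑ t, (if p = t then 1 else 0) * rM x t i = _
  simp

lemma charpolyRev_mul_comm (s : Matrix (Fin n ⊕ Fin 3) (Fin 3) A)
    (r : Matrix (Fin 3) (Fin n ⊕ Fin 3) A) : (s * r).charpolyRev = (r * s).charpolyRev := by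
  unfold Matrix.charpolyRev
  rw [Matrix.map_mul, Matrix.map_mul, ← Matrix.smul_mul, Matrix.det_one_sub_mul_comm,
    Matrix.mul_smul]

lemma charpolyRev_one : (1 : Matrix (Fin 3) (Fin 3) A).charpolyRev =
    (1 - Polynomial.X) ^ 3 := by
  unfold Matrix.charpolyRev
  have h : (1 : Matrix (Fin 3) (Fin 3) (Polynomial A)) -
      (Polynomial.X : Polynomial A) • (1 : Matrix (Fin 3) (Fin 3) A).map Polynomial.C =
      (1 - Polynomial.X : Polynomial A) • 1 := by
    rw [Matrix.map_one _ (map_zero _) (map_one _), sub_smul, one_smul]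
  rw [h, Matrix.det_smul, Matrix.det_one, mul_one, Fintype.card_fin]

lemma r3_sr (x : FH n → A) : R3 (sM x * rM x) := by
  refine ⟨?_, ?_⟩
  · rw [← Matrix.mul_assoc, Matrix.mul_assoc (sM x), rM_mul_sM, Matrix.mul_one]
  · rw [charpolyRev_mul_comm, rM_mul_sM, charpolyRev_one]

/-- the coordinates `s` of an idempotent matrix -/
def sc (x : (Fin n ⊕ Fin 3) × (Fin n ⊕ Fin 3) → A)
    (z : (Fin n ⊕ Fin 3) × (Fin n ⊕ Fin 3) × (Fin n ⊕ Fin 3) → A) :
    Matrix (Fin n ⊕ Fin 3) (Fin 3) A := mx x * rr (lo x) z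

/-- the coordinates `(f, h)` of an idempotent matrix -/
def fh (x : (Fin n ⊕ Fin 3) × (Fin n ⊕ Fin 3) → A)
    (z : (Fin n ⊕ Fin 3) × (Fin n ⊕ Fin 3) × (Fin n ⊕ Fin 3) → A) : FH n → A :=
  Sum.elim (fun q => sc x z (Sum.inl q.1) q.2) (fun q => x (Sum.inr q.1, Sum.inl q.2))

section
variable {x : (Fin n ⊕ Fin 3) × (Fin n ⊕ Fin 3) → A}
  {z : (Fin n ⊕ Fin 3) × (Fin n ⊕ Fin 3) × (Fin n ⊕ Fin 3) → A}

lemma sc_low (hz : ∑ q, z q * d3 (lo x) q.1 q.2.1 q.2.2 = 1) : (prj : Matrix (Fin 3) (Fin n ⊕ Fin 3) A) * sc x z = 1 := by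
  unfold sc
  rw [← Matrix.mul_assoc, prj_mx, mul_rr _ _ hz]

lemma sc_mul (hx : R3 (mx x)) (hz : ∑ q, z q * d3 (lo x) q.1 q.2.1 q.2.2 = 1) :
    sc x z * lo x = mx x := by
  have h1 : (prj : Matrix (Fin 3) (Fin n ⊕ Fin 3) A) * mx x * rr (lo x) z = 1 := by
    rw [prj_mx, mul_rr _ _ hz]
  have h2 := R3.right hx prj (rr (lo x) z) h1
  rwa [prj_mx] at h2

lemma lo_mul (hx : R3 (mx x)) (hz : ∑ q, z q * d3 (lo x) q.1 q.2.1 q.2.2 = 1) :
    lo x * sc x z = 1 := by
  have h1 := sc_mul hx hz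
  have h2 : (prj : Matrix (Fin 3) (Fin n ⊕ Fin 3) A) * (mx x * mx x) * rr (lo x) z = 1 := by
    rw [hx.1, prj_mx, mul_rr _ _ hz]
  rw [← h1] at h2
  have h3 : (prj : Matrix (Fin 3) (Fin n ⊕ Fin 3) A) * (sc x z * lo x * (sc x z * lo x)) * rr (lo x) z =
      (prj : Matrix (Fin 3) (Fin n ⊕ Fin 3) A) * sc x z * (lo x * sc x z) *
      (lo x * rr (lo x) z) := by
    simp only [Matrix.mul_assoc]
  rwa [h3, sc_low hz, mul_rr _ _ hz, Matrix.one_mul, Matrix.mul_one] at h2

lemma sM_fh (hz : ∑ q, z q * d3 (lo x) q.1 q.2.1 q.2.2 = 1) : sM (fh x z) = sc x z := by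
  ext i p
  rcases i with i | i
  · rfl
  · have h := congrFun (congrFun (sc_low hz) i) p
    rw [prj_mul'] at h
    rw [h]
    rfl

lemma rM_fh (hx : R3 (mx x)) (hz : ∑ q, z q * d3 (lo x) q.1 q.2.1 q.2.2 = 1) :
    rM (fh x z) = lo x := by
  ext p i
  rcases i with i | i
  · rfl
  · have h := congrFun (congrFun (lo_mul hx hz) p) i
    rw [← sM_fh hz, Matrix.mul_apply, Fintype.sum_sum_type] at h
    have h1 : ∑ t, lo x p (Sum.inr t) * sM (fh x z) (Sum.inr t) i = lo x p (Sum.inr i) := by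
      show ∑ t, lo x p (Sum.inr t) * (if t = i then 1 else 0) = _
      simp
    rw [h1] at h
    show (if p = i then 1 else 0) - ∑ j, x (Sum.inr p, Sum.inl j) * sc x z (Sum.inl j) i = _
    rw [← Matrix.one_apply, ← h]
    show (∑ j, x (Sum.inr p, Sum.inl j) * sc x z (Sum.inl j) i) + lo x p (Sum.inr i) -
      ∑ j, x (Sum.inr p, Sum.inl j) * sc x z (Sum.inl j) i = _
    ring

end

end

/-- **The cell.** -/
theorem qs_cell (hQ : RingCP Q) {n : ℕ}
    (κ : Fin n ⊕ Fin 3 → Fin n ⊕ Fin 3 → Fin n ⊕ Fin 3 → ℤ) (hκ : Alt3 κ)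
    (F : Set (MvPolynomial (FH n) ℤ)) (hF : ∀ (A : Type) [CommRing A] (x : FH n → A),
      Pt F x ↔ tri κ (fun i => sM x i 0) (fun i => sM x i 1) (fun i => sM x i 2) = 0) (s : ℤ) :
    QS Q (hypS (grI κ) (nuF (nu (n := n)))) s ↔ QS Q (hypS F (gF n)) s := by
  have key : ∀ {A : Type} [CommRing A] {x : ((Fin n ⊕ Fin 3) × (Fin n ⊕ Fin 3)) ⊕
      ((Fin n ⊕ Fin 3) × (Fin n ⊕ Fin 3) × (Fin n ⊕ Fin 3)) → A},
      Pt (hypS (grI κ) (nuF (nu (n := n)))) x ↔
      (∑ q, x (Sum.inr q) * d3 (lo fun j => x (Sum.inl j)) q.1 q.2.1 q.2.2 = 1) ∧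
      R3 (mx fun j => x (Sum.inl j)) ∧ ∀ a b c, tri κ (fun i => x (Sum.inl (i, a)))
        (fun i => x (Sum.inl (i, b))) (fun i => x (Sum.inl (i, c))) = 0 := by
    intro A _ x
    rw [pt_hyps, pt_gr]
    simp only [ev_nuF, tri_nu_col fun j => x (Sum.inl j)]
  have key' : ∀ {A : Type} [CommRing A] {y : FH n ⊕
      ((Fin n ⊕ Fin 3) × (Fin n ⊕ Fin 3) × (Fin n ⊕ Fin 3)) → A},
      Pt (hypS F (gF n)) y ↔
      (∑ q, y (Sum.inr q) * d3 (rM fun j => y (Sum.inl j)) q.1 q.2.1 q.2.2 = 1) ∧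
      tri κ (fun i => sM (fun j => y (Sum.inl j)) i 0) (fun i => sM (fun j => y (Sum.inl j)) i 1)
        (fun i => sM (fun j => y (Sum.inl j)) i 2) = 0 := by
    intro A _ y
    rw [pt_hyps, hF]
    simp only [ev_gF]
  refine hQ.qs_iso
    (fun A _ x => Sum.elim (fh (fun j => x (Sum.inl j)) fun q => x (Sum.inr q))
      fun q => x (Sum.inr q))
    (fun A _ y => Sum.elim (fun q => (sM (fun j => y (Sum.inl j)) * rM fun j => y (Sum.inl j))
      q.1 q.2) fun q => y (Sum.inr q))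
    ?_ ?_ ?_ ?_ ?_ ?_ s
  · intro A B _ _ φ x _ j
    rcases j with (⟨i, p⟩ | j) | j
    · show φ ((mx (fun j => x (Sum.inl j)) * rr (lo fun j => x (Sum.inl j))
        fun q => x (Sum.inr q)) (Sum.inl i) p) = (mx (fun j => φ (x (Sum.inl j))) *
        rr (lo fun j => φ (x (Sum.inl j))) fun q => φ (x (Sum.inr q))) (Sum.inl i) p
      rw [Matrix.mul_apply, Matrix.mul_apply, map_sum]
      refine Finset.sum_congr rfl fun t _ => ?_
      rw [map_mul, map_rr]
      rfl
    · rfl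
    · rfl
  · intro A B _ _ φ y _ j
    rcases j with ⟨i, k⟩ | j
    · show φ ((sM (fun j => y (Sum.inl j)) * rM fun j => y (Sum.inl j)) i k) =
        (sM (fun j => φ (y (Sum.inl j))) * rM fun j => φ (y (Sum.inl j))) i k
      rw [Matrix.mul_apply, Matrix.mul_apply, map_sum]
      refine Finset.sum_congr rfl fun t _ => ?_
      rw [map_mul]
      congr 1
      · rcases i with i | i
        · rfl
        · show φ (if i = t then 1 else 0) = if i = t then 1 else 0
          split_ifs <;> simp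
      · rcases k with k | k
        · rfl
        · show φ ((if t = k then 1 else 0) - ∑ j, y (Sum.inl (Sum.inr (t, j))) *
            y (Sum.inl (Sum.inl (j, k)))) = (if t = k then 1 else 0) -
            ∑ j, φ (y (Sum.inl (Sum.inr (t, j)))) * φ (y (Sum.inl (Sum.inl (j, k))))
          rw [map_sub, map_sum]
          simp only [map_mul]
          congr 1
          split_ifs <;> simp
    · rfl
  · intro A _ x hx
    rw [key] at hx
    obtain ⟨hz, hr, h⟩ := hx
    rw [key']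
    refine ⟨?_, ?_⟩
    · show ∑ q, x (Sum.inr q) * d3 (rM (fh (fun j => x (Sum.inl j)) fun q => x (Sum.inr q)))
        q.1 q.2.1 q.2.2 = 1
      rw [rM_fh hr hz]
      exact hz
    · show tri κ (fun i => sM (fh (fun j => x (Sum.inl j)) fun q => x (Sum.inr q)) i 0)
        (fun i => sM (fh (fun j => x (Sum.inl j)) fun q => x (Sum.inr q)) i 1)
        (fun i => sM (fh (fun j => x (Sum.inl j)) fun q => x (Sum.inr q)) i 2) = 0
      rw [sM_fh hz]
      set S := sc (fun j => x (Sum.inl j)) fun q => x (Sum.inr q) with hS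
      have h1 : ∀ a b c, tri κ (fun i => S i 0) (fun i => S i 1) (fun i => S i 2) *
          d3 (lo fun j => x (Sum.inl j)) a b c = 0 := by
        intro a b c
        rw [← tri_mul hκ, sc_mul hr hz]
        exact h a b c
      rw [← mul_one (tri κ (fun i => S i 0) (fun i => S i 1) (fun i => S i 2)), ← hz,
        Finset.mul_sum]
      refine Finset.sum_eq_zero fun q _ => ?_
      rw [mul_left_comm, h1, mul_zero]
  · intro A _ y hy
    rw [key'] at hy
    obtain ⟨hz, h⟩ := hy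
    rw [key]
    have hlo : (lo fun q => (sM (fun j => y (Sum.inl j)) * rM fun j => y (Sum.inl j)) q.1 q.2) =
        rM fun j => y (Sum.inl j) := by
      ext p i
      exact lo_sr _ p i
    refine ⟨?_, ?_, ?_⟩
    · show ∑ q, y (Sum.inr q) * d3 (lo fun q => (sM (fun j => y (Sum.inl j)) *
        rM fun j => y (Sum.inl j)) q.1 q.2) q.1 q.2.1 q.2.2 = 1
      rw [hlo]
      exact hz
    · exact r3_sr _
    · intro a b c
      show tri κ (fun i => (sM (fun j => y (Sum.inl j)) * rM fun j => y (Sum.inl j)) i a)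
        (fun i => (sM (fun j => y (Sum.inl j)) * rM fun j => y (Sum.inl j)) i b)
        (fun i => (sM (fun j => y (Sum.inl j)) * rM fun j => y (Sum.inl j)) i c) = 0
      rw [tri_mul hκ, h, zero_mul]
  · intro A _ x hx
    rw [key] at hx
    obtain ⟨hz, hr, h⟩ := hx
    funext j
    rcases j with ⟨i, k⟩ | j
    · show (sM (fh (fun j => x (Sum.inl j)) fun q => x (Sum.inr q)) *
        rM (fh (fun j => x (Sum.inl j)) fun q => x (Sum.inr q))) i k = x (Sum.inl (i, k))
      rw [sM_fh hz, rM_fh hr hz, sc_mul hr hz]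
      rfl
    · rfl
  · intro A _ y hy
    rw [key'] at hy
    obtain ⟨hz, h⟩ := hy
    have hlo : (lo fun q => (sM (fun j => y (Sum.inl j)) * rM fun j => y (Sum.inl j)) q.1 q.2) =
        rM fun j => y (Sum.inl j) := by
      ext p i
      exact lo_sr _ p i
    funext j
    rcases j with (⟨i, p⟩ | ⟨p, i⟩) | j
    · show (mx (fun q => (sM (fun j => y (Sum.inl j)) * rM fun j => y (Sum.inl j)) q.1 q.2) *
        rr (lo fun q => (sM (fun j => y (Sum.inl j)) * rM fun j => y (Sum.inl j)) q.1 q.2)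
        fun q => y (Sum.inr q)) (Sum.inl i) p = y (Sum.inl (Sum.inl (i, p)))
      rw [hlo]
      have h1 : mx (fun q => (sM (fun j => y (Sum.inl j)) * rM fun j => y (Sum.inl j)) q.1 q.2) =
          sM (fun j => y (Sum.inl j)) * rM fun j => y (Sum.inl j) := rfl
      rw [h1, Matrix.mul_assoc, mul_rr _ _ hz, Matrix.mul_one]
      rfl
    · show (sM (fun j => y (Sum.inl j)) * rM fun j => y (Sum.inl j)) (Sum.inr p) (Sum.inl i) = _
      rw [lo_sr]
      rfl
    · rfl

section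
variable {n : ℕ}

lemma alt_mu' {μ : Fin n → Fin n → Fin n → ℤ} (hμ : Alt3 μ) : Alt3 (mu' μ) := by
  intro i j k
  rcases i with i | i <;> rcases j with j | j <;> rcases k with k | k <;>
    first | exact hμ i j k | exact ⟨(neg_zero (G := ℤ)).symm, (neg_zero (G := ℤ)).symm⟩

lemma alt_nu : Alt3 (nu (n := n)) := by
  intro i j k
  rcases i with i | i <;> rcases j with j | j <;> rcases k with k | k <;>
    first | exact el_alt 0 1 2 i j k | exact ⟨(neg_zero (G := ℤ)).symm, (neg_zero (G := ℤ)).symm⟩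

lemma alt_sub {I : Type} {μ ν : I → I → I → ℤ} (hμ : Alt3 μ) (hν : Alt3 ν) :
    Alt3 fun i j k => μ i j k - ν i j k := by
  intro i j k
  have h1 := hμ i j k
  have h2 := hν i j k
  constructor
  · show μ i j k - ν i j k = -(μ j i k - ν j i k)
    rw [h1.1, h2.1]
    ring
  · show μ i j k - ν i j k = -(μ i k j - ν i k j)
    rw [h1.2, h2.2]
    ring

lemma tri_sub_p {I A : Type} [Fintype I] [CommRing A] (μ ν : I → I → I → ℤ) (x y z : I → A) :
    tri (fun i j k => μ i j k - ν i j k) x y z = tri μ x y z - tri ν x y z := by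
  unfold tri
  simp only [← Finset.sum_sub_distrib]
  refine Finset.sum_congr rfl fun i _ => Finset.sum_congr rfl fun j _ =>
    Finset.sum_congr rfl fun k _ => ?_
  push_cast
  ring

/-- the cell without conditions -/
theorem qs_cell0 (hQ : RingCP Q) (n : ℕ) (s : ℤ) :
    QS Q (hypS (grI fun _ _ _ => 0) (nuF (nu (n := n)))) s ↔
      QS Q (hypS (∅ : Set (MvPolynomial (FH n) ℤ)) (gF n)) s := by
  refine qs_cell hQ _ (fun i j k => ⟨(neg_zero (G := ℤ)).symm, (neg_zero (G := ℤ)).symm⟩) _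
    (fun A _ x => ?_) s
  refine ⟨fun _ => ?_, fun _ p hp => absurd hp (Set.notMem_empty p)⟩
  unfold tri
  simp only [Int.cast_zero, zero_mul, Finset.sum_const_zero]

/-- the cell with the condition `μ' = ν` -/
theorem qs_cell1 (hQ : RingCP Q) (μ : Fin n → Fin n → Fin n → ℤ) (hμ : Alt3 μ) (s : ℤ) :
    QS Q (hypS (grI fun i j k => mu' μ i j k - nu i j k) (nuF nu)) s ↔
      QS Q (hypS (cubF μ) (gF n)) s := by
  refine qs_cell hQ _ (alt_sub (alt_mu' hμ) alt_nu) _ (fun A _ x => ?_) s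
  rw [pt_cubF, tri_sub_p, tri_mu', tri_nu]
  have h1 : tri (el (0 : Fin 3) 1 2) (fun p => sM x (Sum.inr p) 0) (fun p => sM x (Sum.inr p) 1)
      (fun p => sM x (Sum.inr p) 2) = 1 := by
    have h4 := d3_eq (1 : Matrix (Fin 3) (Fin 3) A) 0 1 2
    unfold d3 at h4
    have h5 : ∀ p q : Fin 3, sM x (Sum.inr p) q = (1 : Matrix (Fin 3) (Fin 3) A) p q := by
      intro p q
      rw [Matrix.one_apply]
      rfl
    simp only [h5]
    rw [h4]
    simp
  rw [h1, sub_eq_zero]
  exact Iff.rfl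

end

end Pool.Agent.TM
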