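import Pool.Agent.TM.GrW
import Pool.Agent.TM.GrP

/-!
# Hyperplane sections of the Grassmannians of planes: reduction
-/

set_option autoImplicit false

open MvPolynomial
open Pool.Agent.Helper81.CP Pool.Agent.Helper45.RM

namespace Pool.Agent.TM

variable {Q : ∀ (R : Type) [CommRing R], ℤ → Prop}

/-! ### The forms -/

lemma alt_el : Alt3 (el (0 : Fin 3) 1 2) := fun p q l => el_alt 0 1 2 p q l

lemma Alt3.sub {I : Type} {μ ν : I → I → I → ℤ} (hμ : Alt3 μ) (hν : Alt3 ν) :
    Alt3 fun i j k => μ i j k - ν i j k := by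
  intro i j k
  have h1 := hμ i j k
  have h2 := hν i j k
  show μ i j k - ν i j k = -(μ j i k - ν j i k) ∧ μ i j k - ν i j k = -(μ i k j - ν i k j)
  constructor <;> omega

/-- the idempotents on whose image both forms vanish -/
noncomputable def zS {n : ℕ} (μ : Fin n → Fin n → Fin n → ℤ) :
    Set (MvPolynomial ((Fin n ⊕ Fin 3) × (Fin n ⊕ Fin 3)) ℤ) :=
  grI (mu' μ) ∪ Set.range (nuF nu)

/-- the minors of a matrix with a right inverse have no common zero -/
lemma gF_false {n : ℕ} {A : Type} [CommRing A] {x : FH n → A}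
    (h : ∀ q, ev x (gF n q) = 0) : (1 : A) = 0 := by
  refine d3_unimodular (rM x) (sM x) ?_ fun a b c => ?_
  · ext p q
    rw [Matrix.mul_apply, Fintype.sum_sum_type, Matrix.one_apply]
    show (∑ i, x (Sum.inr (p, i)) * x (Sum.inl (i, q))) +
      ∑ r, ((if p = r then 1 else 0) - ∑ j, x (Sum.inr (p, j)) * x (Sum.inl (j, r))) *
        (if r = q then 1 else 0) = _
    simp
  · have h1 := h (a, b, c)
    rw [ev_gF] at h1
    exact h1

/-- the open cell -/
lemma good_cell (hQ : RingCP Q) (n : ℕ) (h0 : Good Q (∅ : Set (MvPolynomial Empty ℤ))) :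
    Good Q (hypS (grI fun _ _ _ => 0) (nuF (nu (n := n)))) := by
  intro s
  rw [qs_cell0 hQ]
  refine ((good_hyp2 hQ ∅ (gF n)).1 (good_empty hQ h0 _)).1 ?_ s
  refine good_of_false hQ fun A _ x hx => ?_
  exact gF_false (pt_union_range.1 hx).2

/-- the pencil -/
lemma good_pencil (hQ : RingCP Q) {n : ℕ} {μ : Fin n → Fin n → Fin n → ℤ} (hμ : Alt3 μ)
    (h0 : Good Q (∅ : Set (MvPolynomial Empty ℤ))) :
    Good Q (hypS (wS (mu' μ) (nu (n := n))) fun q => rename some (nuF nu q)) := by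
  intro s
  refine (hQ.qs_iso
    (fun A _ x => Sum.elim (fun p => x (Sum.inl (some p))) fun q => x (Sum.inr q))
    (fun A _ y => Sum.elim (fun o => o.elim
      (∑ q, y (Sum.inr q) * tri (mu' μ) (fun i => y (Sum.inl (i, q.1)))
        (fun i => y (Sum.inl (i, q.2.1))) (fun i => y (Sum.inl (i, q.2.2))))
      fun p => y (Sum.inl p)) fun q => y (Sum.inr q))
    ?_ ?_ ?_ ?_ ?_ ?_ s).2 (good_cell hQ n h0 s)
  · intro A B _ _ φ x _ j
    rcases j with j | j <;> rfl
  · intro A B _ _ φ y _ j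
    rcases j with (_ | j) | j
    · show φ (∑ q, _) = ∑ q, _
      simp only [map_sum, map_mul, map_tri]
    · rfl
    · rfl
  · intro A _ x hx
    rw [pt_hyps, pt_w] at hx
    obtain ⟨h1, h2, h3⟩ := hx
    rw [pt_hyps, pt_gr]
    simp only [ev_rename, ev_nuF] at h1 ⊢
    refine ⟨h1, h2, fun a b c => ?_⟩
    unfold tri
    simp
  · intro A _ y hy
    rw [pt_hyps, pt_gr] at hy
    obtain ⟨h1, h2, -⟩ := hy
    rw [pt_hyps, pt_w]
    simp only [ev_rename, ev_nuF] at h1 ⊢
    refine ⟨h1, h2, fun a b c => ?_⟩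
    show tri (mu' μ) (fun i => y (Sum.inl (i, a))) (fun i => y (Sum.inl (i, b)))
      (fun i => y (Sum.inl (i, c))) = (∑ q, y (Sum.inr q) * tri (mu' μ)
        (fun i => y (Sum.inl (i, q.1))) (fun i => y (Sum.inl (i, q.2.1)))
        (fun i => y (Sum.inl (i, q.2.2)))) * tri nu (fun i => y (Sum.inl (i, a)))
        (fun i => y (Sum.inl (i, b))) (fun i => y (Sum.inl (i, c)))
    have h3 := fun q : (Fin n ⊕ Fin 3) × (Fin n ⊕ Fin 3) × (Fin n ⊕ Fin 3) =>
      R3.cross h2 (alt_mu' hμ) alt_nu a b c q.1 q.2.1 q.2.2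
    have h4 : tri (mu' μ) (fun i => y (Sum.inl (i, a))) (fun i => y (Sum.inl (i, b)))
        (fun i => y (Sum.inl (i, c))) = ∑ q, y (Sum.inr q) *
          (tri (mu' μ) (fun i => y (Sum.inl (i, a))) (fun i => y (Sum.inl (i, b)))
            (fun i => y (Sum.inl (i, c))) * tri nu (fun i => y (Sum.inl (i, q.1)))
            (fun i => y (Sum.inl (i, q.2.1))) (fun i => y (Sum.inl (i, q.2.2)))) := by
      have h6 := congrArg (fun t => tri (mu' μ) (fun i => y (Sum.inl (i, a)))
        (fun i => y (Sum.inl (i, b))) (fun i => y (Sum.inl (i, c))) * t) h1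
      simp only [Finset.mul_sum, mul_one] at h6
      exact h6.symm.trans (Finset.sum_congr rfl fun q _ => by ring)
    rw [h4, Finset.sum_mul]
    refine Finset.sum_congr rfl fun q _ => ?_
    have h5 := h3 q
    rw [mul_assoc]
    exact congrArg _ h5
  · intro A _ x hx
    rw [pt_hyps, pt_w] at hx
    obtain ⟨h1, h2, h3⟩ := hx
    simp only [ev_rename, ev_nuF] at h1
    funext j
    rcases j with (_ | j) | j
    · show (∑ q, x (Sum.inr q) * tri (mu' μ) (fun i => x (Sum.inl (some (i, q.1))))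
        (fun i => x (Sum.inl (some (i, q.2.1)))) (fun i => x (Sum.inl (some (i, q.2.2))))) =
        x (Sum.inl none)
      have h4 : ∀ q : (Fin n ⊕ Fin 3) × (Fin n ⊕ Fin 3) × (Fin n ⊕ Fin 3),
          x (Sum.inr q) * tri (mu' μ) (fun i => x (Sum.inl (some (i, q.1))))
          (fun i => x (Sum.inl (some (i, q.2.1)))) (fun i => x (Sum.inl (some (i, q.2.2)))) =
          x (Sum.inl none) * (x (Sum.inr q) * tri nu (fun i => x (Sum.inl (some (i, q.1))))
          (fun i => x (Sum.inl (some (i, q.2.1)))) (fun i => x (Sum.inl (some (i, q.2.2))))) := by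
        intro q
        have h5 := h3 q.1 q.2.1 q.2.2
        rw [h5]
        ring
      simp only [h4]
      rw [← Finset.mul_sum, h1, mul_one]
    · rfl
    · rfl
  · intro A _ y _
    funext j
    rcases j with j | j <;> rfl

/-- the intersection of two hyperplane sections -/
theorem good_z (hQ : RingCP Q) {n : ℕ} {μ : Fin n → Fin n → Fin n → ℤ} (hμ : Alt3 μ)
    (h0 : Good Q (∅ : Set (MvPolynomial Empty ℤ))) (h : Good Q (wS (mu' μ) (nu (n := n)))) :
    Good Q (zS μ) := by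
  rw [← hQ.good_line]
  refine (hQ.good_congr fun A _ x => ?_).1
    (((good_hyp2 hQ (wS (mu' μ) (nu (n := n))) fun q => rename some (nuF nu q)).1 h).2
      (good_pencil hQ hμ h0))
  rw [pt_union_range, pt_w, Pt.lft_iff, zS, pt_union_range, pt_gr]
  simp only [ev_rename, ev_nuF]
  constructor
  · rintro ⟨⟨h1, h2⟩, h3⟩
    refine ⟨⟨h1, fun a b c => ?_⟩, h3⟩
    have h4 := h3 (a, b, c)
    rw [h2 a b c, h4, mul_zero]
  · rintro ⟨⟨h1, h2⟩, h3⟩
    refine ⟨⟨h1, fun a b c => ?_⟩, h3⟩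
    have h4 := h3 (a, b, c)
    rw [h2 a b c, h4, mul_zero]

/-- the cubic hypersurface -/
theorem good_cub_of_z (hQ : RingCP Q) {n : ℕ} {μ : Fin n → Fin n → Fin n → ℤ} (hμ : Alt3 μ)
    (h : Good Q (grI fun i j k => mu' μ i j k - nu i j k)) (hz : Good Q (zS μ)) :
    Good Q (cubS μ) := by
  have h1 : Good Q (grI (fun i j k => mu' μ i j k - nu i j k) ∪ Set.range (nuF nu)) := by
    refine (hQ.good_congr fun A _ x => ?_).1 hz
    rw [zS, pt_union_range, pt_union_range, pt_gr, pt_gr]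
    simp only [ev_nuF, tri_sub]
    constructor
    · rintro ⟨⟨h2, h3⟩, h4⟩
      exact ⟨⟨h2, fun a b c => by rw [h3 a b c, h4 (a, b, c), sub_zero]⟩, h4⟩
    · rintro ⟨⟨h2, h3⟩, h4⟩
      refine ⟨⟨h2, fun a b c => ?_⟩, h4⟩
      have h5 := h3 a b c
      rw [h4 (a, b, c), sub_zero] at h5
      exact h5
  have h2 : Good Q (hypS (cubF μ) (gF n)) := fun s =>
    (qs_cell1 hQ μ hμ s).1 (((good_hyp2 hQ _ _).1 h).1 h1 s)
  have h3 : Good Q (cubF μ) := by
    refine (good_hyp2 hQ (cubF μ) (gF n)).2 (good_of_false hQ fun A _ x hx => ?_) h2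
    exact gF_false (pt_union_range.1 hx).2
  exact (hQ.good_sum (cubS μ)).1 h3

end Pool.Agent.TM
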