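import Pool.Agent.TM.Cub

/-!
# Descent from the special linear group of degree three to the point
-/

set_option autoImplicit false

open MvPolynomial
open Pool.Agent.Helper81.CP Pool.Agent.Helper45.RM

namespace Pool.Agent.TM

variable {Q : ∀ (R : Type) [CommRing R], ℤ → Prop}

/-- the determinant -/
noncomputable def detP : MvPolynomial (Fin 3 × Fin 3) ℤ :=
  ∑ i, ∑ j, ∑ k, C (el (0 : Fin 3) 1 2 i j k) * (X (i, 0) * X (j, 1) * X (k, 2))

/-- the matrix -/
def mt {A : Type} (x : Fin 3 × Fin 3 → A) : Matrix (Fin 3) (Fin 3) A :=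
  Matrix.of fun i a => x (i, a)

lemma ev_detP {A : Type} [CommRing A] (x : Fin 3 × Fin 3 → A) :
    ev x detP = (mt fun p => x (p.2, p.1)).det := by
  unfold detP
  simp only [map_sum, map_mul, ev_X, ev_C']
  rw [Matrix.det_fin_three]
  simp only [Fin.sum_univ_three, mt, Matrix.of_apply]
  have h : ∀ i j k : Fin 3, el (0 : Fin 3) 1 2 i j k =
      (![![![0, 0, 0], ![0, 0, 1], ![0, -1, 0]], ![![0, 0, -1], ![0, 0, 0], ![1, 0, 0]],
        ![![0, 1, 0], ![-1, 0, 0], ![0, 0, 0]]] : Fin 3 → Fin 3 → Fin 3 → ℤ) i j k := by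
    decide
  simp [h]
  ring

/-- **Descent from `SL_3`.** -/
theorem good_pt_of_sl3 (hQ : RingCP Q) (h : Good Q (cubS (el (0 : Fin 3) 1 2))) :
    Good Q (∅ : Set (MvPolynomial Empty ℤ)) := by
  have h1 : Good Q (insert (detP - 1) (∅ : Set (MvPolynomial (Fin 3 × Fin 3) ℤ))) := by
    have h2 : insert (detP - 1) (∅ : Set (MvPolynomial (Fin 3 × Fin 3) ℤ)) =
        cubS (el (0 : Fin 3) 1 2) := by
      rw [insert_empty_eq]
      rfl
    rwa [h2]
  have h2 : Good Q (dop detP (∅ : Set (MvPolynomial (Fin 3 × Fin 3) ℤ))) := by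
    refine (hQ.good_scale ∅ {q | q.2 = 0} detP ?_ ?_).2 h1
    · intro A _ x c _ p hp
      exact absurd hp (Set.notMem_empty p)
    · intro A _ x c
      unfold detP
      simp only [map_sum, map_mul, ev_X, ev_C', Finset.mul_sum]
      refine Finset.sum_congr rfl fun i _ => Finset.sum_congr rfl fun j _ =>
        Finset.sum_congr rfl fun k _ => ?_
      have e0 : scl {q : Fin 3 × Fin 3 | q.2 = 0} c x (i, 0) = c * x (i, 0) := by
        unfold scl
        rw [if_pos]
        rfl
      have e1 : scl {q : Fin 3 × Fin 3 | q.2 = 0} c x (j, 1) = x (j, 1) := by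
        unfold scl
        rw [if_neg]
        intro h
        have h' : (1 : Fin 3) = 0 := h
        exact absurd h' (by decide)
      have e2 : scl {q : Fin 3 × Fin 3 | q.2 = 0} c x (k, 2) = x (k, 2) := by
        unfold scl
        rw [if_neg]
        intro h
        have h' : (2 : Fin 3) = 0 := h
        exact absurd h' (by decide)
      rw [e0, e1, e2]
      ring
  refine good_gln hQ 3 _ _ fun s => (hQ.qs_iso
    (fun A _ x => Sum.elim (fun t => t.elim) (Sum.elim (fun q => x (some (q.2, q.1)))
      (fun q => x none * (mt fun p => x (some (p.2, p.1))).adjugate q.2 q.1)))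
    (fun A _ y o => o.elim (mt fun q => y (Sum.inr (Sum.inr q))).det
      (fun q => y (Sum.inr (Sum.inl (q.2, q.1)))))
    ?_ ?_ ?_ ?_ ?_ ?_ s).1 (h2 s)
  · intro A B _ _ φ x _ j
    rcases j with j | j | j
    · exact j.elim
    · rfl
    · show φ (x none * (mt fun p => x (some (p.2, p.1))).adjugate j.2 j.1) = _
      rw [map_mul]
      congr 1
      have h3 := RingHom.map_adjugate φ (mt fun p => x (some (p.2, p.1)))
      exact congrFun (congrFun h3 j.2) j.1
  · intro A B _ _ φ y _ j
    rcases j with _ | j
    · exact RingHom.map_det φ _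
    · rfl
  · intro A _ x hx
    rw [Pt.dop_iff] at hx
    rw [pt_gls]
    refine ⟨fun p hp => absurd hp (Set.notMem_empty p), fun i j => ?_⟩
    have h3 := congrFun (congrFun (Matrix.mul_adjugate (mt fun p => x (some (p.2, p.1)))) i) j
    rw [Matrix.mul_apply, Matrix.smul_apply, Matrix.one_apply, smul_eq_mul,
      ← ev_detP fun q => x (some q)] at h3
    show ∑ a, x (some (a, i)) * (x none * (mt fun p => x (some (p.2, p.1))).adjugate a j) = _
    have h4 : ∑ a, x (some (a, i)) * (x none * (mt fun p => x (some (p.2, p.1))).adjugate a j) =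
        x none * ∑ a, (mt fun p => x (some (p.2, p.1))) i a *
          (mt fun p => x (some (p.2, p.1))).adjugate a j := by
      rw [Finset.mul_sum]
      refine Finset.sum_congr rfl fun a _ => ?_
      show x (some (a, i)) * (x none * _) = x none * (x (some (a, i)) * _)
      ring
    rw [h4, h3, ← mul_assoc, hx.1, one_mul]
  · intro A _ y hy
    rw [pt_gls] at hy
    rw [Pt.dop_iff]
    refine ⟨?_, fun p hp => absurd hp (Set.notMem_empty p)⟩
    rw [ev_detP]
    have h3 : (mt fun q => y (Sum.inr (Sum.inl q))) *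
        (mt fun q => y (Sum.inr (Sum.inr q))).transpose = 1 := by
      ext i j
      rw [Matrix.mul_apply, Matrix.one_apply]
      exact hy.2 i j
    have h4 := congrArg Matrix.det h3
    rw [Matrix.det_mul, Matrix.det_transpose, Matrix.det_one, mul_comm] at h4
    exact h4
  · intro A _ x hx
    rw [Pt.dop_iff] at hx
    funext j
    rcases j with _ | j
    · show (mt fun q => x none * (mt fun p => x (some (p.2, p.1))).adjugate q.2 q.1).det = x none
      have h3 : (mt fun q => x none * (mt fun p => x (some (p.2, p.1))).adjugate q.2 q.1) =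
          (x none • (mt fun p => x (some (p.2, p.1))).adjugate).transpose := by
        ext i j
        rfl
      have h5 := hx.1
      rw [ev_detP] at h5
      rw [h3, Matrix.det_transpose, Matrix.det_smul, Matrix.det_adjugate, Fintype.card_fin]
      show x none ^ 3 * (mt fun p => x (some (p.2, p.1))).det ^ 2 = x none
      have h6 : x none ^ 3 * (mt fun p => x (some (p.2, p.1))).det ^ 2 =
          x none * (x none * (mt fun p => x (some (p.2, p.1))).det) ^ 2 := by ring
      rw [h6, h5]
      ring
    · rfl
  · intro A _ y hy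
    rw [pt_gls] at hy
    have h3 : (mt fun q => y (Sum.inr (Sum.inl q))) *
        (mt fun q => y (Sum.inr (Sum.inr q))).transpose = 1 := by
      ext i j
      rw [Matrix.mul_apply, Matrix.one_apply]
      exact hy.2 i j
    have h4 := congrArg Matrix.det h3
    rw [Matrix.det_mul, Matrix.det_transpose, Matrix.det_one] at h4
    funext j
    rcases j with j | j | ⟨i, a⟩
    · exact j.elim
    · rfl
    · show (mt fun q => y (Sum.inr (Sum.inr q))).det *
        (mt fun q => y (Sum.inr (Sum.inl q))).adjugate a i = y (Sum.inr (Sum.inr (i, a)))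
      have h5 : (mt fun q => y (Sum.inr (Sum.inl q))).adjugate =
          (mt fun q => y (Sum.inr (Sum.inl q))).det •
          (mt fun q => y (Sum.inr (Sum.inr q))).transpose := by
        rw [← mul_one (mt fun q => y (Sum.inr (Sum.inl q))).adjugate, ← h3, ← mul_assoc,
          Matrix.adjugate_mul, Matrix.smul_mul, one_mul]
      rw [h5, Matrix.smul_apply, smul_eq_mul, ← mul_assoc, mul_comm (Matrix.det _), h4, one_mul]
      rfl

end Pool.Agent.TM
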