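import Pool.Agent.TM.Tor
import Pool.Agent.TM.Bun
import Pool.Agent.TM.Sl3
import Pool.Agent.TM.GrM
import Pool.Agent.TM.GrB
import Pool.Agent.TM.Eqc3
import Pool.Agent.TM.Ev
import Pool.Agent.Helper45.RM.Main

/-!
# Groups of closed 3-manifolds: both questions
-/

set_option autoImplicit false

open AlgebraicGeometry CategoryTheory TopologicalSpace MvPolynomial
open Pool.Agent.Helper81.CP Pool.Agent.Helper81.HG Pool.Agent.Helper45.RM

namespace Pool.Agent.TM

universe u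

/-! ### Systems of equal cross products in classes -/

lemma pt_image {σ τ : Type} {E : Set (MvPolynomial σ ℤ)} {k : σ → τ} {A : Type} [CommRing A]
    {x : τ → A} : Pt (rename k '' E) x ↔ Pt E fun i => x (k i) := by
  simp only [Pt, Set.forall_mem_image, ev_rename]

section
variable {G : ∀ (R : Type) [CommRing R], Prop} (hG : RG G)

include hG

lemma gs_ecs (hS : Sem G) (h0 : GS G (∅ : Set (MvPolynomial Empty ℤ)))
    (h : ∀ (v k : ℕ) (e : Fin k → Fin v × Fin v × Fin v × Fin v), GS G (cupS (muE e)))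
    (V : Type) [Finite V] (E : Set (V × V × V × V)) : GS G (ecS3 E) := by
  obtain ⟨v, ⟨φ⟩⟩ := Finite.exists_equiv_fin V
  obtain ⟨k, ⟨ψ⟩⟩ := Finite.exists_equiv_fin E
  let e : Fin k → Fin v × Fin v × Fin v × Fin v := fun s =>
    (φ (ψ.symm s).1.1, φ (ψ.symm s).1.2.1, φ (ψ.symm s).1.2.2.1, φ (ψ.symm s).1.2.2.2)
  have h1 : GS G (ecS3 (Set.range e)) :=
    hS _ _ _ _ _ _ (fun Q hQ g1 g2 => good_ec_of_cup hQ e g2 g1) (h v k e) h0
  refine (hG.gs_emb (fun p : V × Fin 3 => (φ p.1, p.2)) ?_ (ecS3 E)).1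
    ((hG.gs_congr fun A _ x => ?_).1 h1)
  · rintro ⟨a, i⟩ ⟨b, j⟩ hab
    rw [Prod.mk.injEq] at hab
    exact Prod.ext (φ.injective hab.1) hab.2
  · rw [pt_image, pt_ecs3, pt_ecs3]
    constructor
    · intro hx t ht p
      have h2 := hx (e (ψ ⟨t, ht⟩)) ⟨_, rfl⟩ p
      have h3 : e (ψ ⟨t, ht⟩) = (φ t.1, φ t.2.1, φ t.2.2.1, φ t.2.2.2) := by
        show (φ (ψ.symm (ψ ⟨t, ht⟩)).1.1, φ (ψ.symm (ψ ⟨t, ht⟩)).1.2.1,
          φ (ψ.symm (ψ ⟨t, ht⟩)).1.2.2.1, φ (ψ.symm (ψ ⟨t, ht⟩)).1.2.2.2) = _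
        rw [Equiv.symm_apply_apply]
      rw [h3] at h2
      exact h2
    · rintro hx _ ⟨s, rfl⟩ p
      exact hx (ψ.symm s).1 (ψ.symm s).2 p

end

section
variable {G : ∀ (R : Type) [CommRing R], Prop} (hG : RG G)

include hG

/-! ### Unitriangular representations and alternating forms -/

lemma gs_homS {v k : ℕ} (e : Fin k → Fin v × Fin v × Fin v × Fin v)
    (r : Fin (v + k) → FreeGroup (Fin (v + k)))
    (hr : ∀ (R : Type) [CommRing R] (x : Fin (v + k) × Fin 3 → R) (l : Fin (v + k)),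
      hom x (r l) = uni 0 0 (∑ p, ∑ q, (muE e p q l : R) * (x (p, 0) * x (q, 1)))) :
    GS G (homS r) ↔ GS G (cupS (muE e)) := by
  rw [← hG.gs_emb (Sum.elim (fun i => (i, 0)) fun i => (i, 1) :
    Fin (v + k) ⊕ Fin (v + k) → Fin (v + k) × Fin 3) ?_ (cupS (muE e))]
  · refine hG.gs_congr fun A _ x => ?_
    rw [pt_homs, pt_image]
    unfold cupS Pt
    rw [Set.forall_mem_range]
    refine forall_congr' fun l => ?_
    rw [hr, uni_eq_one]
    simp only [map_sum, map_mul, ev_X, true_and]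
    refine Eq.congr (Finset.sum_congr rfl fun i _ => Finset.sum_congr rfl fun j _ => ?_) rfl
    have h1 : ∀ a : ℤ, ev (fun i => x ((Sum.elim (fun i => (i, 0)) fun i => (i, 1) :
      Fin (v + k) ⊕ Fin (v + k) → Fin (v + k) × Fin 3) i)) (C a) = (a : A) := by
      intro a
      unfold ev
      simp
    rw [h1]
    rfl
  · rintro (i | i) (j | j) hij
    · rw [(Prod.mk.inj hij).1]
    · exact absurd (Prod.mk.inj hij).2 (by decide)
    · exact absurd (Prod.mk.inj hij).2 (by decide)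
    · rw [(Prod.mk.inj hij).1]

/-- unitriangular representations of the groups of mapping tori -/
lemma gs_torus {n : ℕ} {r : Fin n → FreeGroup (Fin n)} {μ : Fin n → Fin n → Fin n → ℤ}
    (hr : ∀ (R : Type) [CommRing R] (x : Fin n × Fin 3 → R) (l : Fin n),
      hom x (r l) = uni 0 0 (∑ p, ∑ q, (μ p q l : R) * (x (p, 0) * x (q, 1))))
    {φ : FreeGroup (Fin n × Bool) ≃* FreeGroup (Fin n × Bool)}
    (h1 : ∀ i, φ (FreeGroup.of (i, false)) = (FreeGroup.map (fun j => (j, false)) (r i))⁻¹ *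
      FreeGroup.of (i, false) * FreeGroup.map (fun j => (j, false)) (r i))
    (h2 : ∀ i, ∃ d, (∀ (G : Type) [Group G] (h : FreeGroup (Fin n × Bool) →* G),
      (∀ j, h ((FreeGroup.map (fun j => (j, false)) (r j))⁻¹ * FreeGroup.of (j, false) *
        FreeGroup.map (fun j => (j, false)) (r j)) = h (FreeGroup.of (j, false))) → h d = 1) ∧
      φ (FreeGroup.of (i, true)) =
        d * FreeGroup.of (i, true) * FreeGroup.map (fun j => (j, false)) (r i)) :
    GS G (homS (torus φ)) ↔ GS G (bunS μ) := by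
  rw [← hG.gs_emb (fun p => (p.1, p.2.castSucc) :
    Option (Fin n × Bool) × Fin 2 → Option (Fin n × Bool) × Fin 3) ?_ (bunS μ)]
  · refine hG.gs_congr fun A _ x => ?_
    rw [pt_image, pt_bun, pt_torus hr h1 h2]
    exact Iff.rfl
  · rintro ⟨a, i⟩ ⟨b, j⟩ hij
    rw [Prod.mk.injEq] at hij
    exact Prod.ext hij.1 (Fin.castSucc_injective _ hij.2)

end

/-! ### The schemes -/

/-- closed subschemes of affine spaces over `ℤ/N` are of finite type -/
lemma zeros_finiteType (N : ℕ) {σ : Type} [Finite σ] (S : Set (MvPolynomial σ ℤ)) :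
    Zeros N S ∈ FiniteType N := by
  set R : Type := MvPolynomial σ ℤ ⧸ Ideal.span (insert (C (N : ℤ)) S) with hR
  have h0 : ((N : ℕ) : R) = 0 := by
    have h1 : (Ideal.Quotient.mk (Ideal.span (insert (C (N : ℤ)) S))) (C (N : ℤ)) = 0 :=
      Ideal.Quotient.eq_zero_iff_mem.2 (Ideal.subset_span (Set.mem_insert _ _))
    have h2 : (C (N : ℤ) : MvPolynomial σ ℤ) = ((N : ℕ) : MvPolynomial σ ℤ) := by simp
    rw [h2, map_natCast] at h1
    exact h1
  obtain ⟨p, hp⟩ := CharP.exists R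
  have hpN : p ∣ N := (CharP.cast_eq_zero_iff R p N).1 h0
  let f : ZMod N →+* R := ZMod.castHom hpN R
  have hft : f.FiniteType := by
    have h1 : (f.comp (Int.castRingHom (ZMod N))).FiniteType := by
      have h2 : f.comp (Int.castRingHom (ZMod N)) = algebraMap ℤ R := Subsingleton.elim _ _
      rw [h2, RingHom.finiteType_algebraMap]
      exact Algebra.FiniteType.of_surjective
        (Ideal.Quotient.mkₐ ℤ (Ideal.span (insert (C (N : ℤ)) S))) Ideal.Quotient.mk_surjective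
    exact RingHom.FiniteType.of_comp_finiteType h1
  refine ⟨Spec.map (CommRingCat.ofHom f), ?_, ?_⟩
  · exact (HasRingHomProperty.Spec_iff (P := @LocallyOfFiniteType)).2 hft
  · exact inferInstanceAs (QuasiCompact (Spec.map (CommRingCat.ofHom f)))

lemma cupProduct_subset (N : ℕ) : CupProduct N ⊆ FiniteType N := by
  rintro _ ⟨n, μ, _, rfl⟩
  exact zeros_finiteType N _

lemma mem_grassmann {N n : ℕ} {μ : Fin n → Fin n → Fin n → ℤ} (hμ : Alt3 μ) :
    Zeros N (grI μ) ∈ GrassmannSection N :=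
  ⟨n, μ, hμ, rfl⟩

lemma grassmann_subset (N : ℕ) : GrassmannSection N ⊆ FiniteType N := by
  rintro _ ⟨n, μ, _, rfl⟩
  exact zeros_finiteType N _

lemma cubic_subset (N : ℕ) : Cubic N ⊆ FiniteType N := by
  rintro _ ⟨n, μ, _, rfl⟩
  exact zeros_finiteType N _

lemma threeManifold_subset (N : ℕ) : ThreeManifold N ⊆ FiniteType N := by
  rintro _ ⟨n, r, _, rfl⟩
  exact zeros_finiteType N _

lemma surfaceBundle_subset (N : ℕ) : SurfaceBundle N ⊆ FiniteType N := by
  rintro _ ⟨g, φ, _, rfl⟩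
  exact zeros_finiteType N _

lemma torelliBundle_subset (N : ℕ) : TorelliBundle N ⊆ SurfaceBundle N := by
  rintro _ ⟨g, φ, h, _, rfl⟩
  exact ⟨g, φ, h, rfl⟩

section

variable {G : Scheme.{0} → Prop} (hG : SG G) {N : ℕ}

include hG

/-- all schemes of finite type from alternating forms -/
lemma cc_all_of_cup (hS : Sem (rg G)) (h0 : GS (md (rg G) N) (∅ : Set (MvPolynomial Empty ℤ)))
    (h : ∀ (v k : ℕ) (e : Fin k → Fin v × Fin v × Fin v × Fin v),
      GS (md (rg G) N) (cupS (muE e))) : CC G (FiniteType N) := by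
  intro X hX
  obtain ⟨n, hn⟩ := exists_fibreDim N X hX
  exact cc_fibreDim hG (fun f => hyp_of_ecs3 (hG.rg.mod N) (Sem.mod hG.rg hS N)
    (gs_ecs (hG.rg.mod N) (Sem.mod hG.rg hS N) h0 h) f) X hn

lemma cc_all_of_cupProduct (hS : Sem (rg G)) (h : CC G (CupProduct N)) :
    CC G (FiniteType N) := by
  refine cc_all_of_cup hG hS ?_ fun v k e => ?_
  · have h1 : GS (md (rg G) N) (cupS (fun _ _ _ => 0 : Fin 0 → Fin 0 → Fin 0 → ℤ)) :=
      (gz hG _).2 (h _ ⟨0, _, fun i => i.elim0, rfl⟩)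
    have h2 : cupS (fun _ _ _ => 0 : Fin 0 → Fin 0 → Fin 0 → ℤ) = ∅ := Set.range_eq_empty _
    rw [h2] at h1
    rw [← (hG.rg.mod N).gs_emb (Empty.elim : Empty → Fin 0 ⊕ Fin 0) (fun x => x.elim),
      Set.image_empty]
    exact h1
  · exact (gz hG _).2 (h _ ⟨v + k, muE e, muE_alt e, rfl⟩)

lemma cc_all_of_grassmann (hS : Sem (rg G)) (h : CC G (GrassmannSection N)) :
    CC G (FiniteType N) := by
  have hS' := Sem.mod hG.rg hS N
  have hg : ∀ {n : ℕ} {I : Type} [Fintype I] [DecidableEq I] (e : I ≃ Fin n)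
      (ν : I → I → I → ℤ), Alt3 ν → GS (md (rg G) N) (grI ν) := by
    intro n I _ _ e ν hν
    let μ : Fin n → Fin n → Fin n → ℤ := fun i j k => ν (e.symm i) (e.symm j) (e.symm k)
    have h1 : GS (md (rg G) N) (grI μ) :=
      (gz hG _).2 (h _ (mem_grassmann fun i j k => hν (e.symm i) (e.symm j) (e.symm k)))
    have h2 : ∀ i j k, ν i j k = μ (e i) (e j) (e k) := fun i j k => by
      show ν i j k = ν (e.symm (e i)) (e.symm (e j)) (e.symm (e k))
      rw [Equiv.symm_apply_apply, Equiv.symm_apply_apply, Equiv.symm_apply_apply]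
    exact hS' _ _ _ _ _ _ (fun Q hQ g1 _ => (good_gr_equiv hQ e ν μ h2).2 g1) h1 h1
  have h0 : GS (md (rg G) N) (∅ : Set (MvPolynomial Empty ℤ)) := by
    have h1 := hg (Equiv.refl (Fin 3)) (fun _ _ _ => 0) fun _ _ _ => ⟨rfl, rfl⟩
    exact hS' _ _ _ _ _ _ (fun Q hQ g1 _ => good_pt_of_gr3 hQ g1) h1 h1
  refine cc_all_of_cup hG hS h0 fun v k e => ?_
  have hμ : Alt3 (muE e) := muE_alt e
  have h1 := hg finSumFinEquiv (mu' (muE e)) (alt_mu' hμ)
  have h2 := hg finSumFinEquiv (fun i j l => mu' (muE e) i j l - nu i j l)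
    ((alt_mu' hμ).sub alt_nu)
  have h3 : GS (md (rg G) N) (wS (mu' (muE e)) nu) :=
    hS' _ _ _ _ _ _ (fun Q hQ g1 g2 => good_w hQ _ g1 g2) h1 h2
  have h4 : GS (md (rg G) N) (zS (muE e)) :=
    hS' _ _ _ _ _ _ (fun Q hQ g1 g2 => good_z hQ hμ g2 g1) h3 h0
  have h5 : GS (md (rg G) N) (cubS (muE e)) :=
    hS' _ _ _ _ _ _ (fun Q hQ g1 g2 => good_cub_of_z hQ hμ g1 g2) h2 h4
  exact hS' _ _ _ _ _ _ (fun Q hQ g1 g2 => (good_cup_iff hQ g2 (muE e)).2 g1) h5 h0

lemma cc_all_of_cubic (hS : Sem (rg G)) (h : CC G (Cubic N)) : CC G (FiniteType N) := by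
  have h0 : GS (md (rg G) N) (∅ : Set (MvPolynomial Empty ℤ)) := by
    have h1 : GS (md (rg G) N) (cubS (el (0 : Fin 3) 1 2)) :=
      (gz hG _).2 (h _ ⟨3, _, el_alt 0 1 2, rfl⟩)
    exact Sem.mod hG.rg hS N _ _ _ _ _ _ (fun Q hQ g1 _ => good_pt_of_sl3 hQ g1) h1 h1
  refine cc_all_of_cup hG hS h0 fun v k e => ?_
  exact Sem.mod hG.rg hS N _ _ _ _ _ _ (fun Q hQ g1 g2 => (good_cup_iff hQ g2 (muE e)).2 g1)
    ((gz hG _).2 (h _ ⟨v + k, muE e, muE_alt e, rfl⟩)) h0

lemma cc_all_of_threeManifold (hS : Sem (rg G)) (h : CC G (ThreeManifold N)) :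
    CC G (FiniteType N) := by
  refine cc_all_of_cup hG hS ?_ fun v k e => ?_
  · have h1 : GS (md (rg G) N) (homS (fun i => i.elim0 : Fin 0 → FreeGroup (Fin 0))) :=
      (gz hG _).2 (h _ ⟨0, _, by unfold IsArtin; simp, rfl⟩)
    have h2 : homS (fun i => i.elim0 : Fin 0 → FreeGroup (Fin 0)) = ∅ := by
      refine Set.eq_empty_of_forall_notMem ?_
      rintro f ⟨j, _⟩
      exact j.elim0
    rw [h2] at h1
    rw [← (hG.rg.mod N).gs_emb (fun x => x.elim : Empty → Fin 0 × Fin 3) (fun x => x.elim),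
      Set.image_empty]
    exact h1
  · obtain ⟨r, hr, h1⟩ := exists_artin e
    exact (gs_homS (hG.rg.mod N) e r h1).1 ((gz hG _).2 (h _ ⟨v + k, r, hr, rfl⟩))

lemma cc_all_of_torelli (hS : Sem (rg G)) (h : CC G (TorelliBundle N)) :
    CC G (FiniteType N) := by
  have h0 : GS (md (rg G) N) (∅ : Set (MvPolynomial Empty ℤ)) := by
    have h1 : GS (md (rg G) N) (homS (torus (MulEquiv.refl (FreeGroup (Fin 0 × Bool))))) :=
      (gz hG _).2 (h _ ⟨0, MulEquiv.refl _, rfl, fun y => by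
        rw [MulEquiv.refl_apply, mul_inv_cancel]
        exact one_mem _, rfl⟩)
    rw [← (hG.rg.mod N).gs_emb
      (fun x => x.elim : Empty → Option (Fin 0 × Bool) × Fin 3) (fun x => x.elim),
      Set.image_empty]
    refine ((hG.rg.mod N).gs_congr fun A _ x => ?_).1 h1
    rw [pt_homs]
    constructor
    · intro _ p hp
      exact absurd hp (Set.notMem_empty p)
    · rintro _ (_ | ⟨i, _⟩)
      · show hom x (FreeGroup.map some (surf 0)) = 1
        unfold surf
        simp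
      · exact i.elim0
  refine cc_all_of_cup hG hS h0 fun v k e => ?_
  obtain ⟨r, φ, h1, h2, h3, h4, h5⟩ := exists_torelli e
  have h6 : GS (md (rg G) N) (bunS (muE e)) :=
    (gs_torus (hG.rg.mod N) h1 h4 h5).1 ((gz hG _).2 (h _ ⟨v + k, φ, h2, h3, rfl⟩))
  exact Sem.mod hG.rg hS N _ _ _ _ _ _ (fun Q hQ g1 g2 => good_cup_of_bun hQ (muE e)
    g2 (muE_alt e) g1) h6 h0

end

lemma controls_of_subset {𝒞 𝒞' : Set Scheme.{0}} (h : 𝒞 ⊆ 𝒞') : Controls.{u} 𝒞' 𝒞 := by
  intro X hX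
  exact ⟨{X}, Set.finite_singleton X, by simpa using h hX, fun hY => hY X rfl,
    fun H _ hY => hY X rfl⟩

/-- the seven classes -/
def Classes (N : ℕ) : Set (Set Scheme.{0}) :=
  {ThreeManifold N, SurfaceBundle N, TorelliBundle N, CupProduct N, Cubic N, GrassmannSection N,
    FiniteType N}

theorem main (N : ℕ) : ∀ 𝒞 ∈ Classes N, ∀ 𝒞' ∈ Classes N, Controls.{u} 𝒞' 𝒞 := by
  have h1 : ∀ 𝒞 ∈ Classes N, 𝒞 ⊆ FiniteType N := by
    rintro 𝒞 (rfl | rfl | rfl | rfl | rfl | rfl | rfl)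
    · exact threeManifold_subset N
    · exact surfaceBundle_subset N
    · exact (torelliBundle_subset N).trans (surfaceBundle_subset N)
    · exact cupProduct_subset N
    · exact cubic_subset N
    · exact grassmann_subset N
    · exact subset_rfl
  have h2 : ∀ 𝒞' ∈ Classes N, Controls.{u} 𝒞' (FiniteType N) := by
    rintro 𝒞' (rfl | rfl | rfl | rfl | rfl | rfl | rfl)
    · exact controls_of_ctl (fun X hX => isFT_of_zmod hX)
        (cc_all_of_threeManifold (sg_ctl _) (sem_ctl _) (cc_self _))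
    · exact controls_of_ctl (fun X hX => isFT_of_zmod hX) (cc_all_of_torelli (sg_ctl _)
        (sem_ctl _) fun X hX => cc_self (SurfaceBundle N) X (torelliBundle_subset N hX))
    · exact controls_of_ctl (fun X hX => isFT_of_zmod hX)
        (cc_all_of_torelli (sg_ctl _) (sem_ctl _) (cc_self _))
    · exact controls_of_ctl (fun X hX => isFT_of_zmod hX)
        (cc_all_of_cupProduct (sg_ctl _) (sem_ctl _) (cc_self _))
    · exact controls_of_ctl (fun X hX => isFT_of_zmod hX)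
        (cc_all_of_cubic (sg_ctl _) (sem_ctl _) (cc_self _))
    · exact controls_of_ctl (fun X hX => isFT_of_zmod hX)
        (cc_all_of_grassmann (sg_ctl _) (sem_ctl _) (cc_self _))
    · exact controls_of_subset subset_rfl
  intro 𝒞 h 𝒞' h' X hX
  exact h2 𝒞' h' X (h1 𝒞 h hX)

end Pool.Agent.TM
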