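import Pool.Agent.TM.Artin

/-!
# The relators of the Artin presentations are in the commutator subgroup
-/

set_option autoImplicit false

namespace Pool.Agent.TM

/-- the exponent sum of the generator with index `j` -/
def expo {n : ℕ} (j : Fin n) : FreeGroup (Fin n) →* Multiplicative ℤ :=
  FreeGroup.lift fun i => Multiplicative.ofAdd (if i = j then 1 else 0)

/-- the one-parameter group of the matrices `uni t 0 0` -/
def line : Multiplicative ℤ →* (Matrix (Fin 3) (Fin 3) ℤ)ˣ where
  toFun t := uni (Multiplicative.toAdd t) 0 0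
  map_one' := by
    apply Units.ext
    ext p q
    fin_cases p <;> fin_cases q <;> simp [uni]
  map_mul' s t := by
    apply Units.ext
    ext p q
    fin_cases p <;> fin_cases q <;> simp [uni, Matrix.mul_apply, Fin.sum_univ_three, add_comm]

/-- the elements with exponent sums zero are in the commutator subgroup -/
lemma mem_commutator_of_expo {n : ℕ} (w : FreeGroup (Fin n)) (h : ∀ j, expo j w = 1) :
    w ∈ commutator (FreeGroup (Fin n)) := by
  rw [← Abelianization.ker_of, MonoidHom.mem_ker]
  have h1 : ∀ j, (AddMonoidHom.toMultiplicative (((Finsupp.applyAddHom j).comp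
      (FreeAbelianGroup.toFinsupp (X := Fin n))))).comp
        (Abelianization.of : FreeGroup (Fin n) →* Abelianization (FreeGroup (Fin n))) =
      expo j := by
    intro j
    ext i
    have h2 := FreeAbelianGroup.toFinsupp_of (X := Fin n) i
    have h3 : FreeAbelianGroup.toFinsupp (X := Fin n) (FreeAbelianGroup.of i) j =
        if i = j then 1 else 0 := by
      rw [h2, Finsupp.single_apply]
    show Multiplicative.ofAdd (FreeAbelianGroup.toFinsupp (FreeAbelianGroup.of i) j) =
      expo j (FreeGroup.of i)
    rw [h3]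
    simp [expo]
  have h4 : FreeAbelianGroup.toFinsupp (X := Fin n)
      (Additive.ofMul (Abelianization.of w)) = 0 := by
    ext j
    have h5 := DFunLike.congr_fun (h1 j) w
    rw [h j] at h5
    exact h5
  have key : ∀ z : FreeAbelianGroup (Fin n), FreeAbelianGroup.toFinsupp z = 0 → z = 0 :=
    fun z hz => (FreeAbelianGroup.equivFinsupp (Fin n)).injective (hz.trans (map_zero _).symm)
  exact key _ h4

/-- an element with central values in the unitriangular group is in the commutator subgroup -/
lemma mem_commutator {n : ℕ} (w : FreeGroup (Fin n))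
    (h : ∀ x : Fin n × Fin 3 → ℤ, ∃ c, hom x w = uni 0 0 c) :
    w ∈ commutator (FreeGroup (Fin n)) := by
  refine mem_commutator_of_expo w fun j => ?_
  have h1 : line.comp (expo j) = hom fun i => if i.2 = 0 ∧ i.1 = j then 1 else 0 := by
    ext i : 1
    simp only [expo, hom, line, MonoidHom.comp_apply, FreeGroup.lift_apply_of, MonoidHom.coe_mk,
      OneHom.coe_mk, toAdd_ofAdd]
    simp
  obtain ⟨c, hc⟩ := h fun i => if i.2 = 0 ∧ i.1 = j then 1 else 0
  rw [← h1] at hc
  have h2 := congrArg (fun g : (Matrix (Fin 3) (Fin 3) ℤ)ˣ => g.val 0 1) hc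
  have h3 : Multiplicative.toAdd (expo j w) = 0 := by
    simpa [line, uni] using h2
  exact h3

/-- **Artin presentations with relators in the commutator subgroup** -/
theorem exists_artin_comm {v k : ℕ} (e : Fin k → Fin v × Fin v × Fin v × Fin v) :
    ∃ r : Fin (v + k) → FreeGroup (Fin (v + k)), IsArtin r ∧
      (∀ l, r l ∈ commutator (FreeGroup (Fin (v + k)))) ∧
      ∀ (R : Type) [CommRing R] (x : Fin (v + k) × Fin 3 → R) (l : Fin (v + k)),
        hom x (r l) = uni 0 0 (∑ p, ∑ q, (muE e p q l : R) * (x (p, 0) * x (q, 1))) := by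
  obtain ⟨r, h1, h2⟩ := exists_artin e
  exact ⟨r, h1, fun l => mem_commutator _ fun x => ⟨_, h2 ℤ x l⟩, h2⟩

end Pool.Agent.TM
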