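import Pool.Agent.TM.Cup

/-!
# The cubic hypersurfaces of alternating forms
-/

set_option autoImplicit false

open MvPolynomial
open Pool.Agent.Helper81.CP Pool.Agent.Helper45.RM

namespace Pool.Agent.TM

variable {Q : ∀ (R : Type) [CommRing R], ℤ → Prop}

lemma pt_cub {n : ℕ} {μ : Fin n → Fin n → Fin n → ℤ} {A : Type} [CommRing A]
    {x : Fin n × Fin 3 → A} : Pt (cubS μ) x ↔
      ∑ i, ∑ j, ∑ k, (μ i j k : A) * (x (i, 0) * x (j, 1) * x (k, 2)) = 1 := by
  unfold cubS Pt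
  simp only [Set.mem_singleton_iff, forall_eq, map_sub, map_sum, map_mul, ev_X, ev_C',
    map_one, sub_eq_zero]

/-- the coordinates -/
def cubE (n : ℕ) : (Fin n ⊕ Fin n) ⊕ Fin n ≃ Fin n × Fin 3 where
  toFun
    | .inl (.inl i) => (i, 0)
    | .inl (.inr i) => (i, 1)
    | .inr i => (i, 2)
  invFun
    | (i, 0) => .inl (.inl i)
    | (i, 1) => .inl (.inr i)
    | (i, 2) => .inr i
  left_inv := by rintro ((t | t) | t) <;> rfl
  right_inv := by rintro ⟨t, c⟩; fin_cases c <;> rfl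

/-- the pairs `(x, y)` with `μ(x, y, ·) = 0` and the triples `(x, y, z)` with `μ(x, y, z) = 1` -/
theorem good_cup_iff (hQ : RingCP Q) (h0 : Good Q (∅ : Set (MvPolynomial Empty ℤ))) {n : ℕ}
    (μ : Fin n → Fin n → Fin n → ℤ) : Good Q (cupS μ) ↔ Good Q (cubS μ) := by
  unfold cupS
  rw [good_range_iff hQ (good_empty hQ h0 _), ← hQ.good_equiv (cubE n)]
  refine hQ.good_congr fun A _ x => ?_
  rw [pt_cub]
  have h3 : Pt (rename (cubE n) '' oneI (fun k => ∑ i, ∑ j, C (μ i j k) *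
      (X (Sum.inl i) * X (Sum.inr j)) : Fin n → MvPolynomial (Fin n ⊕ Fin n) ℤ)) x ↔
      Pt (oneI (fun k => ∑ i, ∑ j, C (μ i j k) *
      (X (Sum.inl i) * X (Sum.inr j)) : Fin n → MvPolynomial (Fin n ⊕ Fin n) ℤ))
        fun i => x (cubE n i) := by
    simp only [Pt, Set.forall_mem_image, ev_rename]
  rw [h3, pt_oneI]
  simp only [map_sum, map_mul, ev_X, ev_C', Finset.mul_sum]
  have h4 : (∑ k, ∑ i, ∑ j, x (cubE n (Sum.inr k)) * ((μ i j k : A) *
      (x (cubE n (Sum.inl (Sum.inl i))) * x (cubE n (Sum.inl (Sum.inr j)))))) =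
      ∑ i, ∑ j, ∑ k, (μ i j k : A) * (x (i, 0) * x (j, 1) * x (k, 2)) := by
    rw [Finset.sum_comm]
    refine Finset.sum_congr rfl fun i _ => ?_
    rw [Finset.sum_comm]
    refine Finset.sum_congr rfl fun j _ => Finset.sum_congr rfl fun k _ => ?_
    show x (k, 2) * ((μ i j k : A) * (x (i, 0) * x (j, 1))) = _
    ring
  rw [h4]

end Pool.Agent.TM
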