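import Pool.Agent.Helper81.HG.Defs

/-!
# Groups of closed 3-manifolds and unitriangular matrices: definitions
-/

set_option autoImplicit false

open AlgebraicGeometry CategoryTheory MvPolynomial
open Pool.Agent.Helper81.HG

namespace Pool.Agent.TM

/-! ### Artin presentations -/

/-- The relators `r_1, ..., r_n` of an Artin presentation: in the free group with generators
`x_1, ..., x_n` one has `∏ r_i⁻¹ x_i r_i = ∏ x_i` (products in the order of the indices).  The
groups `⟨x_1, ..., x_n | r_1, ..., r_n⟩` with this property are exactly the fundamental groups of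
closed connected orientable 3-manifolds (González-Acuña 1975). -/
def IsArtin {n : ℕ} (r : Fin n → FreeGroup (Fin n)) : Prop :=
  (List.ofFn fun i => (r i)⁻¹ * FreeGroup.of i * r i).prod =
    (List.ofFn fun i => (FreeGroup.of i : FreeGroup (Fin n))).prod

/-! ### Unitriangular matrices -/

/-- the unitriangular matrix with entries `a`, `b` beside the diagonal and `c` in the corner -/
def uni {R : Type} [CommRing R] (a b c : R) : (Matrix (Fin 3) (Fin 3) R)ˣ where
  val := !![1, a, c; 0, 1, b; 0, 0, 1]
  inv := !![1, -a, a * b - c; 0, 1, -b; 0, 0, 1]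
  val_inv := by
    ext i j
    fin_cases i <;> fin_cases j <;> simp [Matrix.mul_apply, Fin.sum_univ_three]
    ring
  inv_val := by
    ext i j
    fin_cases i <;> fin_cases j <;> simp [Matrix.mul_apply, Fin.sum_univ_three]
    ring

/-- the homomorphism from the free group with generators `x_i`, `i ∈ I`, which sends `x_i` to the
unitriangular matrix with the entries `x (i, 0)`, `x (i, 1)`, `x (i, 2)` -/
def hom {I R : Type} [CommRing R] (x : I × Fin 3 → R) :
    FreeGroup I →* (Matrix (Fin 3) (Fin 3) R)ˣ :=
  FreeGroup.lift fun i => uni (x (i, 0)) (x (i, 1)) (x (i, 2))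

/-- the scheme of homomorphisms from the group `⟨x_i, i ∈ I | r_j, j ∈ J⟩` to the group scheme
`U₃` of unitriangular `3 × 3` matrices, over `ℤ/m`: the families of such matrices, indexed by `I`,
with `r_j = 1` for all `j` -/
noncomputable def HomU3 (m : ℕ) {I J : Type} (r : J → FreeGroup I) : Scheme.{0} :=
  Zeros m {f : MvPolynomial (I × Fin 3) ℤ | ∃ (j : J) (p q : Fin 3),
    f = ((hom (X : I × Fin 3 → MvPolynomial (I × Fin 3) ℤ) (r j)).val - 1) p q}

/-- the schemes `Hom(π₁ M, U₃)`, `M` a closed connected orientable 3-manifold -/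
def ThreeManifold (m : ℕ) : Set Scheme.{0} :=
  {Y | ∃ (n : ℕ) (r : Fin n → FreeGroup (Fin n)), IsArtin r ∧ Y = HomU3 m r}

/-! ### Surface bundles over the circle -/

/-- the word `[a_1, b_1] ... [a_g, b_g]`, where `[a, b] = a b a⁻¹ b⁻¹`, in the free group with the
generators `a_i = x_(i, false)` and `b_i = x_(i, true)` -/
def surf (g : ℕ) : FreeGroup (Fin g × Bool) :=
  (List.ofFn fun i : Fin g => FreeGroup.of (i, false) * FreeGroup.of (i, true) *
    (FreeGroup.of (i, false))⁻¹ * (FreeGroup.of (i, true))⁻¹).prod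

/-- the relators of the group with the generators `a_i`, `b_i`, `t` and the relations
`[a_1, b_1] ... [a_g, b_g] = 1` and `t y t⁻¹ = φ(y)` for `y = a_i`, `b_i`: the fundamental group of
the mapping torus of the diffeomorphism of the closed surface of genus `g` which induces `φ` -/
def torus {g : ℕ} (φ : FreeGroup (Fin g × Bool) ≃* FreeGroup (Fin g × Bool)) :
    Option (Fin g × Bool) → FreeGroup (Option (Fin g × Bool))
  | none => FreeGroup.map some (surf g)
  | some y => FreeGroup.of none * FreeGroup.of (some y) * (FreeGroup.of none)⁻¹ *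
      (FreeGroup.map some (φ (FreeGroup.of y)))⁻¹

/-- the schemes `Hom(π₁ M, U₃)`, `M` a closed connected orientable surface bundle over the circle.
The automorphisms of the free group with `φ ([a_1, b_1] ... [a_g, b_g]) = [a_1, b_1] ... [a_g, b_g]`
are the mapping classes of the surface of genus `g` with one boundary component
(Dehn-Nielsen-Baer), and every orientation preserving diffeomorphism of the closed surface is
isotopic to one which fixes a disc. -/
def SurfaceBundle (m : ℕ) : Set Scheme.{0} :=
  {Y | ∃ (g : ℕ) (φ : FreeGroup (Fin g × Bool) ≃* FreeGroup (Fin g × Bool)),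
    φ (surf g) = surf g ∧ Y = HomU3 m (torus φ)}

/-- those with monodromy in the Torelli group: it acts trivially on the first homology of the
surface -/
def TorelliBundle (m : ℕ) : Set Scheme.{0} :=
  {Y | ∃ (g : ℕ) (φ : FreeGroup (Fin g × Bool) ≃* FreeGroup (Fin g × Bool)),
    φ (surf g) = surf g ∧ (∀ y, φ y * y⁻¹ ∈ commutator (FreeGroup (Fin g × Bool))) ∧
      Y = HomU3 m (torus φ)}

/-! ### Alternating 3-forms -/

/-- the equations `μ(x, y, ·) = 0` -/
noncomputable def cupS {n : ℕ} (μ : Fin n → Fin n → Fin n → ℤ) :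
    Set (MvPolynomial (Fin n ⊕ Fin n) ℤ) :=
  Set.range fun k => ∑ i, ∑ j, C (μ i j k) * (X (Sum.inl i) * X (Sum.inr j))

/-- the schemes of pairs `(x, y)` with `μ(x, y, ·) = 0` for alternating integer 3-forms `μ`.  The
forms `μ` are exactly the forms `(x, y, z) ↦ (x ∪ y ∪ z)[M]` on `H¹(M, ℤ)`, `M` a closed oriented
3-manifold (Sullivan 1975), and the pairs `(x, y)` are those with `x ∪ y = 0` if `H_1(M, ℤ)` has
no torsion. -/
def CupProduct (m : ℕ) : Set Scheme.{0} :=
  {Y | ∃ (n : ℕ) (μ : Fin n → Fin n → Fin n → ℤ),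
    (∀ i j k, μ i j k = -μ j i k ∧ μ i j k = -μ i k j) ∧ Y = Zeros m (cupS μ)}

/-- the equation `μ(x, y, z) = 1` -/
noncomputable def cubS {n : ℕ} (μ : Fin n → Fin n → Fin n → ℤ) :
    Set (MvPolynomial (Fin n × Fin 3) ℤ) :=
  {∑ i, ∑ j, ∑ k, C (μ i j k) * (X (i, 0) * X (j, 1) * X (k, 2)) - 1}

/-- the affine cubic hypersurfaces `μ(x, y, z) = 1` for alternating integer 3-forms `μ`: the
triples `(x, y, z)` of classes on `M` with `x ∪ y ∪ z` the fundamental class.  They are smooth
over `ℤ/m`, since `μ(x, y, z)` is linear in `z`. -/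
def Cubic (m : ℕ) : Set Scheme.{0} :=
  {Y | ∃ (n : ℕ) (μ : Fin n → Fin n → Fin n → ℤ),
    (∀ i j k, μ i j k = -μ j i k ∧ μ i j k = -μ i k j) ∧ Y = Zeros m (cubS μ)}

/-- the equations for the idempotent matrices `e` of rank three with `μ(e x, e y, e z) = 0` for all
vectors `x, y, z`; the rank of an idempotent matrix is three if `det (1 - T e) = (1 - T)³` -/
noncomputable def grI {I : Type} [Fintype I] [DecidableEq I] (μ : I → I → I → ℤ) :
    Set (MvPolynomial (I × I) ℤ) :=
  let M := Matrix.mvPolynomialX I I ℤ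
  {f | (∃ i j, f = (M * M - M) i j) ∨
    (∃ k, f = (M.charpolyRev - (1 - Polynomial.X) ^ 3).coeff k) ∨
    ∃ a b c, f = ∑ i, ∑ j, ∑ k, C (μ i j k) * (M i a * M j b * M k c)}

/-- the schemes of idempotent `n × n` matrices `e` of rank three with `μ(e x, e y, e z) = 0` for
alternating integer 3-forms `μ`.  The image of `e` is a point of the hyperplane section of the
Grassmannian `Gr(3, n)`, in the Plücker embedding, which is given by `μ`, and the kernel is a
complement of the image: these schemes are affine bundles over the hyperplane sections. -/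
def GrassmannSection (m : ℕ) : Set Scheme.{0} :=
  {Y | ∃ (n : ℕ) (μ : Fin n → Fin n → Fin n → ℤ),
    (∀ i j k, μ i j k = -μ j i k ∧ μ i j k = -μ i k j) ∧ Y = Zeros m (grI μ)}

/-- the schemes of finite type over `ℤ/m` -/
def FiniteType (m : ℕ) : Set Scheme.{0} :=
  {X | ∃ f : X ⟶ Spec (CommRingCat.of (ZMod m)), LocallyOfFiniteType f ∧ QuasiCompact f}

end Pool.Agent.TM
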