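import Pool.Agent.TM.Hyp2
import Pool.Agent.TM.Cub

/-!
# Hyperplane sections of the Grassmannians of planes: definitions and points

An idempotent matrix `e` of rank three is a point of the Grassmannian `Gr(3, n)` (the image of `e`)
with a complement (the kernel); so the idempotent matrices of rank three on whose image an
alternating form `μ` vanishes are an affine bundle over the hyperplane section of `Gr(3, n)` in the
Plücker embedding which is given by `μ`.
-/

set_option autoImplicit false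

open MvPolynomial
open Pool.Agent.Helper81.CP Pool.Agent.Helper45.RM

namespace Pool.Agent.TM

variable {Q : ∀ (R : Type) [CommRing R], ℤ → Prop}

/-- alternating -/
def Alt3 {I : Type} (μ : I → I → I → ℤ) : Prop :=
  ∀ i j k, μ i j k = -μ j i k ∧ μ i j k = -μ i k j

/-- the value of a trilinear form -/
def tri {I A : Type} [Fintype I] [CommRing A] (μ : I → I → I → ℤ) (x y z : I → A) : A :=
  ∑ i, ∑ j, ∑ k, (μ i j k : A) * (x i * y j * z k)

/-- idempotent matrices of rank three -/
def R3 {I A : Type} [Fintype I] [DecidableEq I] [CommRing A] (e : Matrix I I A) : Prop :=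
  e * e = e ∧ e.charpolyRev = (1 - Polynomial.X) ^ 3

/-- the matrix of a point -/
def mx {I J A : Type} (x : I × J → A) : Matrix I J A := Matrix.of fun i j => x (i, j)

section
variable {I A B : Type} [Fintype I] [DecidableEq I] [CommRing A] [CommRing B]

lemma map_charpolyRev (φ : A →+* B) (M : Matrix I I A) :
    M.charpolyRev.map φ = (M.map φ).charpolyRev := by
  unfold Matrix.charpolyRev
  rw [← Polynomial.coe_mapRingHom, RingHom.map_det]
  congr 1
  ext i j
  simp only [RingHom.mapMatrix_apply, Matrix.map_apply, Matrix.sub_apply, Matrix.smul_apply,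
    smul_eq_mul, map_sub, Polynomial.coe_mapRingHom, Matrix.one_apply]
  split_ifs <;> simp

omit [DecidableEq I] in
lemma map_tri (φ : A →+* B) (μ : I → I → I → ℤ) (x y z : I → A) :
    φ (tri μ x y z) = tri μ (fun i => φ (x i)) (fun i => φ (y i)) fun i => φ (z i) := by
  unfold tri
  simp only [map_sum, map_mul, map_intCast]

lemma pt_gr {μ : I → I → I → ℤ} {x : I × I → A} : Pt (grI μ) x ↔
    R3 (mx x) ∧ ∀ a b c, tri μ (fun i => x (i, a)) (fun i => x (i, b)) (fun i => x (i, c)) = 0 := by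
  have hM : (Matrix.mvPolynomialX I I ℤ).map (ev x) = mx x := by
    ext i j
    exact ev_X x (i, j)
  have h1 : ∀ i j, ev x ((Matrix.mvPolynomialX I I ℤ * Matrix.mvPolynomialX I I ℤ -
      Matrix.mvPolynomialX I I ℤ) i j) = (mx x * mx x - mx x) i j := by
    intro i j
    rw [← hM, Matrix.sub_apply, Matrix.sub_apply, map_sub, ← Matrix.map_mul]
    rfl
  have h2 : ∀ k, ev x (((Matrix.mvPolynomialX I I ℤ).charpolyRev -
      (1 - Polynomial.X) ^ 3).coeff k) = ((mx x).charpolyRev - (1 - Polynomial.X) ^ 3).coeff k := by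
    intro k
    rw [← Polynomial.coeff_map, Polynomial.map_sub, map_charpolyRev, hM]
    simp
  have h3 : ∀ a b c, ev x (∑ i, ∑ j, ∑ k, C (μ i j k) *
      (Matrix.mvPolynomialX I I ℤ i a * Matrix.mvPolynomialX I I ℤ j b *
      Matrix.mvPolynomialX I I ℤ k c)) =
      tri μ (fun i => x (i, a)) (fun i => x (i, b)) (fun i => x (i, c)) := by
    intro a b c
    unfold tri
    simp only [map_sum, map_mul, ev_C', Matrix.mvPolynomialX_apply, ev_X]
  unfold grI Pt R3
  constructor
  · intro h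
    refine ⟨⟨?_, ?_⟩, fun a b c => ?_⟩
    · rw [← sub_eq_zero]
      ext i j
      rw [← h1]
      exact h _ (Or.inl ⟨i, j, rfl⟩)
    · rw [← sub_eq_zero]
      ext k
      rw [← h2]
      exact h _ (Or.inr (Or.inl ⟨k, rfl⟩))
    · rw [← h3]
      exact h _ (Or.inr (Or.inr ⟨a, b, c, rfl⟩))
  · rintro ⟨⟨h4, h5⟩, h6⟩ f (⟨i, j, rfl⟩ | ⟨k, rfl⟩ | ⟨a, b, c, rfl⟩)
    · rw [h1, h4, sub_self]
      rfl
    · rw [h2, h5, sub_self]
      rfl
    · rw [h3]
      exact h6 a b c

end

/-! ### Minors -/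

/-- the determinant of three columns -/
def d3 {I A : Type} [CommRing A] (ρ : Matrix (Fin 3) I A) (a b c : I) : A :=
  tri (el (0 : Fin 3) 1 2) (fun p => ρ p a) (fun p => ρ p b) (fun p => ρ p c)

/-! ### The forms -/

/-- the form `μ` on the first summand -/
def mu' {n : ℕ} (μ : Fin n → Fin n → Fin n → ℤ) :
    Fin n ⊕ Fin 3 → Fin n ⊕ Fin 3 → Fin n ⊕ Fin 3 → ℤ
  | .inl i, .inl j, .inl k => μ i j k
  | _, _, _ => 0

/-- the determinant on the second summand -/
def nu {n : ℕ} : Fin n ⊕ Fin 3 → Fin n ⊕ Fin 3 → Fin n ⊕ Fin 3 → ℤ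
  | .inr a, .inr b, .inr c => el (0 : Fin 3) 1 2 a b c
  | _, _, _ => 0

/-- the projection to the second summand -/
def prj {n : ℕ} {A : Type} [CommRing A] : Matrix (Fin 3) (Fin n ⊕ Fin 3) A :=
  Matrix.of fun p i => if i = Sum.inr p then 1 else 0

/-! ### The systems -/

/-- pairs `(t, e)` with `μ(e x, e y, e z) = t ν(e x, e y, e z)` -/
noncomputable def wS {I : Type} [Fintype I] [DecidableEq I] (μ ν : I → I → I → ℤ) :
    Set (MvPolynomial (Option (I × I)) ℤ) :=
  lft (grI fun _ _ _ => 0) ∪ {f | ∃ a b c, f =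
    (∑ i, ∑ j, ∑ k, C (μ i j k) * (X (some (i, a)) * X (some (j, b)) * X (some (k, c)))) -
    X none * ∑ i, ∑ j, ∑ k, C (ν i j k) * (X (some (i, a)) * X (some (j, b)) * X (some (k, c)))}

lemma pt_w {I A : Type} [Fintype I] [DecidableEq I] [CommRing A] {μ ν : I → I → I → ℤ}
    {x : Option (I × I) → A} : Pt (wS μ ν) x ↔ R3 (mx fun q => x (some q)) ∧ ∀ a b c,
      tri μ (fun i => x (some (i, a))) (fun i => x (some (i, b))) (fun i => x (some (i, c))) =
      x none * tri ν (fun i => x (some (i, a))) (fun i => x (some (i, b)))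
        (fun i => x (some (i, c))) := by
  have h0 : Pt (lft (grI fun _ _ _ : I => 0)) x ↔ R3 (mx fun q => x (some q)) := by
    rw [Pt.lft_iff, pt_gr]
    refine and_iff_left fun a b c => ?_
    unfold tri
    simp
  have h1 : Pt (wS μ ν) x ↔ Pt (lft (grI fun _ _ _ : I => 0)) x ∧ ∀ a b c,
      tri μ (fun i => x (some (i, a))) (fun i => x (some (i, b))) (fun i => x (some (i, c))) =
      x none * tri ν (fun i => x (some (i, a))) (fun i => x (some (i, b)))
        (fun i => x (some (i, c))) := by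
    unfold wS Pt tri
    simp only [Set.mem_union, or_imp, forall_and]
    refine and_congr_right fun _ => ?_
    constructor
    · intro h a b c
      have h2 := h _ ⟨a, b, c, rfl⟩
      simp only [map_sub, map_sum, map_mul, ev_C', ev_X] at h2
      exact sub_eq_zero.1 h2
    · rintro h _ ⟨a, b, c, rfl⟩
      simp only [map_sub, map_sum, map_mul, ev_C', ev_X]
      exact sub_eq_zero.2 (h a b c)
  rw [h1, h0]

/-- the values `ν(e x, e y, e z)` -/
noncomputable def nuF {I : Type} [Fintype I] (ν : I → I → I → ℤ) (q : I × I × I) :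
    MvPolynomial (I × I) ℤ :=
  ∑ i, ∑ j, ∑ k, C (ν i j k) * (X (i, q.1) * X (j, q.2.1) * X (k, q.2.2))

lemma ev_nuF {I A : Type} [Fintype I] [CommRing A] {ν : I → I → I → ℤ} (x : I × I → A)
    (q : I × I × I) : ev x (nuF ν q) =
      tri ν (fun i => x (i, q.1)) (fun i => x (i, q.2.1)) (fun i => x (i, q.2.2)) := by
  unfold nuF tri
  simp only [map_sum, map_mul, ev_C', ev_X]

/-- the variables `f`, `h` of the cell -/
abbrev FH (n : ℕ) : Type := (Fin n × Fin 3) ⊕ (Fin 3 × Fin n)

/-- the matrix `(f; 1)` -/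
def sM {n : ℕ} {A : Type} [CommRing A] (x : FH n → A) : Matrix (Fin n ⊕ Fin 3) (Fin 3) A :=
  Matrix.of fun i p => Sum.elim (fun i => x (Sum.inl (i, p))) (fun q => if q = p then 1 else 0) i

/-- the matrix `(h, 1 - h f)` -/
def rM {n : ℕ} {A : Type} [CommRing A] (x : FH n → A) : Matrix (Fin 3) (Fin n ⊕ Fin 3) A :=
  Matrix.of fun p i => Sum.elim (fun i => x (Sum.inr (p, i)))
    (fun q => (if p = q then 1 else 0) - ∑ j, x (Sum.inr (p, j)) * x (Sum.inl (j, q))) i

/-- the minors of `(h, 1 - h f)` -/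
noncomputable def gF (n : ℕ) (q : (Fin n ⊕ Fin 3) × (Fin n ⊕ Fin 3) × (Fin n ⊕ Fin 3)) :
    MvPolynomial (FH n) ℤ :=
  d3 (rM (X : FH n → MvPolynomial (FH n) ℤ)) q.1 q.2.1 q.2.2

lemma ev_gF {n : ℕ} {A : Type} [CommRing A] (x : FH n → A)
    (q : (Fin n ⊕ Fin 3) × (Fin n ⊕ Fin 3) × (Fin n ⊕ Fin 3)) :
    ev x (gF n q) = d3 (rM x) q.1 q.2.1 q.2.2 := by
  have h : ∀ p i, ev x (rM (X : FH n → MvPolynomial (FH n) ℤ) p i) = rM x p i := by
    intro p i
    rcases i with i | i
    · exact ev_X x _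
    · show ev x ((if p = i then 1 else 0) - ∑ j, X (Sum.inr (p, j)) * X (Sum.inl (j, i))) =
        (if p = i then 1 else 0) - ∑ j, x (Sum.inr (p, j)) * x (Sum.inl (j, i))
      simp only [map_sub, map_sum, map_mul, ev_X]
      split_ifs <;> simp
  unfold gF d3
  rw [map_tri]
  simp only [h]

/-- the equation `μ(f) = 1` in the cell -/
noncomputable def cubF {n : ℕ} (μ : Fin n → Fin n → Fin n → ℤ) : Set (MvPolynomial (FH n) ℤ) :=
  rename Sum.inl '' cubS μ

lemma pt_cubF {n : ℕ} {A : Type} [CommRing A] {μ : Fin n → Fin n → Fin n → ℤ} {x : FH n → A} :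
    Pt (cubF μ) x ↔ tri μ (fun i => x (Sum.inl (i, 0))) (fun i => x (Sum.inl (i, 1)))
      (fun i => x (Sum.inl (i, 2))) = 1 := by
  have h : Pt (cubF μ) x ↔ Pt (cubS μ) fun i => x (Sum.inl i) := by
    unfold cubF
    simp only [Pt, Set.forall_mem_image, ev_rename]
  rw [h, pt_cub]
  rfl

end Pool.Agent.TM
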