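import Pool.Agent.TM.GrD
import Pool.Agent.TM.Bun

/-!
# Alternating trilinear forms and products of matrices
-/

set_option autoImplicit false

namespace Pool.Agent.TM

section
variable {I A : Type} [Fintype I] [CommRing A] {μ : I → I → I → ℤ}

lemma tri_bi (μ : I → I → I → ℤ) (x y z : I → A) :
    tri μ x y z = ∑ k, z k * bi (fun i j => μ i j k) x y := by
  unfold tri bi
  simp only [Finset.mul_sum]
  have h1 : ∀ i, (∑ j, ∑ k, (μ i j k : A) * (x i * y j * z k)) =
      ∑ k, ∑ j, (μ i j k : A) * (x i * y j * z k) := fun i => Finset.sum_comm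
  simp only [h1]
  rw [Finset.sum_comm]
  exact Finset.sum_congr rfl fun k _ => Finset.sum_congr rfl fun i _ =>
    Finset.sum_congr rfl fun j _ => by ring

/-- linearity in the first argument -/
lemma tri_sum {K : Type} [Fintype K] (μ : I → I → I → ℤ) (s : I → K → A) (u : K → A)
    (y z : I → A) : tri μ (fun i => ∑ p, s i p * u p) y z =
      ∑ p, u p * tri μ (fun i => s i p) y z := by
  have h : ∀ x : I → A, tri μ x y z = ∑ i, x i * ∑ j, ∑ k, (μ i j k : A) * (y j * z k) := by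
    intro x
    unfold tri
    refine Finset.sum_congr rfl fun i _ => ?_
    rw [Finset.mul_sum]
    refine Finset.sum_congr rfl fun j _ => ?_
    rw [Finset.mul_sum]
    exact Finset.sum_congr rfl fun k _ => by ring
  simp only [h]
  have h1 : ∀ T : I → A, (∑ i, (∑ p, s i p * u p) * T i) = ∑ p, u p * ∑ i, s i p * T i := by
    intro T
    simp only [Finset.sum_mul, Finset.mul_sum]
    rw [Finset.sum_comm]
    exact Finset.sum_congr rfl fun p _ => Finset.sum_congr rfl fun i _ => by ring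
  exact h1 _

lemma tri_swap (hμ : Alt3 μ) (x y z : I → A) : tri μ x y z = -tri μ y x z := by
  unfold tri
  rw [Finset.sum_comm, ← Finset.sum_neg_distrib]
  refine Finset.sum_congr rfl fun i _ => ?_
  rw [← Finset.sum_neg_distrib]
  refine Finset.sum_congr rfl fun j _ => ?_
  rw [← Finset.sum_neg_distrib]
  refine Finset.sum_congr rfl fun k _ => ?_
  rw [(hμ j i k).1]
  push_cast
  ring

lemma tri_swap' (hμ : Alt3 μ) (x y z : I → A) : tri μ x y z = -tri μ x z y := by
  unfold tri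
  rw [← Finset.sum_neg_distrib]
  refine Finset.sum_congr rfl fun i _ => ?_
  rw [Finset.sum_comm, ← Finset.sum_neg_distrib]
  refine Finset.sum_congr rfl fun j _ => ?_
  rw [← Finset.sum_neg_distrib]
  refine Finset.sum_congr rfl fun k _ => ?_
  rw [(hμ i k j).2]
  push_cast
  ring

lemma tri_self (hμ : Alt3 μ) (x z : I → A) : tri μ x x z = 0 := by
  rw [tri_bi]
  refine Finset.sum_eq_zero fun k _ => ?_
  rw [bi_self fun i j => (hμ i j k).1, mul_zero]

lemma tri_self' (hμ : Alt3 μ) (x y : I → A) : tri μ x y y = 0 := by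
  rw [tri_swap hμ, tri_swap' hμ, tri_self hμ, neg_zero, neg_zero]

lemma tri_self'' (hμ : Alt3 μ) (x y : I → A) : tri μ x y x = 0 := by
  rw [tri_swap' hμ, tri_self hμ, neg_zero]

lemma tri_sum2 (hμ : Alt3 μ) {K : Type} [Fintype K] (s : I → K → A) (u : K → A)
    (x z : I → A) : tri μ x (fun i => ∑ p, s i p * u p) z =
      ∑ p, u p * tri μ x (fun i => s i p) z := by
  rw [tri_swap hμ, tri_sum, ← Finset.sum_neg_distrib]
  refine Finset.sum_congr rfl fun p _ => ?_
  rw [tri_swap hμ x]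
  ring

lemma tri_sum3 (hμ : Alt3 μ) {K : Type} [Fintype K] (s : I → K → A) (u : K → A)
    (x y : I → A) : tri μ x y (fun i => ∑ p, s i p * u p) =
      ∑ p, u p * tri μ x y (fun i => s i p) := by
  rw [tri_swap' hμ, tri_sum2 hμ, ← Finset.sum_neg_distrib]
  refine Finset.sum_congr rfl fun p _ => ?_
  rw [tri_swap' hμ x y]
  ring

lemma d3_eq (ρ : Matrix (Fin 3) I A) (a b c : I) : d3 ρ a b c =
    ρ 0 a * ρ 1 b * ρ 2 c + ρ 1 a * ρ 2 b * ρ 0 c + ρ 2 a * ρ 0 b * ρ 1 c -
    ρ 1 a * ρ 0 b * ρ 2 c - ρ 0 a * ρ 2 b * ρ 1 c - ρ 2 a * ρ 1 b * ρ 0 c := by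
  have h : ∀ i j k : Fin 3, el (0 : Fin 3) 1 2 i j k =
      (![![![0, 0, 0], ![0, 0, 1], ![0, -1, 0]], ![![0, 0, -1], ![0, 0, 0], ![1, 0, 0]],
        ![![0, 1, 0], ![-1, 0, 0], ![0, 0, 0]]] : Fin 3 → Fin 3 → Fin 3 → ℤ) i j k := by
    decide
  unfold d3 tri
  simp only [Fin.sum_univ_three, h]
  simp
  ring

/-- **Alternating forms and products of matrices.** -/
theorem tri_mul (hμ : Alt3 μ) (s : Matrix I (Fin 3) A) (ρ : Matrix (Fin 3) I A) (a b c : I) :
    tri μ (fun i => (s * ρ) i a) (fun i => (s * ρ) i b) (fun i => (s * ρ) i c) =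
      tri μ (fun i => s i 0) (fun i => s i 1) (fun i => s i 2) * d3 ρ a b c := by
  simp only [Matrix.mul_apply]
  rw [tri_sum]
  have h1 : ∀ p, tri μ (fun i => s i p) (fun i => ∑ q, s i q * ρ q b)
      (fun i => ∑ r, s i r * ρ r c) = ∑ q, ρ q b * ∑ r, ρ r c *
        tri μ (fun i => s i p) (fun i => s i q) (fun i => s i r) := by
    intro p
    rw [tri_sum2 hμ]
    exact Finset.sum_congr rfl fun q _ => by rw [tri_sum3 hμ]
  simp only [h1]
  simp only [Fin.sum_univ_three, tri_self hμ, tri_self' hμ, tri_self'' hμ]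
  have e1 : tri μ (fun i => s i 0) (fun i => s i 2) (fun i => s i 1) =
      -tri μ (fun i => s i 0) (fun i => s i 1) (fun i => s i 2) := tri_swap' hμ _ _ _
  have e2 : tri μ (fun i => s i 1) (fun i => s i 0) (fun i => s i 2) =
      -tri μ (fun i => s i 0) (fun i => s i 1) (fun i => s i 2) := tri_swap hμ _ _ _
  have e3 : tri μ (fun i => s i 1) (fun i => s i 2) (fun i => s i 0) =
      tri μ (fun i => s i 0) (fun i => s i 1) (fun i => s i 2) := by
    rw [tri_swap' hμ, e2, neg_neg]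
  have e4 : tri μ (fun i => s i 2) (fun i => s i 0) (fun i => s i 1) =
      tri μ (fun i => s i 0) (fun i => s i 1) (fun i => s i 2) := by
    rw [tri_swap hμ, e1, neg_neg]
  have e5 : tri μ (fun i => s i 2) (fun i => s i 1) (fun i => s i 0) =
      -tri μ (fun i => s i 0) (fun i => s i 1) (fun i => s i 2) := by
    rw [tri_swap hμ, e3]
  rw [e1, e2, e3, e4, e5, d3_eq]
  ring

omit [Fintype I] in
lemma d3_eq_det (ρ : Matrix (Fin 3) I A) (a b c : I) :
    d3 ρ a b c = (Matrix.of fun p q => ρ p (![a, b, c] q)).det := by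
  have h : ∀ i j k : Fin 3, el (0 : Fin 3) 1 2 i j k =
      (![![![0, 0, 0], ![0, 0, 1], ![0, -1, 0]], ![![0, 0, -1], ![0, 0, 0], ![1, 0, 0]],
        ![![0, 1, 0], ![-1, 0, 0], ![0, 0, 0]]] : Fin 3 → Fin 3 → Fin 3 → ℤ) i j k := by
    decide
  rw [Matrix.det_fin_three]
  unfold d3 tri
  simp only [Fin.sum_univ_three, h]
  simp
  ring

/-- the minors of a matrix with a right inverse -/
lemma d3_unimodular (ρ : Matrix (Fin 3) I A) (s : Matrix I (Fin 3) A) (h : ρ * s = 1)
    (h0 : ∀ a b c, d3 ρ a b c = 0) : (1 : A) = 0 := by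
  have h1 : ∀ p q, (∑ i, ρ p i * s i q) = (1 : Matrix (Fin 3) (Fin 3) A) p q := by
    intro p q
    rw [← h, Matrix.mul_apply]
  have hel : Alt3 (el (0 : Fin 3) 1 2) := fun i j k => by
    revert i j k
    decide
  have h2 : tri (el (0 : Fin 3) 1 2) (fun p => ∑ i, ρ p i * s i 0) (fun p => ∑ i, ρ p i * s i 1)
      (fun p => ∑ i, ρ p i * s i 2) = 0 := by
    rw [tri_sum]
    simp only [tri_sum2 hel, tri_sum3 hel]
    refine Finset.sum_eq_zero fun i _ => ?_
    refine mul_eq_zero_of_right _ (Finset.sum_eq_zero fun j _ => ?_)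
    refine mul_eq_zero_of_right _ (Finset.sum_eq_zero fun k _ => ?_)
    exact mul_eq_zero_of_right _ (h0 i j k)
  have h3 : tri (el (0 : Fin 3) 1 2) (fun p => (1 : Matrix (Fin 3) (Fin 3) A) p 0)
      (fun p => (1 : Matrix (Fin 3) (Fin 3) A) p 1)
      (fun p => (1 : Matrix (Fin 3) (Fin 3) A) p 2) = 1 := by
    have h4 := d3_eq (1 : Matrix (Fin 3) (Fin 3) A) 0 1 2
    unfold d3 at h4
    rw [h4]
    simp
  simp only [h1] at h2
  exact h3.symm.trans h2

end

end Pool.Agent.TM
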