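import Pool.Agent.TM.GrD

/-!
# Hyperplane sections of the Grassmannians of planes: the pencil of two forms
-/

set_option autoImplicit false

open MvPolynomial
open Pool.Agent.Helper81.CP Pool.Agent.Helper45.RM

namespace Pool.Agent.TM

variable {Q : ∀ (R : Type) [CommRing R], ℤ → Prop}

section
variable {I J A : Type} [Fintype I] [DecidableEq I] [Fintype J] [DecidableEq J] [CommRing A]

/-- conjugates of idempotent matrices of rank three -/
lemma R3.conj {e D D' : Matrix I I A} (h : R3 e) (h1 : D * D' = 1) (h2 : D' * D = 1) :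
    R3 (D * e * D') := by
  refine ⟨?_, ?_⟩
  · calc D * e * D' * (D * e * D') = D * e * (D' * D) * e * D' := by
          simp only [Matrix.mul_assoc]
      _ = D * (e * e) * D' := by rw [h2, Matrix.mul_one, Matrix.mul_assoc D e e]
      _ = D * e * D' := by rw [h.1]
  · have h3 := Matrix.charpoly_units_conj (⟨D, D', h1, h2⟩ : (Matrix I I A)ˣ) e
    have h4 : (D * e * D').charpoly = e.charpoly := by
      rw [← h3, Matrix.inv_eq_right_inv h1]
    rw [← Matrix.reverse_charpoly, h4, Matrix.reverse_charpoly, h.2]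

/-- renumbered idempotent matrices of rank three -/
lemma R3.reindex {e : Matrix I I A} (h : R3 e) (s : I ≃ J) :
    R3 (Matrix.reindex s s e) := by
  refine ⟨?_, ?_⟩
  · rw [Matrix.reindex_apply, Matrix.submatrix_mul_equiv, h.1]
  · rw [← Matrix.reverse_charpoly, Matrix.charpoly_reindex, Matrix.reverse_charpoly, h.2]

omit [DecidableEq I] in
/-- diagonal transformations of a form -/
lemma tri_scale {μ : I → I → I → ℤ} {d : I → A} {c : A}
    (h : ∀ i j k, (μ i j k : A) * (d i * d j * d k) = c * μ i j k) (x y z : I → A)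
    (α β γ : A) : tri μ (fun i => d i * x i * α) (fun i => d i * y i * β)
      (fun i => d i * z i * γ) = α * β * γ * (c * tri μ x y z) := by
  unfold tri
  simp only [Finset.mul_sum]
  refine Finset.sum_congr rfl fun i _ => Finset.sum_congr rfl fun j _ =>
    Finset.sum_congr rfl fun k _ => ?_
  calc (μ i j k : A) * (d i * x i * α * (d j * y j * β) * (d k * z k * γ)) =
        ((μ i j k : A) * (d i * d j * d k)) * (x i * y j * z k) * (α * β * γ) := by ring
    _ = _ := by rw [h]; ring

omit [DecidableEq I] [DecidableEq J] in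
/-- renumbering the basis -/
lemma tri_equiv (s : I ≃ J) {ν : I → I → I → ℤ} {μ : J → J → J → ℤ}
    (h : ∀ i j k, ν i j k = μ (s i) (s j) (s k)) (x y z : J → A) :
    tri ν (fun i => x (s i)) (fun i => y (s i)) (fun i => z (s i)) = tri μ x y z := by
  unfold tri
  rw [← s.sum_comp]
  refine Finset.sum_congr rfl fun i _ => ?_
  rw [← s.sum_comp]
  refine Finset.sum_congr rfl fun j _ => ?_
  rw [← s.sum_comp]
  exact Finset.sum_congr rfl fun k _ => by rw [h]

omit [DecidableEq I] in
lemma tri_sub (μ ν : I → I → I → ℤ) (x y z : I → A) :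
    tri (fun i j k => μ i j k - ν i j k) x y z = tri μ x y z - tri ν x y z := by
  unfold tri
  rw [← Finset.sum_sub_distrib]
  refine Finset.sum_congr rfl fun i _ => ?_
  rw [← Finset.sum_sub_distrib]
  refine Finset.sum_congr rfl fun j _ => ?_
  rw [← Finset.sum_sub_distrib]
  refine Finset.sum_congr rfl fun k _ => ?_
  push_cast
  ring

end

/-! ### Renumbering -/

theorem good_gr_equiv (hQ : RingCP Q) {n : ℕ} {I : Type} [Fintype I] [DecidableEq I]
    (e : I ≃ Fin n) (ν : I → I → I → ℤ) (μ : Fin n → Fin n → Fin n → ℤ)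
    (h : ∀ i j k, ν i j k = μ (e i) (e j) (e k)) : Good Q (grI ν) ↔ Good Q (grI μ) := by
  refine forall_congr' fun s => ?_
  refine hQ.qs_iso (fun A _ x q => x (e.symm q.1, e.symm q.2)) (fun A _ y q => y (e q.1, e q.2))
    ?_ ?_ ?_ ?_ ?_ ?_ s
  · intro A B _ _ φ x _ j; rfl
  · intro A B _ _ φ y _ j; rfl
  · intro A _ x hx
    rw [pt_gr] at hx ⊢
    refine ⟨hx.1.reindex e, fun a b c => ?_⟩
    rw [← hx.2 (e.symm a) (e.symm b) (e.symm c), ← tri_equiv e h]
    simp only [Equiv.symm_apply_apply]
  · intro A _ y hy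
    rw [pt_gr] at hy ⊢
    refine ⟨?_, fun a b c => ?_⟩
    · have h1 := hy.1.reindex e.symm
      exact h1
    · rw [← hy.2 (e a) (e b) (e c)]
      exact tri_equiv e h (fun i => y (i, e a)) (fun i => y (i, e b)) fun i => y (i, e c)
  · intro A _ x _
    funext q
    simp only [Equiv.symm_apply_apply]
  · intro A _ y _
    funext q
    simp only [Equiv.apply_symm_apply]

/-! ### The pencil -/

/-- the entries of the diagonal matrix `(1, …, 1, t)` -/
def dgn {n : ℕ} {A : Type} [CommRing A] (t : A) (i : Fin n ⊕ Fin 3) : A :=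
  if i = Sum.inr 2 then t else 1

section
variable {n : ℕ} {A : Type} [CommRing A]

lemma map_dgn {B : Type} [CommRing B] (φ : A →+* B) (t : A) (i : Fin n ⊕ Fin 3) :
    φ (dgn t i) = dgn (φ t) i := by
  unfold dgn
  split_ifs
  · rfl
  · exact map_one φ

lemma dgn_mul {t u : A} (h : u * t = 1) (i : Fin n ⊕ Fin 3) : dgn u i * dgn t i = 1 := by
  unfold dgn
  split_ifs
  · exact h
  · exact one_mul 1

lemma diag_mul {t u : A} (h : u * t = 1) :
    Matrix.diagonal (dgn u : Fin n ⊕ Fin 3 → A) * Matrix.diagonal (dgn t) = 1 := by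
  rw [Matrix.diagonal_mul_diagonal]
  simp only [dgn_mul h]
  exact Matrix.diagonal_one

lemma mu'_dgn (μ : Fin n → Fin n → Fin n → ℤ) (t : A) (i j k : Fin n ⊕ Fin 3) :
    (mu' μ i j k : A) * (dgn t i * dgn t j * dgn t k) = 1 * mu' μ i j k := by
  rcases i with i | i <;> rcases j with j | j <;> rcases k with k | k <;>
    simp [mu', dgn]

lemma nu_dgn (t : A) (i j k : Fin n ⊕ Fin 3) :
    ((nu i j k : ℤ) : A) * (dgn t i * dgn t j * dgn t k) = t * ((nu i j k : ℤ) : A) := by
  rcases i with i | i
  · simp [nu]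
  rcases j with j | j
  · simp [nu]
  rcases k with k | k
  · simp [nu]
  fin_cases i <;> fin_cases j <;> fin_cases k <;> simp [nu, dgn, el]

/-- conjugation by the diagonal matrix -/
def cnj (t u : A) (x : (Fin n ⊕ Fin 3) × (Fin n ⊕ Fin 3) → A)
    (q : (Fin n ⊕ Fin 3) × (Fin n ⊕ Fin 3)) : A := dgn t q.1 * x q * dgn u q.2

lemma mx_cnj (t u : A) (x : (Fin n ⊕ Fin 3) × (Fin n ⊕ Fin 3) → A) :
    mx (cnj t u x) = Matrix.diagonal (dgn t) * mx x * Matrix.diagonal (dgn u) := by
  ext i j
  rw [Matrix.mul_diagonal, Matrix.diagonal_mul]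
  rfl

lemma map_cnj {B : Type} [CommRing B] (φ : A →+* B) (t u : A)
    (x : (Fin n ⊕ Fin 3) × (Fin n ⊕ Fin 3) → A) (q : (Fin n ⊕ Fin 3) × (Fin n ⊕ Fin 3)) :
    φ (cnj t u x q) = cnj (φ t) (φ u) (fun q => φ (x q)) q := by
  unfold cnj
  rw [map_mul, map_mul, map_dgn, map_dgn]

lemma cnj_cnj {t u : A} (h : u * t = 1) (x : (Fin n ⊕ Fin 3) × (Fin n ⊕ Fin 3) → A) :
    cnj u t (cnj t u x) = x := by
  funext q
  unfold cnj
  calc dgn u q.1 * (dgn t q.1 * x q * dgn u q.2) * dgn t q.2 =
        (dgn u q.1 * dgn t q.1) * x q * (dgn u q.2 * dgn t q.2) := by ring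
    _ = x q := by rw [dgn_mul h, dgn_mul h, one_mul, mul_one]

lemma r3_cnj {t u : A} (h : u * t = 1) {x : (Fin n ⊕ Fin 3) × (Fin n ⊕ Fin 3) → A}
    (hx : R3 (mx x)) : R3 (mx (cnj t u x)) := by
  rw [mx_cnj]
  have h' : t * u = 1 := by rw [mul_comm, h]
  exact hx.conj (diag_mul h') (diag_mul h)

end

theorem good_w (hQ : RingCP Q) {n : ℕ} (μ : Fin n → Fin n → Fin n → ℤ)
    (h1 : Good Q (grI (mu' μ))) (h2 : Good Q (grI fun i j k => mu' μ i j k - nu i j k)) :
    Good Q (wS (mu' μ) (nu (n := n))) := by
  have hfree : ∀ (E : Set (MvPolynomial ((Fin n ⊕ Fin 3) × (Fin n ⊕ Fin 3)) ℤ))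
      (A : Type) [CommRing A] (x y : Option ((Fin n ⊕ Fin 3) × (Fin n ⊕ Fin 3)) → A),
      (∀ i, i ≠ none → y i = x i) → Pt (lft E) x → Pt (lft E) y := by
    intro E A _ x y hxy hx
    rw [Pt.lft_iff] at hx ⊢
    have h3 : (fun i => y (some i)) = fun i => x (some i) :=
      funext fun i => hxy (some i) (by simp)
    rw [h3]
    exact hx
  intro s
  refine hQ.glue' (p := X none) ?_ ?_
  · have h3 := (hQ.good_free (lft (grI (mu' μ))) none (hfree _)).1 ((hQ.good_line _).2 h1) s
    refine (hQ.qs_congr (fun A _ x => ?_) s).1 h3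
    rw [Pt.insert_iff, Pt.insert_iff, Pt.lft_iff, pt_gr, pt_w, ev_X]
    refine and_congr_right fun h4 => and_congr_right fun _ => ?_
    simp only [h4, zero_mul]
  · have h3 := (hQ.good_free_opn (lft (grI fun i j k => mu' μ i j k - nu i j k)) none
      (hfree _)).1 ((hQ.good_line _).2 h2) s
    refine (hQ.qs_iso
      (fun A _ y o => o.elim (y none) fun o' => o'.elim (y (some none))
        (cnj (y none) (y (some none)) fun q => y (some (some q))))
      (fun A _ x o => o.elim (x none) fun o' => o'.elim (x (some none))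
        (cnj (x (some none)) (x none) fun q => x (some (some q)))) ?_ ?_ ?_ ?_ ?_ ?_ s).1 h3
    · intro A B _ _ φ y _ j
      rcases j with _ | _ | q
      · rfl
      · rfl
      · exact map_cnj φ (y none) (y (some none)) (fun q => y (some (some q))) q
    · intro A B _ _ φ x _ j
      rcases j with _ | _ | q
      · rfl
      · rfl
      · exact map_cnj φ (x (some none)) (x none) (fun q => x (some (some q))) q
    · intro A _ y hy
      rw [Pt.dop_iff, Pt.lft_iff, pt_gr, ev_X] at hy
      obtain ⟨h4, h5, h6⟩ := hy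
      have h4' : y (some none) * y none = 1 := by rw [mul_comm, h4]
      rw [Pt.dop_iff, pt_w, ev_X]
      refine ⟨h4, r3_cnj h4' h5, fun a b c => ?_⟩
      have h7 := h6 a b c
      rw [tri_sub, sub_eq_zero] at h7
      show tri (mu' μ) (fun i => dgn (y none) i * y (some (some (i, a))) * dgn (y (some none)) a)
          (fun i => dgn (y none) i * y (some (some (i, b))) * dgn (y (some none)) b)
          (fun i => dgn (y none) i * y (some (some (i, c))) * dgn (y (some none)) c) =
        y (some none) * tri nu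
          (fun i => dgn (y none) i * y (some (some (i, a))) * dgn (y (some none)) a)
          (fun i => dgn (y none) i * y (some (some (i, b))) * dgn (y (some none)) b)
          (fun i => dgn (y none) i * y (some (some (i, c))) * dgn (y (some none)) c)
      rw [tri_scale (mu'_dgn μ (y none)), tri_scale (nu_dgn (y none)), h7]
      linear_combination (-(dgn (y (some none)) a * dgn (y (some none)) b *
        dgn (y (some none)) c * tri nu (fun i => y (some (some (i, a))))
        (fun i => y (some (some (i, b)))) (fun i => y (some (some (i, c)))))) * h4'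
    · intro A _ x hx
      rw [Pt.dop_iff, pt_w, ev_X] at hx
      obtain ⟨h4, h5, h6⟩ := hx
      rw [Pt.dop_iff, Pt.lft_iff, pt_gr, ev_X]
      refine ⟨h4, r3_cnj h4 h5, fun a b c => ?_⟩
      have h7 := h6 a b c
      rw [tri_sub, sub_eq_zero]
      show tri (mu' μ) (fun i => dgn (x (some none)) i * x (some (some (i, a))) * dgn (x none) a)
          (fun i => dgn (x (some none)) i * x (some (some (i, b))) * dgn (x none) b)
          (fun i => dgn (x (some none)) i * x (some (some (i, c))) * dgn (x none) c) =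
        tri nu
          (fun i => dgn (x (some none)) i * x (some (some (i, a))) * dgn (x none) a)
          (fun i => dgn (x (some none)) i * x (some (some (i, b))) * dgn (x none) b)
          (fun i => dgn (x (some none)) i * x (some (some (i, c))) * dgn (x none) c)
      rw [tri_scale (mu'_dgn μ (x (some none))), tri_scale (nu_dgn (x (some none))), h7, one_mul]
    · intro A _ y hy
      rw [Pt.dop_iff, ev_X] at hy
      have h4' : y (some none) * y none = 1 := by rw [mul_comm, hy.1]
      funext j
      rcases j with _ | _ | q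
      · rfl
      · rfl
      · exact congrFun (cnj_cnj h4' fun q => y (some (some q))) q
    · intro A _ x hx
      rw [Pt.dop_iff, ev_X] at hx
      funext j
      rcases j with _ | _ | q
      · rfl
      · rfl
      · exact congrFun (cnj_cnj hx.1 fun q => x (some (some q))) q

end Pool.Agent.TM
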