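import Pool.Agent.TM.Defs
import Pool.Agent.Helper45.RM.Cls

/-!
# Homomorphisms to the unitriangular group scheme: points of the equations
-/

set_option autoImplicit false

open MvPolynomial
open Pool.Agent.Helper81.CP Pool.Agent.Helper81.HG Pool.Agent.Helper45.RM

namespace Pool.Agent.TM

/-- the equations of the scheme of homomorphisms -/
noncomputable def homS {I J : Type} (r : J → FreeGroup I) : Set (MvPolynomial (I × Fin 3) ℤ) :=
  {f | ∃ (j : J) (p q : Fin 3),
    f = ((hom (X : I × Fin 3 → MvPolynomial (I × Fin 3) ℤ) (r j)).val - 1) p q}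

lemma map_uni {A B : Type} [CommRing A] [CommRing B] (φ : A →+* B) (a b c : A) (p q : Fin 3) :
    φ ((uni a b c).val p q) = (uni (φ a) (φ b) (φ c)).val p q := by
  unfold uni
  fin_cases p <;> fin_cases q <;> simp

/-- naturality -/
lemma map_hom {I A B : Type} [CommRing A] [CommRing B] (φ : A →+* B) (x : I × Fin 3 → A)
    (g : FreeGroup I) (p q : Fin 3) :
    φ ((hom x g).val p q) = (hom (fun i => φ (x i)) g).val p q := by
  have h : (Units.map (φ.mapMatrix : Matrix (Fin 3) (Fin 3) A →+* Matrix (Fin 3) (Fin 3) B).toMonoidHom).comp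
      (hom x) = hom fun i => φ (x i) := by
    ext i p q
    simp only [hom, MonoidHom.comp_apply, FreeGroup.lift_apply_of]
    exact map_uni φ _ _ _ p q
  rw [← h]
  rfl

lemma pt_homs {I J : Type} {r : J → FreeGroup I} {A : Type} [CommRing A]
    {x : I × Fin 3 → A} : Pt (homS r) x ↔ ∀ j, hom x (r j) = 1 := by
  have key : ∀ j p q, ev x (((hom (X : I × Fin 3 → MvPolynomial (I × Fin 3) ℤ)
      (r j)).val - 1) p q) = (hom x (r j)).val p q - (1 : Matrix (Fin 3) (Fin 3) A) p q := by
    intro j p q
    rw [Matrix.sub_apply, map_sub, map_hom]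
    simp only [ev_X]
    congr 1
    rw [Matrix.one_apply, Matrix.one_apply]
    split_ifs
    · exact map_one _
    · exact map_zero _
  constructor
  · intro h j
    refine Units.ext (Matrix.ext fun p q => ?_)
    have h1 := h _ ⟨j, p, q, rfl⟩
    rw [key, sub_eq_zero] at h1
    exact h1
  · rintro h _ ⟨j, p, q, rfl⟩
    rw [key, h j]
    exact sub_self _

lemma uni_eq_one {R : Type} [CommRing R] {a b c : R} : uni a b c = 1 ↔ a = 0 ∧ b = 0 ∧ c = 0 := by
  constructor
  · intro h
    have h1 : ∀ p q, (uni a b c).val p q = (1 : Matrix (Fin 3) (Fin 3) R) p q := by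
      intro p q
      rw [h]
      rfl
    refine ⟨?_, ?_, ?_⟩
    · simpa [uni] using h1 0 1
    · simpa [uni] using h1 1 2
    · simpa [uni] using h1 0 2
  · rintro ⟨rfl, rfl, rfl⟩
    refine Units.ext (Matrix.ext fun p q => ?_)
    fin_cases p <;> fin_cases q <;> simp [uni]

end Pool.Agent.TM
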