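import Pool.Agent.Helper45.RM.Gln

/-!
# Reduction of a vector by the general linear group, converse directions
-/

set_option autoImplicit false

open MvPolynomial
open Pool.Agent.Helper81.CP Pool.Agent.Helper45.RM

namespace Pool.Agent.TM

variable {Q : ∀ (R : Type) [CommRing R], ℤ → Prop}

section
variable (hQ : RingCP Q) {σ : Type} [Finite σ]
  {E : Set (MvPolynomial σ ℤ)} {m : ℕ} (w : Fin (m + 1) → MvPolynomial σ ℤ)

include hQ

/-- products of the slice with affine spaces -/
lemma good_cs (h : Good Q (UW E w)) (k : ℕ) (hk : k ≤ m + 1) : Good Q (CS E w k) := by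
  intro s
  have h1 := (qs_cs hQ (E := E) w (m + 1 - k) k (by omega) (s - (m + 1 - k : ℕ))).2 (h _)
  rwa [sub_add_cancel] at h1

/-- the strata -/
lemma good_stratum (α : Act E w) (h : Good Q (UW E w)) (k : Fin (m + 1)) :
    Good Q (dop (w k) (FW E w k)) := by
  intro s
  rw [qs_stratum hQ w α k s]
  refine hQ.opn' (good_cs hQ w h k (by omega) s) ?_
  refine (hQ.qs_congr (fun A _ x => ?_) s).1 (good_cs hQ w h (k + 1) (by omega) s)
  rw [Pt.insert_iff, pt_cs, pt_cs, ev_X]
  constructor
  · rintro ⟨h1, h2⟩
    exact ⟨h2 k (Nat.lt_succ_self _), h1, fun i hi => h2 i (Nat.lt_succ_of_lt hi)⟩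
  · rintro ⟨h1, h2, h3⟩
    refine ⟨h2, fun i hi => ?_⟩
    rcases Nat.lt_succ_iff_lt_or_eq.1 hi with h | h
    · exact h3 i h
    · rw [Fin.ext h]; exact h1

lemma good_fw_down (α : Act E w) (h : Good Q (UW E w)) (h0 : Good Q (FW E w (m + 1))) (j : ℕ) :
    ∀ k : ℕ, k + j = m + 1 → Good Q (FW E w k) := by
  induction j with
  | zero =>
    intro k hk
    rw [Nat.add_zero] at hk
    rw [hk]
    exact h0
  | succ j ih =>
    intro k hk s
    have hk' : k < m + 1 := by omega
    have h1 := good_stratum hQ w α h ⟨k, hk'⟩ s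
    have h2 := (fw_step hQ (E := E) w ⟨k, hk'⟩ s).2 (ih (k + 1) (by omega) s)
    exact hQ.glue' h2 h1

/-- A scheme on which the general linear group acts is good if the slice over the first unit
vector and the zero scheme of the equivariant vector are good. -/
theorem good_of_slice (α : Act E w) (h : Good Q (UW E w)) (h0 : Good Q (FW E w (m + 1))) :
    Good Q E := by
  refine (hQ.good_congr fun A _ x => ?_).1 (good_fw_down hQ w α h h0 (m + 1) 0 (by omega))
  rw [pt_fw]
  simp

/-- The zero scheme of the equivariant vector is good if the scheme and the slice are good. -/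
theorem good_fw_of_slice (α : Act E w) (hE : Good Q E) (h : Good Q (UW E w)) :
    Good Q (FW E w (m + 1)) := by
  have key : ∀ k : ℕ, k ≤ m + 1 → Good Q (FW E w k) := by
    intro k
    induction k with
    | zero =>
      intro _
      refine (hQ.good_congr fun A _ x => ?_).1 hE
      rw [pt_fw]
      simp
    | succ k ih =>
      intro hk s
      have h1 := good_stratum hQ w α h ⟨k, by omega⟩ s
      exact (fw_step hQ (E := E) w ⟨k, by omega⟩ s).1 (hQ.closed' (ih (by omega) s) h1)
  exact key (m + 1) le_rfl

/-- The product of a good scheme with the general linear group is good. -/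
theorem good_gl (n : ℕ) : ∀ (τ : Type) [Finite τ] (U : Set (MvPolynomial τ ℤ)),
    Good Q U → Good Q (glS n U) := by
  induction n with
  | zero =>
    intro τ _ U h
    refine fun s => (hQ.qs_iso (fun A _ x i => x (Sum.inl i))
      (fun A _ y => Sum.elim y (Sum.elim (fun p => p.1.elim0) (fun p => p.1.elim0)))
      ?_ ?_ ?_ ?_ ?_ ?_ s).2 (h s)
    · intro A B _ _ φ x _ j; rfl
    · intro A B _ _ φ y _ i
      rcases i with i | i | i
      · rfl
      · exact i.1.elim0
      · exact i.1.elim0
    · intro A _ x hx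
      exact (pt_gls.1 hx).1
    · intro A _ y hy
      exact pt_gls.2 ⟨hy, fun i => i.elim0⟩
    · intro A _ x _
      funext i
      rcases i with i | i | i
      · rfl
      · exact i.1.elim0
      · exact i.1.elim0
    · intro A _ y _; rfl
  | succ n ih =>
    intro τ _ U h
    refine good_of_slice hQ (wgl n τ) (actGl U) (fun s => ?_) (good_of_false hQ fun A _ x hx => ?_)
    · refine (qs_gl_step U hQ s).2 (ih (τ ⊕ Fin n) _ ?_ s)
      exact (hQ.good_sum (τ := Fin n) U).2 h
    · rw [pt_fw, pt_gls] at hx
      obtain ⟨⟨_, h2⟩, h3⟩ := hx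
      have h4 := h2 0 0
      rw [if_pos rfl] at h4
      rw [← h4]
      refine Finset.sum_eq_zero fun a _ => ?_
      have h5 := h3 a a.2
      unfold wgl at h5
      rw [ev_X] at h5
      rw [h5, zero_mul]

end

end Pool.Agent.TM
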