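import Pool.Agent.TM.Comm

/-!
# Surface bundles with Torelli monodromy and a given alternating form
-/

set_option autoImplicit false

namespace Pool.Agent.TM

open FreeGroup (of)

section
variable {n : ℕ}

/-! ### Invertible Artin presentations -/

lemma comp_assoc (r s t : Fin n → FreeGroup (Fin n)) : comp (comp r s) t = comp r (comp s t) := by
  funext l
  show r l * phi r (s l) * phi (comp r s) (t l) = r l * phi r (s l * phi s (t l))
  rw [phi_comp, MonoidHom.comp_apply, map_mul, mul_assoc]

lemma phi_one : phi (fun _ : Fin n => (1 : FreeGroup (Fin n))) = MonoidHom.id _ := by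
  ext i
  rw [phi_of]
  simp

lemma comp_one (r : Fin n → FreeGroup (Fin n)) : comp r (fun _ => 1) = r := by
  funext l
  show r l * phi r 1 = r l
  rw [map_one, mul_one]

lemma one_comp (r : Fin n → FreeGroup (Fin n)) : comp (fun _ => 1) r = r := by
  funext l
  show 1 * phi (fun _ => 1) (r l) = r l
  rw [phi_one, one_mul, MonoidHom.id_apply]

/-- the invertible elements of the monoid of Artin presentations -/
def Inv (r : Fin n → FreeGroup (Fin n)) : Prop :=
  ∃ s, comp r s = (fun _ => 1) ∧ comp s r = fun _ => 1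

lemma Inv.one : Inv (fun _ : Fin n => (1 : FreeGroup (Fin n))) :=
  ⟨_, comp_one _, comp_one _⟩

lemma Inv.comp {r s : Fin n → FreeGroup (Fin n)} (hr : Inv r) (hs : Inv s) : Inv (comp r s) := by
  obtain ⟨r', h1, h2⟩ := hr
  obtain ⟨s', h3, h4⟩ := hs
  refine ⟨TM.comp s' r', ?_, ?_⟩
  · rw [comp_assoc, ← comp_assoc s, h3, one_comp, h1]
  · rw [comp_assoc, ← comp_assoc r', h2, one_comp, h4]

lemma phi_aR_i {i k : Fin n} : phi (aR i k) (of i) =
    of i * of k * of i * (of k)⁻¹ * (of i)⁻¹ := by
  rw [phi_of]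
  unfold aR
  rw [if_pos rfl]
  group

lemma phi_aR_k {i k : Fin n} (h : i < k) : phi (aR i k) (of k) = of i * of k * (of i)⁻¹ := by
  have hik : k ≠ i := (ne_of_lt h).symm
  rw [phi_of]
  unfold aR
  rw [if_neg hik, if_pos rfl, inv_inv]

lemma phi_bR_i {i k : Fin n} : phi (bR i k) (of i) = (of k)⁻¹ * of i * of k := by
  rw [phi_of]
  unfold bR
  rw [if_pos rfl]

lemma phi_bR_k {i k : Fin n} (h : i < k) : phi (bR i k) (of k) =
    (of k)⁻¹ * (of i)⁻¹ * of k * of i * of k := by
  have hik : k ≠ i := (ne_of_lt h).symm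
  rw [phi_of]
  unfold bR
  rw [if_neg hik, if_pos rfl]
  group

lemma comp_aR_bR {i k : Fin n} (h : i < k) : comp (aR i k) (bR i k) = fun _ => 1 := by
  have hik : k ≠ i := (ne_of_lt h).symm
  funext l
  show aR i k l * phi (aR i k) (bR i k l) = 1
  by_cases hl : l = i
  · have e1 : bR i k l = of k := by unfold bR; rw [if_pos hl]
    have e2 : aR i k l = of i * (of k)⁻¹ * (of i)⁻¹ := by unfold aR; rw [if_pos hl]
    rw [e1, phi_aR_k h, e2]
    group
  by_cases hk : l = k
  · have e1 : bR i k l = (of k)⁻¹ * of i * of k := by unfold bR; rw [if_neg hl, if_pos hk]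
    have e2 : aR i k l = (of i)⁻¹ := by unfold aR; rw [if_neg hl, if_pos hk]
    rw [e1, map_mul, map_mul, map_inv, phi_aR_k h, phi_aR_i, e2]
    group
  by_cases hm : i < l ∧ l < k
  · have e1 : bR i k l = (of i)⁻¹ * (of k)⁻¹ * of i * of k := by
      unfold bR; rw [if_neg hl, if_neg hk, if_pos hm]
    have e2 : aR i k l = of k * of i * (of k)⁻¹ * (of i)⁻¹ := by
      unfold aR; rw [if_neg hl, if_neg hk, if_pos hm]
    rw [e1, map_mul, map_mul, map_mul, map_inv, map_inv, phi_aR_k h, phi_aR_i, e2]
    group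
  · have e1 : bR i k l = 1 := by unfold bR; rw [if_neg hl, if_neg hk, if_neg hm]
    have e2 : aR i k l = 1 := by unfold aR; rw [if_neg hl, if_neg hk, if_neg hm]
    rw [e1, e2, map_one, one_mul]

lemma comp_bR_aR {i k : Fin n} (h : i < k) : comp (bR i k) (aR i k) = fun _ => 1 := by
  have hik : k ≠ i := (ne_of_lt h).symm
  funext l
  show bR i k l * phi (bR i k) (aR i k l) = 1
  by_cases hl : l = i
  · have e1 : bR i k l = of k := by unfold bR; rw [if_pos hl]
    have e2 : aR i k l = of i * (of k)⁻¹ * (of i)⁻¹ := by unfold aR; rw [if_pos hl]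
    rw [e2, map_mul, map_mul, map_inv, map_inv, phi_bR_k h, phi_bR_i, e1]
    group
  by_cases hk : l = k
  · have e1 : bR i k l = (of k)⁻¹ * of i * of k := by unfold bR; rw [if_neg hl, if_pos hk]
    have e2 : aR i k l = (of i)⁻¹ := by unfold aR; rw [if_neg hl, if_pos hk]
    rw [e2, map_inv, phi_bR_i, e1]
    group
  by_cases hm : i < l ∧ l < k
  · have e1 : bR i k l = (of i)⁻¹ * (of k)⁻¹ * of i * of k := by
      unfold bR; rw [if_neg hl, if_neg hk, if_pos hm]
    have e2 : aR i k l = of k * of i * (of k)⁻¹ * (of i)⁻¹ := by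
      unfold aR; rw [if_neg hl, if_neg hk, if_pos hm]
    rw [e2, map_mul, map_mul, map_mul, map_inv, map_inv, phi_bR_k h, phi_bR_i, e1]
    group
  · have e1 : bR i k l = 1 := by unfold bR; rw [if_neg hl, if_neg hk, if_neg hm]
    have e2 : aR i k l = 1 := by unfold aR; rw [if_neg hl, if_neg hk, if_neg hm]
    rw [e1, e2, map_one, one_mul]

lemma inv_aR {i k : Fin n} (h : i < k) : Inv (aR i k) := ⟨_, comp_aR_bR h, comp_bR_aR h⟩

lemma inv_bR {i k : Fin n} (h : i < k) : Inv (bR i k) := ⟨_, comp_bR_aR h, comp_aR_bR h⟩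

/-- there is an invertible Artin presentation with the alternating form `μ` -/
def Real2 (μ : Fin n → Fin n → Fin n → ℤ) : Prop :=
  ∃ r : Fin n → FreeGroup (Fin n), IsArtin r ∧ Inv r ∧
    ∀ (R : Type) [CommRing R] (x : Fin n × Fin 3 → R) (l : Fin n),
      hom x (r l) = uni 0 0 (∑ p, ∑ q, (μ p q l : R) * (x (p, 0) * x (q, 1)))

lemma real2_zero : Real2 (n := n) (fun _ _ _ => 0) :=
  ⟨_, isArtin_one, Inv.one, fun R _ x l => by simp [uni_one]⟩

lemma Real2.add {μ ν : Fin n → Fin n → Fin n → ℤ} (hμ : Real2 μ) (hν : Real2 ν) :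
    Real2 (fun p q l => μ p q l + ν p q l) := by
  obtain ⟨r, hr, hi, hr'⟩ := hμ
  obtain ⟨s, hs, hj, hs'⟩ := hν
  refine ⟨comp r s, isArtin_comp hr hs, hi.comp hj, fun R _ x l => ?_⟩
  have h1 : ∀ u, hom x (phi r u) = hom x u := hom_phi fun l => by
    rw [hr']
    unfold gn
    rw [conj_uni]
    congr 1
    ring
  unfold comp
  rw [map_mul, h1, hr', hs', uni_mul]
  congr 1
  · ring
  · ring
  · simp only [Int.cast_add, add_mul, Finset.sum_add_distrib]
    ring

/-- the commutator of two pure braids -/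
lemma real2_el {i j k : Fin n} (hij : i ≠ j) (hi : i < k) (hj : j < k) : Real2 (el i j k) := by
  have hki : k ≠ i := (ne_of_lt hi).symm
  have hkj : k ≠ j := (ne_of_lt hj).symm
  refine ⟨comp (comp (comp (aR i k) (aR j k)) (bR i k)) (bR j k),
    isArtin_comp (isArtin_comp (isArtin_comp (isArtin_aR hi) (isArtin_aR hj)) (isArtin_bR hi))
      (isArtin_bR hj), (((inv_aR hi).comp (inv_aR hj)).comp (inv_bR hi)).comp (inv_bR hj),
      fun R _ x l => ?_⟩
  have h1 : hom x (comp (comp (comp (aR i k) (aR j k)) (bR i k)) (bR j k) l) =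
      hom x (aR i k l) * hom (sh x i k (om x i k)) (aR j k l) *
      hom (sh (sh x i k (om x i k)) j k (om x j k)) (bR i k l) *
      hom (sh (sh (sh x i k (om x i k)) j k (om x j k)) i k (-om x i k)) (bR j k l) := by
    have e1 : comp (comp (comp (aR i k) (aR j k)) (bR i k)) (bR j k) l =
        aR i k l * phi (aR i k) (aR j k l) * phi (aR i k) (phi (aR j k) (bR i k l)) *
        phi (aR i k) (phi (aR j k) (phi (bR i k) (bR j k l))) := by
      show (comp (comp (aR i k) (aR j k)) (bR i k)) l *
        phi (comp (comp (aR i k) (aR j k)) (bR i k)) (bR j k l) = _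
      rw [phi_comp, phi_comp]
      show (comp (aR i k) (aR j k)) l * phi (comp (aR i k) (aR j k)) (bR i k l) * _ = _
      rw [phi_comp]
      rfl
    rw [e1, map_mul, map_mul, map_mul, hom_phi_aR x hi, hom_phi_aR x hi, hom_phi_aR x hi,
      hom_phi_aR _ hj, hom_phi_aR _ hj, hom_phi_bR _ hi, om_sh, om_sh, om_sh]
  rw [h1, sum_el, hom_aR, hom_aR, hom_bR, hom_bR]
  simp only [om_sh, sh_zero, sh_one, sh_two]
  by_cases hl : l = i
  · subst hl
    have e1 : ¬ l = k := hki.symm
    simp only [if_true, if_neg hij, if_neg e1, if_neg hki, if_neg hkj]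
    split_ifs <;> simp only [uni_mul] <;> congr 1 <;> (try unfold om) <;> ring
  · by_cases hl' : l = j
    · subst hl'
      have e1 : ¬ l = k := hkj.symm
      simp only [if_true, if_neg hl, if_neg hij, if_neg e1, if_neg hki, if_neg hkj]
      split_ifs <;> simp only [uni_mul] <;> congr 1 <;> (try unfold om) <;> ring
    · by_cases hk : l = k
      · subst hk
        simp only [if_true, if_neg hl, if_neg hl', if_neg hij, if_neg hij.symm, if_neg hki.symm,
          if_neg hkj.symm, uni_mul]
        congr 1 <;> (try unfold om) <;> ring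
      · simp only [if_neg hl, if_neg hl', if_neg hk]
        split_ifs <;> simp only [uni_mul] <;> congr 1 <;> (try unfold om) <;> ring

lemma real2_el' {i j k : Fin n} (hi : i < k) (hj : j < k) : Real2 (el i j k) := by
  by_cases h : i = j
  · subst h
    have : el i i k = fun _ _ _ => 0 := by
      funext p q l
      exact el_self i k p q l
    rw [this]
    exact real2_zero
  · exact real2_el h hi hj

lemma real2_sum {S : Type} (T : Finset S) (μ : S → Fin n → Fin n → Fin n → ℤ)
    (h : ∀ s, Real2 (μ s)) : Real2 (fun p q l => ∑ s ∈ T, μ s p q l) := by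
  classical
  induction T using Finset.induction_on with
  | empty =>
    simp only [Finset.sum_empty]
    exact real2_zero
  | insert s T hs ih =>
    simp only [Finset.sum_insert hs]
    exact (h s).add ih

end

theorem exists_artin2 {v k : ℕ} (e : Fin k → Fin v × Fin v × Fin v × Fin v) :
    Real2 (muE e) := by
  have h0 := real2_sum Finset.univ (fun s p q l =>
    el (Fin.castAdd k (e s).1) (Fin.castAdd k (e s).2.1) (Fin.natAdd v s) p q l -
      el (Fin.castAdd k (e s).2.2.1) (Fin.castAdd k (e s).2.2.2) (Fin.natAdd v s) p q l)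
    fun s => ?_
  · exact h0
  have hlt : ∀ i : Fin v, Fin.castAdd k i < Fin.natAdd v s := fun i => by
    rw [Fin.lt_def, Fin.val_castAdd, Fin.val_natAdd]
    omega
  have h1 := (real2_el' (hlt (e s).1) (hlt (e s).2.1)).add
    (real2_el' (hlt (e s).2.2.2) (hlt (e s).2.2.1))
  have h2 : (fun p q l => el (Fin.castAdd k (e s).1) (Fin.castAdd k (e s).2.1)
      (Fin.natAdd v s) p q l + el (Fin.castAdd k (e s).2.2.2) (Fin.castAdd k (e s).2.2.1)
      (Fin.natAdd v s) p q l) = fun p q l =>
      el (Fin.castAdd k (e s).1) (Fin.castAdd k (e s).2.1) (Fin.natAdd v s) p q l -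
      el (Fin.castAdd k (e s).2.2.1) (Fin.castAdd k (e s).2.2.2) (Fin.natAdd v s) p q l := by
    funext p q l
    rw [el_swap (Fin.castAdd k (e s).2.2.2)]
    ring
  rw [h2] at h1
  exact h1

/-! ### Tails of products -/

/-- the product of the elements from the index `k` on -/
def tl {G : Type} [Group G] {n : ℕ} (y : Fin n → G) (k : ℕ) : G := ((List.ofFn y).drop k).prod

lemma tl_zero {G : Type} [Group G] {n : ℕ} (y : Fin n → G) : tl y 0 = (List.ofFn y).prod := rfl

lemma tl_last {G : Type} [Group G] {n : ℕ} (y : Fin n → G) : tl y n = 1 := by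
  unfold tl
  rw [List.drop_of_length_le (by simp)]
  rfl

lemma tl_step {G : Type} [Group G] {n : ℕ} (y : Fin n → G) (i : Fin n) :
    tl y i = y i * tl y (i + 1) := by
  unfold tl
  rw [List.drop_eq_getElem_cons (by simp), List.prod_cons]
  congr 1
  simp

lemma map_tl {G H : Type} [Group G] [Group H] {n : ℕ} (f : G →* H) (y : Fin n → G) (k : ℕ) :
    f (tl y k) = tl (fun i => f (y i)) k := by
  unfold tl
  rw [map_list_prod, List.map_drop, List.map_ofFn]
  rfl

section
variable {n : ℕ}

/-! ### The automorphism -/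

/-- the free group with the generators `a_i` -/
abbrev emb : FreeGroup (Fin n) →* FreeGroup (Fin n × Bool) := FreeGroup.map fun i => (i, false)

/-- the defect -/
def dfc (r : Fin n → FreeGroup (Fin n)) (k : ℕ) : FreeGroup (Fin n) :=
  tl (fun i => (r i)⁻¹ * of i * r i) k * (tl (fun i => of i) k)⁻¹

lemma dfc_last (r : Fin n → FreeGroup (Fin n)) : dfc r n = 1 := by
  unfold dfc
  rw [tl_last, tl_last]
  simp

lemma dfc_zero {r : Fin n → FreeGroup (Fin n)} (h : IsArtin r) : dfc r 0 = 1 := by
  unfold dfc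
  rw [tl_zero, tl_zero, mul_inv_eq_one]
  exact h

lemma dfc_step (r : Fin n → FreeGroup (Fin n)) (i : Fin n) :
    (r i)⁻¹ * of i * r i * dfc r (i + 1) = dfc r i * of i := by
  unfold dfc
  rw [tl_step _ i, tl_step (fun i => of i) i]
  group

/-- the endomorphism of the free group with the generators `a_i`, `b_i` -/
def big (r : Fin n → FreeGroup (Fin n)) : FreeGroup (Fin n × Bool) →* FreeGroup (Fin n × Bool) :=
  FreeGroup.lift fun p => match p with
    | (i, false) => (emb (r i))⁻¹ * of (i, false) * emb (r i)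
    | (i, true) => emb (dfc r (i + 1)) * of (i, true) * emb (r i)

lemma big_a (r : Fin n → FreeGroup (Fin n)) (i : Fin n) :
    big r (of (i, false)) = (emb (r i))⁻¹ * of (i, false) * emb (r i) := by
  unfold big
  rw [FreeGroup.lift_apply_of]

lemma big_b (r : Fin n → FreeGroup (Fin n)) (i : Fin n) :
    big r (of (i, true)) = emb (dfc r (i + 1)) * of (i, true) * emb (r i) := by
  unfold big
  rw [FreeGroup.lift_apply_of]

lemma emb_of (i : Fin n) : emb (of i) = of (i, false) := by
  unfold emb
  rw [FreeGroup.map.of]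

lemma big_emb (r : Fin n → FreeGroup (Fin n)) (u : FreeGroup (Fin n)) :
    big r (emb u) = emb (phi r u) := by
  have h : (big r).comp emb = emb.comp (phi r) := by
    ext i
    rw [MonoidHom.comp_apply, MonoidHom.comp_apply, emb_of, big_a, phi_of, map_mul, map_mul,
      map_inv, emb_of]
  exact DFunLike.congr_fun h u

lemma phi_dfc (r s : Fin n → FreeGroup (Fin n)) (k : ℕ) :
    phi r (dfc s k) * dfc r k = dfc (comp r s) k := by
  unfold dfc
  rw [map_mul, map_inv, map_tl, map_tl]
  have h1 : (fun i => phi r ((s i)⁻¹ * of i * s i)) =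
      fun i => (comp r s i)⁻¹ * of i * comp r s i := by
    funext i
    rw [map_mul, map_mul, map_inv, phi_of]
    unfold comp
    group
  have h2 : (fun i => phi r (of i)) = fun i => (r i)⁻¹ * of i * r i := by
    funext i
    exact phi_of r i
  rw [h1, h2]
  group

lemma big_comp (r s : Fin n → FreeGroup (Fin n)) : big (comp r s) = (big r).comp (big s) := by
  ext p
  obtain ⟨i, b⟩ := p
  cases b
  · rw [MonoidHom.comp_apply, big_a, big_a, map_mul, map_mul, map_inv, big_emb, big_a]
    unfold comp
    rw [map_mul]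
    group
  · rw [MonoidHom.comp_apply, big_b, big_b, map_mul, map_mul, big_emb, big_emb, big_b,
      ← phi_dfc r s, map_mul]
    unfold comp
    rw [map_mul]
    group

lemma big_one : big (fun _ : Fin n => (1 : FreeGroup (Fin n))) = MonoidHom.id _ := by
  ext p
  obtain ⟨i, b⟩ := p
  cases b
  · rw [big_a]
    simp
  · rw [big_b]
    have h : dfc (fun _ : Fin n => (1 : FreeGroup (Fin n))) (i + 1) = 1 := by
      unfold dfc
      simp
    rw [h]
    simp

lemma big_surf {r : Fin n → FreeGroup (Fin n)} (h : IsArtin r) : big r (surf n) = surf n := by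
  unfold surf
  rw [map_list_prod, List.map_ofFn]
  have h1 := prod_defect n
    (fun i => emb (dfc r i) * (of (i, false) * of (i, true) * (of (i, false))⁻¹ *
      (of (i, true))⁻¹) * (emb (dfc r (i + 1)))⁻¹)
    (fun i => of (i, false) * of (i, true) * (of (i, false))⁻¹ * (of (i, true))⁻¹)
    (fun k => emb (dfc r k)) (fun l => by group)
  rw [dfc_zero h, dfc_last, map_one, one_mul, mul_one] at h1
  rw [h1]
  congr 2
  funext i
  rw [Function.comp_apply, map_mul, map_mul, map_mul, map_inv, map_inv, big_a, big_b]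
  have h2 := congrArg emb (dfc_step r i)
  rw [map_mul, map_mul, map_mul, map_mul, map_inv, emb_of] at h2
  have h3 : emb (dfc r i) = (emb (r i))⁻¹ * of (i, false) * emb (r i) * emb (dfc r (i + 1)) *
      (of (i, false))⁻¹ := by
    rw [h2]
    group
  rw [h3]
  group

/-- the automorphism -/
def bigE {r s : Fin n → FreeGroup (Fin n)} (h1 : comp r s = fun _ => 1)
    (h2 : comp s r = fun _ => 1) : FreeGroup (Fin n × Bool) ≃* FreeGroup (Fin n × Bool) :=
  MonoidHom.toMulEquiv (big r) (big s) (by rw [← big_comp, h2, big_one])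
    (by rw [← big_comp, h1, big_one])

end

/-- **Torelli automorphisms with given alternating forms.** -/
theorem exists_torelli {v k : ℕ} (e : Fin k → Fin v × Fin v × Fin v × Fin v) :
    ∃ (r : Fin (v + k) → FreeGroup (Fin (v + k)))
      (φ : FreeGroup (Fin (v + k) × Bool) ≃* FreeGroup (Fin (v + k) × Bool)),
      (∀ (R : Type) [CommRing R] (x : Fin (v + k) × Fin 3 → R) (l : Fin (v + k)),
        hom x (r l) = uni 0 0 (∑ p, ∑ q, (muE e p q l : R) * (x (p, 0) * x (q, 1)))) ∧
      φ (surf (v + k)) = surf (v + k) ∧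
      (∀ y, φ y * y⁻¹ ∈ commutator (FreeGroup (Fin (v + k) × Bool))) ∧
      (∀ i, φ (of (i, false)) = (FreeGroup.map (fun j => (j, false)) (r i))⁻¹ * of (i, false) *
        FreeGroup.map (fun j => (j, false)) (r i)) ∧
      ∀ i, ∃ d : FreeGroup (Fin (v + k) × Bool),
        (∀ {G : Type} [Group G] (h : FreeGroup (Fin (v + k) × Bool) →* G),
          (∀ j, h ((FreeGroup.map (fun j => (j, false)) (r j))⁻¹ * of (j, false) *
            FreeGroup.map (fun j => (j, false)) (r j)) = h (of (j, false))) → h d = 1) ∧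
        φ (of (i, true)) = d * of (i, true) * FreeGroup.map (fun j => (j, false)) (r i) := by
  obtain ⟨r, hr, ⟨s, h1, h2⟩, h3⟩ := exists_artin2 e
  have hd : ∀ {G : Type} [Group G] (h : FreeGroup (Fin (v + k) × Bool) →* G),
      (∀ j, h ((emb (r j))⁻¹ * of (j, false) * emb (r j)) = h (of (j, false))) →
      ∀ m, h (emb (dfc r m)) = 1 := by
    intro G _ h hh m
    unfold dfc
    rw [map_mul, map_mul, map_inv, map_inv, map_tl, map_tl, map_tl, map_tl, mul_inv_eq_one]
    congr 1
    funext j
    have e1 : emb ((r j)⁻¹ * of j * r j) = (emb (r j))⁻¹ * of (j, false) * emb (r j) := by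
      rw [map_mul, map_mul, map_inv, emb_of]
    rw [e1, hh j, emb_of]
  refine ⟨r, bigE h1 h2, h3, big_surf hr, fun y => ?_, big_a r, fun i =>
    ⟨emb (dfc r (i + 1)), fun {G} _ h hh => hd h hh (i + 1), big_b r i⟩⟩
  -- the action on the abelianization
  have hc : ∀ l, Abelianization.of (emb (r l)) = 1 := by
    intro l
    have h4 : r l ∈ commutator (FreeGroup (Fin (v + k))) :=
      mem_commutator _ fun x => ⟨_, h3 ℤ x l⟩
    have h5 : (Abelianization.of.comp (emb (n := v + k))) (r l) = 1 := by
      have h6 := Abelianization.commutator_subset_ker (Abelianization.of.comp (emb (n := v + k)))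
      exact h6 h4
    exact h5
  have hab : Abelianization.of.comp (big r) = Abelianization.of := by
    ext p
    obtain ⟨i, b⟩ := p
    cases b
    · rw [MonoidHom.comp_apply, big_a, map_mul, map_mul, map_inv, hc]
      simp
    · rw [MonoidHom.comp_apply, big_b, map_mul, map_mul, hc, hd Abelianization.of fun j => by
        rw [map_mul, map_mul, map_inv, hc]
        simp]
      simp
  rw [← Abelianization.ker_of, MonoidHom.mem_ker, map_mul, map_inv, mul_inv_eq_one]
  exact DFunLike.congr_fun hab y

end Pool.Agent.TM
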